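import Mathlib
import Pool.Graph.R_pool_sql_team_seeded_f0cf7b00.H860R2.PP.STR
import Pool.Graph.R_pool_sql_team_seeded_f0cf7b00.H860R2.PP.MON

/-! Projection body of a zonotope. -/

set_option autoImplicit false
set_option linter.unusedSimpArgs false
set_option linter.unusedSectionVars false
open MeasureTheory Set Filter Topology Module
open scoped ENNReal RealInnerProductSpace Pointwise

namespace Pool.Agent.H769.Zono

open Pool.Agent.H229R2.PB3 (hPi)
open Pool.Agent.H860R2.PP (V T_STR T_MON)

/-- Euclidean space -/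
abbrev En (n : ℕ) := EuclideanSpace ℝ (Fin n)

variable {n k : ℕ}

theorem str (K : Set (En (k + 1))) (hc : Convex ℝ K) (hK : IsCompact K) (x : En (k + 1)) :
    V (K + segment ℝ 0 x) = V K + hPi K x := T_STR (k + 1) (by omega) K hc hK x

theorem hPi_mono {K K' : Set (En (k + 1))} (hc : Convex ℝ K) (hK : IsCompact K)
    (hc' : Convex ℝ K') (hK' : IsCompact K') (h : K ⊆ K') (x : En (k + 1)) : hPi K x ≤ hPi K' x :=
  (T_MON (k + 1) (by omega) K K' hc hK hc' hK' h).1 x

theorem hPi_nonneg (K : Set (En (k + 1))) (x : En (k + 1)) : 0 ≤ hPi K x :=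
  mul_nonneg (norm_nonneg x) ENNReal.toReal_nonneg

theorem hPi_smul {K : Set (En (k + 1))} (hc : Convex ℝ K) (hK : IsCompact K) {t : ℝ} (ht : 0 ≤ t)
    (x : En (k + 1)) : hPi K (t • x) = t * hPi K x :=
  (T_MON (k + 1) (by omega) K K hc hK hc hK Subset.rfl).2.2 t x ht

theorem hPi_zero (K : Set (En (k + 1))) : hPi K 0 = 0 := by simp [hPi]

theorem seg_compact (x : En n) : IsCompact (segment ℝ 0 x) := by
  rw [segment_eq_image]
  exact isCompact_Icc.image (by fun_prop)

theorem seg_smul (t : ℝ) (x : En n) : segment ℝ 0 (t • x) = t • segment ℝ 0 x := by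
  ext z
  rw [Set.mem_smul_set]
  constructor
  · intro hz
    rw [segment_eq_image] at hz
    obtain ⟨θ, hθ, rfl⟩ := hz
    refine ⟨θ • x, ?_, ?_⟩
    · rw [segment_eq_image]; exact ⟨θ, hθ, by simp⟩
    · simp [smul_smul, mul_comm]
  · rintro ⟨y, hy, rfl⟩
    rw [segment_eq_image] at hy
    obtain ⟨θ, hθ, rfl⟩ := hy
    rw [segment_eq_image]
    exact ⟨θ, hθ, by simp [smul_smul, mul_comm]⟩

variable {ι : Type} [DecidableEq ι]

/-- zonotope -/
noncomputable def Zt (s : Finset ι) (a : ι → En n) : Set (En n) := ∑ i ∈ s, segment ℝ 0 (a i)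

theorem Zt_convex (s : Finset ι) (a : ι → En n) : Convex ℝ (Zt s a) := by
  induction s using Finset.induction_on with
  | empty => simp [Zt, convex_singleton, ← Set.singleton_zero]
  | insert i s hi ih =>
    unfold Zt at *
    rw [Finset.sum_insert hi]
    exact (convex_segment _ _).add ih

theorem Zt_compact (s : Finset ι) (a : ι → En n) : IsCompact (Zt s a) := by
  induction s using Finset.induction_on with
  | empty => simp [Zt, ← Set.singleton_zero]
  | insert i s hi ih =>
    unfold Zt at *
    rw [Finset.sum_insert hi]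
    exact (seg_compact _).add ih

theorem Zt_insert {s : Finset ι} {i : ι} (hi : i ∉ s) (a : ι → En n) :
    Zt (insert i s) a = Zt s a + segment ℝ 0 (a i) := by
  unfold Zt
  rw [Finset.sum_insert hi, add_comm]

theorem Zt_congr {s : Finset ι} {a a' : ι → En n} (h : ∀ i ∈ s, a i = a' i) : Zt s a = Zt s a' := by
  unfold Zt
  exact Finset.sum_congr rfl fun i hi => by rw [h i hi]

theorem Zt_smul (s : Finset ι) (a : ι → En n) (t : ℝ) :
    Zt s (fun i => t • a i) = t • Zt s a := by
  induction s using Finset.induction_on with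
  | empty => simp [Zt]
  | insert i s hi ih =>
    rw [Zt_insert hi, Zt_insert hi, ih, seg_smul, smul_add]

/-- alternating form `v ↦ det (w, v)` -/
noncomputable def Dk (w : En (k + 1)) : (En (k + 1)) [⋀^Fin k]→ₗ[ℝ] ℝ :=
  ((EuclideanSpace.basisFun (Fin (k + 1)) ℝ).toBasis.det).curryLeft w

theorem Dk_apply (w : En (k + 1)) (v : Fin k → En (k + 1)) :
    Dk w v = (EuclideanSpace.basisFun (Fin (k + 1)) ℝ).toBasis.det (Matrix.vecCons w v) := rfl

theorem vol_para (v : Fin n → En n) :
    V (∑ i, segment ℝ 0 (v i)) = |(EuclideanSpace.basisFun (Fin n) ℝ).toBasis.det v| := by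
  unfold V
  rw [← parallelepiped_eq_sum_segment, ← (EuclideanSpace.basisFun (Fin n) ℝ).addHaar_eq_volume,
    Measure.addHaar_parallelepiped, ENNReal.toReal_ofReal (abs_nonneg _)]

/-- sum over all `k`-tuples of indices -/
noncomputable def Q (s : Finset ι) (a : ι → En (k + 1)) (w : En (k + 1)) : ℝ :=
  (k.factorial : ℝ)⁻¹ * ∑ g ∈ Fintype.piFinset (fun _ : Fin k => s), |Dk w (a ∘ g)|

/-- scaling one vector by two, sum over tuples -/
theorem Q_two {s : Finset ι} {i : ι} (_hi : i ∈ s) (a : ι → En (k + 1)) (w : En (k + 1)) :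
    Q s (Function.update a i ((2 : ℝ) • a i)) w = 2 * Q s a w - Q (s.erase i) a w := by
  unfold Q
  rw [← mul_assoc, mul_comm (2 : ℝ), mul_assoc, ← mul_sub]
  congr 1
  have hsub : Fintype.piFinset (fun _ : Fin k => s.erase i) ⊆
      Fintype.piFinset (fun _ : Fin k => s) := by
    apply Fintype.piFinset_subset
    intro _
    exact Finset.erase_subset _ _
  rw [← Finset.sum_sdiff hsub, ← Finset.sum_sdiff (f := fun g => |Dk w (a ∘ g)|) hsub]
  have h1 : ∑ g ∈ Fintype.piFinset (fun _ : Fin k => s.erase i),
      |Dk w (Function.update a i ((2 : ℝ) • a i) ∘ g)| =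
      ∑ g ∈ Fintype.piFinset (fun _ : Fin k => s.erase i), |Dk w (a ∘ g)| := by
    refine Finset.sum_congr rfl fun g hg => ?_
    congr 2
    ext p : 1
    rw [Fintype.mem_piFinset] at hg
    have := Finset.ne_of_mem_erase (hg p)
    simp [Function.update_of_ne this]
  have h2 : ∑ g ∈ Fintype.piFinset (fun _ : Fin k => s) \
        Fintype.piFinset (fun _ : Fin k => s.erase i),
      |Dk w (Function.update a i ((2 : ℝ) • a i) ∘ g)| =
      2 * ∑ g ∈ Fintype.piFinset (fun _ : Fin k => s) \
        Fintype.piFinset (fun _ : Fin k => s.erase i), |Dk w (a ∘ g)| := by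
    rw [Finset.mul_sum]
    refine Finset.sum_congr rfl fun g hg => ?_
    rw [Finset.mem_sdiff, Fintype.mem_piFinset, Fintype.mem_piFinset] at hg
    obtain ⟨hg1, hg2⟩ := hg
    push Not at hg2
    obtain ⟨p, hp⟩ := hg2
    have hpi : g p = i := by
      by_contra hcon
      exact hp (Finset.mem_erase.2 ⟨hcon, hg1 p⟩)
    by_cases hinj : Function.Injective g
    · have h3 : Function.update a i ((2 : ℝ) • a i) ∘ g =
          Function.update (a ∘ g) p ((2 : ℝ) • (a ∘ g) p) := by
        ext q : 1
        by_cases hq : q = p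
        · subst hq; simp [hpi]
        · rw [Function.update_of_ne hq]
          have : g q ≠ i := by
            intro h4
            apply hq
            apply hinj
            rw [h4, hpi]
          simp [Function.update_of_ne this]
      rw [h3, AlternatingMap.map_update_smul, Function.update_eq_self, smul_eq_mul, abs_mul]
      norm_num
    · have h4 : Dk w (a ∘ g) = 0 := AlternatingMap.map_eq_zero_of_not_injective _ _
        fun h6 => hinj h6.of_comp
      have h5 : Dk w (Function.update a i ((2 : ℝ) • a i) ∘ g) = 0 :=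
        AlternatingMap.map_eq_zero_of_not_injective _ _ fun h6 => hinj h6.of_comp
      rw [h4, h5]
      simp
  rw [h1, h2]
  ring

theorem hPi_add_seg {K : Set (En (k + 1))} (hc : Convex ℝ K) (hK : IsCompact K)
    (y w : En (k + 1)) :
    hPi (K + segment ℝ 0 y) w = hPi K w + hPi (K + segment ℝ 0 w) y - hPi K y := by
  have h1 := str (K + segment ℝ 0 y) (hc.add (convex_segment _ _)) (hK.add (seg_compact _)) w
  have h2 := str (K + segment ℝ 0 w) (hc.add (convex_segment _ _)) (hK.add (seg_compact _)) y
  have h3 := str K hc hK y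
  have h4 := str K hc hK w
  rw [add_right_comm] at h1
  linarith

/-- scaling one vector by two, projection functions -/
theorem P_two {s : Finset ι} {i : ι} (hi : i ∈ s) (a : ι → En (k + 1)) (w : En (k + 1)) :
    hPi (Zt s (Function.update a i ((2 : ℝ) • a i))) w =
      2 * hPi (Zt s a) w - hPi (Zt (s.erase i) a) w := by
  have h1 : Zt s a = Zt (s.erase i) a + segment ℝ 0 (a i) := by
    conv_lhs => rw [← Finset.insert_erase hi]
    rw [Zt_insert (Finset.notMem_erase i s)]
  have h2 : Zt s (Function.update a i ((2 : ℝ) • a i)) =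
      Zt (s.erase i) a + segment ℝ 0 ((2 : ℝ) • a i) := by
    conv_lhs => rw [← Finset.insert_erase hi]
    rw [Zt_insert (Finset.notMem_erase i s), Function.update_self]
    congr 1
    refine Zt_congr fun j hj => ?_
    rw [Function.update_of_ne (Finset.ne_of_mem_erase hj)]
  have hc := Zt_convex (s.erase i) a
  have hK := Zt_compact (s.erase i) a
  have h3 := hPi_smul (hc.add (convex_segment _ _)) (hK.add (seg_compact w)) zero_le_two (a i)
  have h4 := hPi_smul hc hK zero_le_two (a i)
  rw [h1, h2, hPi_add_seg hc hK (a i) w, hPi_add_seg hc hK ((2 : ℝ) • a i) w, h3, h4]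
  ring

theorem Zt_emb (e : Fin n → ι) (he : Function.Injective e) (a : ι → En (k + 1)) :
    Zt (Finset.univ.map ⟨e, he⟩) a = ∑ p, segment ℝ 0 (a (e p)) := by
  unfold Zt
  rw [Finset.sum_map]
  rfl

/-- the base case -/
theorem base (e : Fin k → ι) (he : Function.Injective e) (a : ι → En (k + 1))
    (w : En (k + 1)) :
    hPi (Zt (Finset.univ.map ⟨e, he⟩) a) w = Q (Finset.univ.map ⟨e, he⟩) a w := by
  have h1 : ∀ x : En (k + 1), V (Zt (Finset.univ.map ⟨e, he⟩) a + segment ℝ 0 x) =
      |Dk x (a ∘ e)| := by
    intro x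
    have hcomm : ∀ A B : Set (En (k + 1)), A + B = B + A := fun A B => add_comm A B
    rw [Dk_apply, ← vol_para, Fin.sum_univ_succ, Zt_emb, hcomm]
    rfl
  have h2 : V (Zt (Finset.univ.map ⟨e, he⟩) a) = 0 := by
    have := h1 0
    rw [segment_same, Set.singleton_zero, add_zero] at this
    rw [this]
    unfold Dk
    rw [map_zero]
    simp
  have h3 := str _ (Zt_convex (Finset.univ.map ⟨e, he⟩) a) (Zt_compact _ a) w
  rw [h1, h2, zero_add] at h3
  rw [← h3]
  unfold Q
  have h4 : ∑ g ∈ Fintype.piFinset (fun _ : Fin k => Finset.univ.map ⟨e, he⟩), |Dk w (a ∘ g)| =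
      ∑ σ : Equiv.Perm (Fin k), |Dk w (a ∘ e)| := by
    symm
    have h5 : ∑ σ : Equiv.Perm (Fin k), |Dk w (a ∘ e)| =
        ∑ σ : Equiv.Perm (Fin k), |Dk w (a ∘ (e ∘ σ))| := by
      refine Finset.sum_congr rfl fun σ _ => ?_
      rw [← Function.comp_assoc, AlternatingMap.map_perm]
      rcases Int.units_eq_one_or (Equiv.Perm.sign σ) with h | h <;> simp [h]
    rw [h5]
    rw [← Finset.sum_image (s := Finset.univ) (g := fun σ : Equiv.Perm (Fin k) => e ∘ σ)
      (f := fun g => |Dk w (a ∘ g)|)]
    · refine Finset.sum_subset ?_ ?_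
      · intro g hg
        rw [Finset.mem_image] at hg
        obtain ⟨σ, _, rfl⟩ := hg
        rw [Fintype.mem_piFinset]
        intro p
        simp
      · intro g hg hg'
        rw [Fintype.mem_piFinset] at hg
        have hex : ∀ p, ∃ q, e q = g p := by
          intro p
          have := hg p
          simpa using this
        choose τ hτ using hex
        have hg2 : g = e ∘ τ := by ext p; exact (hτ p).symm
        have hni : ¬ Function.Injective τ := by
          intro hin
          apply hg'
          rw [Finset.mem_image]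
          refine ⟨Equiv.ofBijective τ (Finite.injective_iff_bijective.1 hin), Finset.mem_univ _, ?_⟩
          rw [hg2]
          rfl
        have : Dk w (a ∘ g) = 0 := by
          apply AlternatingMap.map_eq_zero_of_not_injective
          intro h6
          rw [hg2, ← Function.comp_assoc] at h6
          exact hni h6.of_comp
        rw [this, abs_zero]
    · intro σ _ τ _ hστ
      ext p
      have := congrFun hστ p
      simp only [Function.comp_apply] at this
      rw [he this]
  rw [h4, Finset.sum_const, Finset.card_univ, Fintype.card_perm, Fintype.card_fin, nsmul_eq_mul,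
    ← mul_assoc, inv_mul_cancel₀ (Nat.cast_ne_zero.2 (Nat.factorial_ne_zero k)), one_mul]

theorem V_smul {t : ℝ} (ht : 0 ≤ t) (K : Set (En n)) : V (t • K) = t ^ n * V K := by
  unfold V
  rw [Measure.addHaar_smul, finrank_euclideanSpace, Fintype.card_fin, ENNReal.toReal_mul,
    ENNReal.toReal_ofReal (abs_nonneg _), abs_of_nonneg (pow_nonneg ht n)]

theorem hPi_set_smul {K : Set (En (k + 1))} (hc : Convex ℝ K) (hK : IsCompact K) {t : ℝ}
    (ht : 0 < t) (w : En (k + 1)) : hPi (t • K) w = t ^ k * hPi K w := by
  have h1 := str (t • K) (hc.smul t) (hK.smul t) w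
  have h2 : t • K + segment ℝ 0 w = t • (K + segment ℝ 0 (t⁻¹ • w)) := by
    rw [smul_add, ← seg_smul, smul_smul, mul_inv_cancel₀ ht.ne', one_smul]
  have h3 := str K hc hK (t⁻¹ • w)
  rw [h2, V_smul ht.le, V_smul ht.le, h3, hPi_smul hc hK (inv_nonneg.2 ht.le)] at h1
  have h4 : t ^ (k + 1) * (t⁻¹ * hPi K w) = t ^ k * hPi K w := by
    rw [pow_succ]; field_simp
  linarith

theorem Q_smul (s : Finset ι) (a : ι → En (k + 1)) (w : En (k + 1)) (t : ℝ) :
    Q s (fun i => t • a i) w = |t| ^ k * Q s a w := by
  unfold Q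
  rw [mul_left_comm]
  congr 1
  rw [Finset.mul_sum]
  refine Finset.sum_congr rfl fun g _ => ?_
  have h1 : (fun i => t • a i) ∘ g = fun p => t • (a ∘ g) p := rfl
  have h2 : Dk w (fun p => t • (a ∘ g) p) = (∏ _p : Fin k, t) • Dk w (a ∘ g) :=
    (Dk w).toMultilinearMap.map_smul_univ (fun _ => t) (a ∘ g)
  rw [h1, h2, Finset.prod_const, Finset.card_univ,
    Fintype.card_fin, smul_eq_mul, abs_mul, abs_pow]

/-- **The projection function of a zonotope.** -/
theorem hPi_Zt (s : Finset ι) (a : ι → En (k + 1)) (w : En (k + 1)) :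
    hPi (Zt s a) w = Q s a w := by
  induction hN : s.card using Nat.strong_induction_on generalizing s a with
  | _ N ih =>
  by_cases hk : s.card = k
  · let e : Fin k → ι := fun p => ((s.equivFinOfCardEq hk).symm p : ι)
    have he : Function.Injective e := by
      intro p q hpq
      exact (s.equivFinOfCardEq hk).symm.injective (Subtype.ext hpq)
    have hs : s = Finset.univ.map ⟨e, he⟩ := by
      ext i
      simp only [Finset.mem_map, Finset.mem_univ, true_and, Function.Embedding.coeFn_mk]
      constructor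
      · intro hi
        exact ⟨s.equivFinOfCardEq hk ⟨i, hi⟩, by simp [e]⟩
      · rintro ⟨p, rfl⟩
        exact Subtype.property _
    rw [hs]
    exact base e he a w
  · -- scaling
    have h2 : ∀ i ∈ s, ∀ a : ι → En (k + 1),
        hPi (Zt s (Function.update a i ((2 : ℝ) • a i))) w -
          Q s (Function.update a i ((2 : ℝ) • a i)) w = 2 * (hPi (Zt s a) w - Q s a w) := by
      intro i hi a
      have h3 := ih (s.erase i).card (by rw [← hN]; exact Finset.card_erase_lt_of_mem hi)
        (s.erase i) a rfl
      rw [P_two hi, Q_two hi, h3]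
      ring
    have h4 : ∀ r ⊆ s, hPi (Zt s (fun i => if i ∈ r then (2 : ℝ) • a i else a i)) w -
        Q s (fun i => if i ∈ r then (2 : ℝ) • a i else a i) w =
        2 ^ r.card * (hPi (Zt s a) w - Q s a w) := by
      intro r
      induction r using Finset.induction_on with
      | empty => intro _; simp
      | insert i r hi ihr =>
        intro hr
        have h5 := ihr ((Finset.subset_insert i r).trans hr)
        have h6 := h2 i (hr (Finset.mem_insert_self i r))
          (fun j => if j ∈ r then (2 : ℝ) • a j else a j)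
        have h7 : Function.update (fun j => if j ∈ r then (2 : ℝ) • a j else a j) i
            ((2 : ℝ) • (fun j => if j ∈ r then (2 : ℝ) • a j else a j) i) =
            fun j => if j ∈ insert i r then (2 : ℝ) • a j else a j := by
          ext j : 1
          by_cases hj : j = i
          · subst hj; simp [hi]
          · simp [Function.update_of_ne hj, hj]
        rw [h7, h5] at h6
        rw [h6, Finset.card_insert_of_notMem hi, pow_succ]
        ring
    have h8 := h4 s Finset.Subset.rfl
    have h9 : Zt s (fun i => if i ∈ s then (2 : ℝ) • a i else a i) = (2 : ℝ) • Zt s a := by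
      rw [← Zt_smul]
      exact Zt_congr fun i hi => by simp [hi]
    have h10 : Q s (fun i => if i ∈ s then (2 : ℝ) • a i else a i) w =
        Q s (fun i => (2 : ℝ) • a i) w := by
      unfold Q
      congr 1
      refine Finset.sum_congr rfl fun g hg => ?_
      rw [Fintype.mem_piFinset] at hg
      congr 2
      ext p : 1
      simp [hg p]
    rw [h9, h10, hPi_set_smul (Zt_convex s a) (Zt_compact s a) two_pos, Q_smul, abs_two,
      ← mul_sub] at h8
    have h11 : ((2 : ℝ) ^ k - 2 ^ s.card) * (hPi (Zt s a) w - Q s a w) = 0 := by linarith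
    rcases mul_eq_zero.1 h11 with h12 | h12
    · exfalso
      apply hk
      have h13 : (2 : ℝ) ^ s.card = 2 ^ k := by linarith
      exact (pow_right_injective₀ (by norm_num) (by norm_num)) h13
    · linarith

end Pool.Agent.H769.Zono
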