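import Mathlib
import Pool.Agent.H769.Zono

/-! Support functions. -/

set_option autoImplicit false
set_option linter.unusedSimpArgs false
set_option linter.unusedSectionVars false
open MeasureTheory Set Filter Topology Module
open scoped ENNReal RealInnerProductSpace Pointwise

namespace Pool.Agent.H769.Zono

open Pool.Agent.H229R2.PB3 (hPi)
open Pool.Agent.H860R2.PP (V)

variable {n k : ℕ}

/-- support function -/
noncomputable def supp (K : Set (En n)) (u : En n) : ℝ := sSup ((fun x => ⟪u, x⟫) '' K)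

theorem bdd {K : Set (En n)} (hK : IsCompact K) (u : En n) :
    BddAbove ((fun x => ⟪u, x⟫) '' K) := (hK.image (by fun_prop)).bddAbove

theorem le_supp {K : Set (En n)} (hK : IsCompact K) (u : En n) {x : En n} (hx : x ∈ K) :
    ⟪u, x⟫ ≤ supp K u := le_csSup (bdd hK u) ⟨x, hx, rfl⟩

theorem exists_supp {K : Set (En n)} (hK : IsCompact K) (hne : K.Nonempty) (u : En n) :
    ∃ x ∈ K, ⟪u, x⟫ = supp K u := by
  obtain ⟨x, hx, h⟩ := (hK.image (by fun_prop : Continuous fun x : En n => ⟪u, x⟫)).sSup_mem
    (hne.image _)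
  exact ⟨x, hx, h⟩

theorem supp_le {K : Set (En n)} (hne : K.Nonempty) {u : En n} {c : ℝ}
    (h : ∀ x ∈ K, ⟪u, x⟫ ≤ c) : supp K u ≤ c := by
  apply csSup_le (hne.image _)
  rintro _ ⟨x, hx, rfl⟩
  exact h x hx

theorem supp_add {K L : Set (En n)} (hK : IsCompact K) (hL : IsCompact L) (hKn : K.Nonempty)
    (hLn : L.Nonempty) (u : En n) : supp (K + L) u = supp K u + supp L u := by
  apply le_antisymm
  · apply supp_le (hKn.add hLn)
    rintro _ ⟨x, hx, y, hy, rfl⟩
    change ⟪u, x + y⟫ ≤ _
    rw [inner_add_right]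
    exact add_le_add (le_supp hK u hx) (le_supp hL u hy)
  · obtain ⟨x, hx, h1⟩ := exists_supp hK hKn u
    obtain ⟨y, hy, h2⟩ := exists_supp hL hLn u
    rw [← h1, ← h2, ← inner_add_right]
    exact le_supp (hK.add hL) u (Set.add_mem_add hx hy)

theorem supp_smul {K : Set (En n)} (hK : IsCompact K) (hKn : K.Nonempty) {t : ℝ} (ht : 0 ≤ t)
    (u : En n) : supp (t • K) u = t * supp K u := by
  apply le_antisymm
  · apply supp_le hKn.smul_set
    rintro _ ⟨x, hx, rfl⟩
    change ⟪u, t • x⟫ ≤ _
    rw [inner_smul_right]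
    exact mul_le_mul_of_nonneg_left (le_supp hK u hx) ht
  · obtain ⟨x, hx, h1⟩ := exists_supp hK hKn u
    rw [← h1, ← inner_smul_right]
    exact le_supp (hK.smul t) u (Set.smul_mem_smul_set hx)

theorem supp_singleton (x u : En n) : supp {x} u = ⟪u, x⟫ := by
  unfold supp; simp

theorem supp_seg (a u : En n) : supp (segment ℝ 0 a) u = max 0 ⟪u, a⟫ := by
  have hne : (segment ℝ (0 : En n) a).Nonempty := ⟨0, left_mem_segment ℝ 0 a⟩
  apply le_antisymm
  · apply supp_le hne
    intro x hx
    rw [segment_eq_image] at hx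
    obtain ⟨θ, hθ, rfl⟩ := hx
    simp only [smul_zero, zero_add, inner_smul_right]
    rcases le_total 0 ⟪u, a⟫ with h | h
    · exact le_max_of_le_right (mul_le_of_le_one_left h hθ.2)
    · exact le_max_of_le_left (mul_nonpos_of_nonneg_of_nonpos hθ.1 h)
  · apply max_le
    · have := le_supp (seg_compact a) u (left_mem_segment ℝ 0 a)
      rwa [inner_zero_right] at this
    · exact le_supp (seg_compact a) u (right_mem_segment ℝ 0 a)

variable {ι : Type} [DecidableEq ι]

theorem Zt_nonempty (s : Finset ι) (a : ι → En n) : (Zt s a).Nonempty := by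
  refine ⟨0, ?_⟩
  induction s using Finset.induction_on with
  | empty => simp [Zt]
  | insert i s hi ih =>
    rw [Zt_insert hi]
    exact ⟨0, ih, 0, left_mem_segment ℝ 0 _, by simp⟩

theorem supp_Zt (s : Finset ι) (a : ι → En n) (u : En n) :
    supp (Zt s a) u = ∑ i ∈ s, max 0 ⟪u, a i⟫ := by
  induction s using Finset.induction_on with
  | empty => simp [Zt, ← Set.singleton_zero, supp_singleton]
  | insert i s hi ih =>
    rw [Zt_insert hi, supp_add (Zt_compact _ _) (seg_compact _) (Zt_nonempty _ _)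
      ⟨0, left_mem_segment ℝ 0 _⟩, ih, supp_seg, Finset.sum_insert hi, add_comm]

/-- a closed convex set is determined by its support function -/
theorem mem_of_supp {L : Set (En n)} (hLc : Convex ℝ L) (hL : IsCompact L) {x : En n}
    (h : ∀ u, ⟪u, x⟫ ≤ supp L u) (hne : L.Nonempty) : x ∈ L := by
  by_contra hx
  obtain ⟨f, c, h1, h2⟩ := geometric_hahn_banach_closed_point hLc hL.isClosed hx
  have h3 : ∀ y, f y = ⟪(InnerProductSpace.toDual ℝ (En n)).symm f, y⟫ := fun y => by
    rw [InnerProductSpace.toDual_symm_apply]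
  obtain ⟨y, hy, h4⟩ := exists_supp hL hne ((InnerProductSpace.toDual ℝ (En n)).symm f)
  have h5 := h ((InnerProductSpace.toDual ℝ (En n)).symm f)
  rw [← h4, ← h3, ← h3] at h5
  linarith [h1 y hy]

theorem subset_of_supp {K L : Set (En n)} (hK : IsCompact K) (hLc : Convex ℝ L)
    (hL : IsCompact L) (hne : L.Nonempty) (h : ∀ u, supp K u ≤ supp L u) : K ⊆ L :=
  fun _ hx => mem_of_supp hLc hL (fun u => (le_supp hK u hx).trans (h u)) hne

theorem eq_of_supp {K L : Set (En n)} (hKc : Convex ℝ K) (hK : IsCompact K) (hKn : K.Nonempty)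
    (hLc : Convex ℝ L) (hL : IsCompact L) (hne : L.Nonempty) (h : ∀ u, supp K u = supp L u) :
    K = L :=
  Subset.antisymm (subset_of_supp hK hLc hL hne fun u => (h u).le)
    (subset_of_supp hL hKc hK hKn fun u => (h u).ge)

/-- translations -/
theorem V_translate (K : Set (En n)) (x : En n) : V ({x} + K) = V K := by
  unfold V
  rw [Set.singleton_add, Set.image_add_left, measure_preimage_add]

theorem hPi_translate {K : Set (En (k + 1))} (hc : Convex ℝ K) (hK : IsCompact K)
    (x w : En (k + 1)) : hPi ({x} + K) w = hPi K w := by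
  have h1 := str ({x} + K) ((convex_singleton x).add hc) (isCompact_singleton.add hK) w
  rw [add_assoc, V_translate, V_translate, str K hc hK] at h1
  linarith

end Pool.Agent.H769.Zono
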