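import Mathlib
import Pool.Agent.H769.SuppFn

/-! The projection body of a zonoid. -/

set_option autoImplicit false
set_option linter.unusedSimpArgs false
set_option linter.unusedSectionVars false
open MeasureTheory Set Filter Topology Module
open scoped ENNReal RealInnerProductSpace Pointwise

namespace Pool.Agent.H769.Zono

open Pool.Agent.H229R2.PB3 (hPi)
open Pool.Agent.H860R2.PP (V)

variable {n k : ℕ}

theorem Dk_eq_det (w : En (k + 1)) (v : Fin k → En (k + 1)) :
    Dk w v = Matrix.det (Matrix.of fun i j => (Matrix.vecCons w v : Fin (k + 1) → En (k + 1)) j i) := by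
  rw [Dk_apply, Basis.det_apply]
  congr 1

theorem Dk_cont : Continuous fun p : En (k + 1) × (Fin k → En (k + 1)) => Dk p.1 p.2 := by
  simp_rw [Dk_eq_det]
  apply Continuous.matrix_det
  apply continuous_matrix
  intro i j
  refine Fin.cases ?_ (fun j => ?_) j
  · simp only [Matrix.of_apply, Matrix.cons_val_zero]
    fun_prop
  · simp only [Matrix.of_apply, Matrix.cons_val_succ]
    fun_prop

theorem Dk_cont' (w : En (k + 1)) : Continuous fun v : Fin k → En (k + 1) => Dk w v := by
  have h : Continuous fun v : Fin k → En (k + 1) => (w, v) := by fun_prop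
  have h2 := Dk_cont.comp h
  exact h2

/-- `m` generates `Z` -/
def HasGen (m : Measure (En n)) (Z : Set (En n)) : Prop := ∀ u, supp Z u = ∫ v, |⟪u, v⟫| ∂m

/-- integral of a function of a simple map over the product measure -/
theorem integral_simple (m : Measure (En n)) [IsFiniteMeasure m] (T : SimpleFunc (En n) (En n))
    (Φ : (Fin k → En n) → ℝ) :
    ∫ v, Φ (fun p => T (v p)) ∂(Measure.pi fun _ : Fin k => m) =
      ∑ g ∈ Fintype.piFinset (fun _ : Fin k => T.range),
        (∏ p, m.real (T ⁻¹' {g p})) * Φ g := by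
  classical
  have h1 : ∀ v : Fin k → En n, Φ (fun p => T (v p)) =
      ∑ g ∈ Fintype.piFinset (fun _ : Fin k => T.range),
        (∏ p, (T ⁻¹' {g p}).indicator (fun _ => (1 : ℝ)) (v p)) * Φ g := by
    intro v
    rw [Finset.sum_eq_single (fun p => T (v p))]
    · rw [Finset.prod_eq_one, one_mul]
      intro p _
      rw [Set.indicator_of_mem]
      simp
    · intro g _ hg
      have : ∃ p, g p ≠ T (v p) := by
        by_contra hcon
        push Not at hcon
        exact hg (funext hcon)
      obtain ⟨p, hp⟩ := this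
      rw [Finset.prod_eq_zero (Finset.mem_univ p), zero_mul]
      rw [Set.indicator_of_notMem]
      simpa using hp.symm
    · intro hcon
      exfalso
      apply hcon
      rw [Fintype.mem_piFinset]
      intro p
      exact SimpleFunc.mem_range_self T (v p)
  have hm : ∀ x : En n, MeasurableSet (T ⁻¹' {x}) := fun x => T.measurableSet_fiber x
  have hint1 : ∀ x : En n, Integrable ((T ⁻¹' {x}).indicator (fun _ => (1 : ℝ))) m := fun x =>
    (integrable_const 1).indicator (hm x)
  simp_rw [h1]
  rw [integral_finsetSum]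
  · refine Finset.sum_congr rfl fun g _ => ?_
    rw [integral_mul_const, integral_fintype_prod_eq_prod
      (f := fun p x => (T ⁻¹' {g p}).indicator (fun _ => (1 : ℝ)) x)]
    congr 1
    refine Finset.prod_congr rfl fun p _ => ?_
    rw [integral_indicator_const _ (hm _), smul_eq_mul, mul_one]
  · intro g _
    exact (Integrable.fintype_prod (f := fun p x =>
      (T ⁻¹' {g p}).indicator (fun _ => (1 : ℝ)) x) fun p => hint1 (g p)).mul_const _

/-- comparison of projection functions by support functions -/
theorem hPi_le_of_supp {L K : Set (En (k + 1))} (hLc : Convex ℝ L) (hL : IsCompact L)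
    (hKc : Convex ℝ K) (hK : IsCompact K) (hne : K.Nonempty)
    {c : ℝ} (hc : 0 < c) (h : ∀ u, supp L u ≤ c * supp K u) (w : En (k + 1)) :
    hPi L w ≤ c ^ k * hPi K w := by
  rw [← hPi_set_smul hKc hK hc]
  refine hPi_mono hLc hL (hKc.smul c) (hK.smul c) ?_ w
  refine subset_of_supp hL (hKc.smul c) (hK.smul c) hne.smul_set fun u => ?_
  rw [supp_smul hK hne hc.le]
  exact h u

theorem HasGen.symm {m : Measure (En n)} {Z : Set (En n)} (h : HasGen m Z) (u : En n) :
    supp Z (-u) = supp Z u := by
  rw [h, h]
  simp [inner_neg_left]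

/-- a zonoid with interior points has a positive support function -/
theorem HasGen.lower {m : Measure (En n)} {Z : Set (En n)} (h : HasGen m Z) (hZ : IsCompact Z)
    (hint : (interior Z).Nonempty) : ∃ ρ : ℝ, 0 < ρ ∧ ∀ u, ρ * ‖u‖ ≤ supp Z u := by
  obtain ⟨x, hx⟩ := hint
  obtain ⟨r, hr, hb⟩ := Metric.isOpen_iff.1 isOpen_interior x hx
  have hb' : Metric.ball x r ⊆ Z := hb.trans interior_subset
  refine ⟨r / 2, by positivity, fun u => ?_⟩
  by_cases hu : u = 0
  · subst hu
    have := le_supp hZ (0 : En n) (interior_subset hx)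
    simpa using this
  have hu' : 0 < ‖u‖ := norm_pos_iff.2 hu
  have key : ∀ σ : ℝ, |σ| = 1 → ⟪σ • u, x⟫ + r / 2 * ‖u‖ ≤ supp Z (σ • u) := by
    intro σ hσ
    have h1 : x + (r / 2 * ‖u‖⁻¹) • (σ • u) ∈ Z := by
      apply hb'
      rw [Metric.mem_ball, dist_eq_norm, add_sub_cancel_left, norm_smul, norm_smul,
        Real.norm_eq_abs σ, hσ, one_mul, norm_mul, norm_inv, norm_norm, mul_assoc,
        inv_mul_cancel₀ hu'.ne', mul_one, Real.norm_of_nonneg (by positivity)]
      linarith
    have h2 := le_supp hZ (σ • u) h1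
    rw [inner_add_right, inner_smul_right, real_inner_self_eq_norm_sq, norm_smul,
      Real.norm_eq_abs σ, hσ, one_mul] at h2
    have h3 : r / 2 * ‖u‖⁻¹ * ‖u‖ ^ 2 = r / 2 * ‖u‖ := by field_simp
    linarith
  have k1 := key 1 (by norm_num)
  have k2 := key (-1) (by norm_num)
  simp only [one_smul, neg_smul, inner_neg_left] at k1 k2
  rw [h.symm] at k2
  linarith

/-- the zonotope attached to a simple map -/
theorem simple_zonotope (m : Measure (En (k + 1))) [IsFiniteMeasure m]
    (T : SimpleFunc (En (k + 1)) (En (k + 1))) :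
    ∃ Z : Set (En (k + 1)), Convex ℝ Z ∧ IsCompact Z ∧ Z.Nonempty ∧
      (∀ u, supp Z u = ∫ v, |⟪u, T v⟫| ∂m) ∧
      ∀ w, hPi Z w = 2 ^ k / k.factorial *
        ∫ v, |Dk w (fun p => T (v p))| ∂(Measure.pi fun _ : Fin k => m) := by
  classical
  set a : En (k + 1) → En (k + 1) := fun x => (2 * m.real (T ⁻¹' {x})) • x with ha
  set c : En (k + 1) := -((2 : ℝ)⁻¹ • ∑ x ∈ T.range, a x) with hc
  have hcv := Zt_convex T.range a
  have hcm := Zt_compact T.range a
  have hne := Zt_nonempty T.range a
  refine ⟨{c} + Zt T.range a, (convex_singleton c).add hcv, isCompact_singleton.add hcm,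
    (singleton_nonempty c).add hne, ?_, ?_⟩
  · intro u
    rw [supp_add isCompact_singleton hcm (singleton_nonempty c) hne, supp_singleton, supp_Zt]
    have h1 : ∫ v, |⟪u, T v⟫| ∂m = ∑ x ∈ T.range, m.real (T ⁻¹' {x}) * |⟪u, x⟫| := by
      have h2 := SimpleFunc.map_integral T (fun x => |⟪u, x⟫|)
        (μ := m) (SimpleFunc.integrable_of_isFiniteMeasure T) (by simp)
      rw [SimpleFunc.integral_eq_integral _ (SimpleFunc.integrable_of_isFiniteMeasure _)] at h2
      simpa using h2
    rw [h1, hc, inner_neg_right, inner_smul_right, inner_sum, Finset.mul_sum, ← Finset.sum_neg_distrib,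
      ← Finset.sum_add_distrib]
    refine Finset.sum_congr rfl fun x _ => ?_
    rw [ha]
    simp only [inner_smul_right]
    have hm0 : 0 ≤ m.real (T ⁻¹' {x}) := measureReal_nonneg
    rcases le_total 0 ⟪u, x⟫ with h | h
    · rw [abs_of_nonneg h, max_eq_right (by positivity)]
      ring
    · rw [abs_of_nonpos h, max_eq_left (mul_nonpos_of_nonneg_of_nonpos (by positivity) h)]
      ring
  · intro w
    rw [hPi_translate hcv hcm, hPi_Zt, integral_simple m T (fun v => |Dk w v|)]
    unfold Q
    have h3 : ∑ g ∈ Fintype.piFinset (fun _ : Fin k => T.range), |Dk w (a ∘ g)| =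
        2 ^ k * ∑ g ∈ Fintype.piFinset (fun _ : Fin k => T.range),
          (∏ p, m.real (T ⁻¹' {g p})) * |Dk w g| := by
      rw [Finset.mul_sum]
      refine Finset.sum_congr rfl fun g _ => ?_
      have h2 : Dk w (a ∘ g) = (∏ p, (2 * m.real (T ⁻¹' {g p}))) • Dk w g :=
        (Dk w).toMultilinearMap.map_smul_univ (fun p => 2 * m.real (T ⁻¹' {g p})) g
      rw [h2, smul_eq_mul, abs_mul, Finset.prod_mul_distrib, Finset.prod_const, Finset.card_univ,
        Fintype.card_fin, abs_of_nonneg (mul_nonneg (by positivity)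
          (Finset.prod_nonneg fun p _ => measureReal_nonneg))]
      ring
    rw [h3]
    ring

/-- bounded approximation of the identity by simple maps -/
theorem exists_approx (R : ℝ) (hR : 0 ≤ R) : ∃ T : ℕ → SimpleFunc (En n) (En n),
    (∀ j v, ‖T j v‖ ≤ R) ∧ ∀ v, ‖v‖ ≤ R → Tendsto (fun j => T j v) atTop (𝓝 v) := by
  have h0 : (0 : En n) ∈ Metric.closedBall (0 : En n) R := by simp [hR]
  refine ⟨fun j => SimpleFunc.approxOn id measurable_id (Metric.closedBall 0 R) 0 h0 j, ?_, ?_⟩
  · intro j v
    have := SimpleFunc.approxOn_mem measurable_id h0 j v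
    simpa using this
  · intro v hv
    have h1 : id v ∈ closure (Metric.closedBall (0 : En n) R) := by
      apply subset_closure
      simpa using hv
    exact SimpleFunc.tendsto_approxOn measurable_id h0 h1

theorem ae_pi (m : Measure (En n)) [IsFiniteMeasure m] {P : En n → Prop} (h : ∀ᵐ v ∂m, P v) :
    ∀ᵐ v ∂(Measure.pi fun _ : Fin k => m), ∀ p, P (v p) := by
  rw [ae_all_iff]
  intro p
  exact (Measure.tendsto_eval_ae_ae (μ := fun _ : Fin k => m) (i := p)).eventually h

/-- **The projection function of a zonoid.** -/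
theorem hPi_gen (m : Measure (En (k + 1))) [IsFiniteMeasure m] {R : ℝ}
    (hR : ∀ᵐ v ∂m, ‖v‖ ≤ R) {Z : Set (En (k + 1))} (hZc : Convex ℝ Z) (hZ : IsCompact Z)
    (hint : (interior Z).Nonempty) (h : HasGen m Z) (w : En (k + 1)) :
    hPi Z w = 2 ^ k / k.factorial *
        ∫ v, |Dk w v| ∂(Measure.pi fun _ : Fin k => m) := by
  wlog hR0 : 0 ≤ R generalizing R
  · exact this (R := max R 0) (hR.mono fun v hv => hv.trans (le_max_left _ _)) (le_max_right _ _)
  obtain ⟨ρ, hρ, hlow⟩ := h.lower hZ hint
  have hZn : Z.Nonempty := hint.mono interior_subset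
  obtain ⟨T, hT1, hT2⟩ := exists_approx (n := k + 1) R hR0
  choose Zj hZjc hZj hZjn hZjs hZjp using fun j => simple_zonotope m (T j)
  set e : ℕ → ℝ := fun j => ∫ v, ‖T j v - v‖ ∂m with he
  have he0 : Tendsto e atTop (𝓝 0) := by
    have h1 : Tendsto e atTop (𝓝 (∫ v : En (k + 1), (0 : ℝ) ∂m)) := by
      refine tendsto_integral_of_dominated_convergence (fun _ => 2 * R) ?_ (integrable_const _) ?_ ?_
      · intro j
        exact (((T j).measurable.sub measurable_id).norm).aestronglyMeasurable
      · intro j
        filter_upwards [hR] with v hv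
        rw [norm_norm]
        calc ‖T j v - v‖ ≤ ‖T j v‖ + ‖v‖ := norm_sub_le _ _
          _ ≤ 2 * R := by linarith [hT1 j v]
      · filter_upwards [hR] with v hv
        have := (hT2 v hv).sub_const v
        rw [sub_self] at this
        simpa using this.norm
    simpa using h1
  have hnint : Integrable (fun v : En (k + 1) => ‖v‖) m := by
    refine Integrable.mono' (integrable_const R) (by fun_prop) ?_
    filter_upwards [hR] with v hv
    rwa [norm_norm]
  have hTint : ∀ j, Integrable (fun v => ‖T j v - v‖) m := by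
    intro j
    refine Integrable.mono' (integrable_const (2 * R))
      (((T j).measurable.sub measurable_id).norm).aestronglyMeasurable ?_
    filter_upwards [hR] with v hv
    rw [norm_norm]
    calc ‖T j v - v‖ ≤ ‖T j v‖ + ‖v‖ := norm_sub_le _ _
      _ ≤ 2 * R := by linarith [hT1 j v]
  have hdiff : ∀ j u, |supp (Zj j) u - supp Z u| ≤ e j * ‖u‖ := by
    intro j u
    have i1 : Integrable (fun v => |⟪u, T j v⟫|) m := by
      refine Integrable.mono' (integrable_const (‖u‖ * R)) ?_ ?_
      · refine Measurable.aestronglyMeasurable ?_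
        have := (T j).measurable
        fun_prop
      · filter_upwards with v
        rw [Real.norm_eq_abs, abs_abs]
        exact (abs_real_inner_le_norm u _).trans
          (mul_le_mul_of_nonneg_left (hT1 j v) (norm_nonneg u))
    have i2 : Integrable (fun v => |⟪u, v⟫|) m := by
      refine Integrable.mono' (hnint.const_mul ‖u‖) (by fun_prop) ?_
      filter_upwards with v
      rw [Real.norm_eq_abs, abs_abs]
      exact abs_real_inner_le_norm u v
    rw [hZjs, h u, ← integral_sub i1 i2]
    refine (abs_integral_le_integral_abs).trans ?_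
    rw [he, mul_comm, ← integral_const_mul]
    refine integral_mono_of_nonneg (Eventually.of_forall fun v => abs_nonneg _)
      ((hTint j).const_mul _) (Eventually.of_forall fun v => ?_)
    refine (abs_abs_sub_abs_le_abs_sub _ _).trans ?_
    rw [← inner_sub_right]
    exact abs_real_inner_le_norm _ _
  have he_nn : ∀ j, 0 ≤ e j := fun j => integral_nonneg fun v => norm_nonneg _
  have hup : ∀ j u, supp (Zj j) u ≤ (1 + e j / ρ) * supp Z u := by
    intro j u
    have h1 := (abs_le.1 (hdiff j u)).2
    have h2 : e j * ‖u‖ ≤ e j / ρ * supp Z u := by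
      rw [div_mul_eq_mul_div, le_div_iff₀ hρ]
      nlinarith [mul_le_mul_of_nonneg_left (hlow u) (he_nn j)]
    linarith
  have hdown : ∀ j, e j / ρ < 1 → ∀ u, supp Z u ≤ (1 - e j / ρ)⁻¹ * supp (Zj j) u := by
    intro j hj u
    have h1 := (abs_le.1 (hdiff j u)).1
    have h2 : e j * ‖u‖ ≤ e j / ρ * supp Z u := by
      rw [div_mul_eq_mul_div, le_div_iff₀ hρ]
      nlinarith [mul_le_mul_of_nonneg_left (hlow u) (he_nn j)]
    rw [← div_eq_inv_mul, le_div_iff₀ (by linarith)]
    linarith
  have hlim1 : Tendsto (fun j => hPi (Zj j) w) atTop (𝓝 (hPi Z w)) := by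
    have hd : Tendsto (fun j => e j / ρ) atTop (𝓝 0) := by
      simpa using he0.div_const ρ
    have t1 : Tendsto (fun j => (1 + e j / ρ) ^ k * hPi Z w) atTop (𝓝 (hPi Z w)) := by
      have := ((hd.const_add 1).pow k).mul_const (hPi Z w)
      simpa using this
    have t2 : Tendsto (fun j => (1 - e j / ρ) ^ k * hPi Z w) atTop (𝓝 (hPi Z w)) := by
      have := ((hd.const_sub 1).pow k).mul_const (hPi Z w)
      simpa using this
    refine tendsto_of_tendsto_of_tendsto_of_le_of_le' t2 t1 ?_ ?_
    · have hev : ∀ᶠ j in atTop, e j / ρ < 1 := hd.eventually_lt_const zero_lt_one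
      filter_upwards [hev] with j hj
      have h1 : 0 < 1 - e j / ρ := by linarith
      have h2 := hPi_le_of_supp hZc hZ (hZjc j) (hZj j) (hZjn j) (inv_pos.2 h1) (hdown j hj) w
      rw [inv_pow, ← div_eq_inv_mul, le_div_iff₀ (pow_pos h1 k)] at h2
      linarith
    · refine Eventually.of_forall fun j => ?_
      have h1 : 0 < 1 + e j / ρ := by
        have := div_nonneg (he_nn j) hρ.le
        linarith
      exact hPi_le_of_supp (hZjc j) (hZj j) hZc hZ hZn h1 (hup j) w
  have hlim2 : Tendsto (fun j => hPi (Zj j) w) atTop (𝓝 (2 ^ k / k.factorial *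
        ∫ v, |Dk w v| ∂(Measure.pi fun _ : Fin k => m))) := by
    simp_rw [fun j => hZjp j w]
    refine Tendsto.const_mul _ ?_
    have hcont := (Dk_cont' w).abs
    obtain ⟨C, hC⟩ : ∃ C, ∀ v : Fin k → En (k + 1), (∀ p, ‖v p‖ ≤ R) → |Dk w v| ≤ C := by
      have hcomp : IsCompact (Set.univ.pi fun _ : Fin k => Metric.closedBall (0 : En (k + 1)) R) :=
        isCompact_univ_pi fun _ => isCompact_closedBall _ _
      obtain ⟨C, hC⟩ := (hcomp.image hcont).bddAbove
      refine ⟨C, fun v hv => hC ⟨v, ?_, rfl⟩⟩
      intro p _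
      simpa using hv p
    refine tendsto_integral_of_dominated_convergence (fun _ => C) ?_ (integrable_const _) ?_ ?_
    · intro j
      refine Measurable.aestronglyMeasurable ?_
      have h1 : Measurable fun v : Fin k → En (k + 1) => fun p => T j (v p) := by
        have := (T j).measurable
        fun_prop
      exact hcont.measurable.comp h1
    · intro j
      refine Eventually.of_forall fun v => ?_
      rw [Real.norm_eq_abs, abs_abs]
      exact hC _ fun p => hT1 j _
    · filter_upwards [ae_pi (k := k) m hR] with v hv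
      refine (hcont.tendsto v).comp ?_
      rw [tendsto_pi_nhds]
      exact fun p => hT2 _ (hv p)
  exact tendsto_nhds_unique hlim1 hlim2

end Pool.Agent.H769.Zono
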