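import Mathlib
import Pool.Agent.H769.Meas

/-! Every projection body is a zonoid: existence of the generating measure. -/

set_option autoImplicit false
set_option linter.unusedSimpArgs false
set_option linter.unusedSectionVars false
open MeasureTheory Set Filter Topology Module
open scoped ENNReal RealInnerProductSpace Pointwise CompactlySupported

namespace Pool.Agent.H769.Zono

open Pool.Agent.H229R2.PB3 (hPi)
open Pool.Agent.H860R2.PP (V)

variable {n k : ℕ} {ι : Type} [DecidableEq ι]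

theorem V_mono {K L : Set (En n)} (hL : IsCompact L) (h : K ⊆ L) : V K ≤ V L :=
  ENNReal.toReal_mono hL.measure_lt_top.ne (measure_mono h)

theorem sum_lower {P : Set (En (k + 1))} (hc : Convex ℝ P) (hP : IsCompact P)
    (s : Finset ι) (a : ι → En (k + 1)) :
    V P + ∑ i ∈ s, hPi P (a i) ≤ V (P + Zt s a) := by
  induction s using Finset.induction_on with
  | empty => simp [Zt]
  | insert i s hi ih =>
    rw [Zt_insert hi, ← add_assoc, str _ (hc.add (Zt_convex s a)) (hP.add (Zt_compact s a)),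
      Finset.sum_insert hi]
    have h1 : hPi P (a i) ≤ hPi (P + Zt s a) (a i) := by
      refine hPi_mono hc hP (hc.add (Zt_convex s a)) (hP.add (Zt_compact s a)) ?_ _
      intro x hx
      have h0 : (0 : En (k + 1)) ∈ Zt s a := by
        clear ih hi hx
        induction s using Finset.induction_on with
        | empty => simp [Zt]
        | insert i s hi ih =>
          rw [Zt_insert hi]
          exact ⟨0, ih, 0, left_mem_segment ℝ 0 _, by simp⟩
      exact ⟨x, hx, 0, h0, by simp⟩
    linarith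

theorem zero_mem_Zt (s : Finset ι) (a : ι → En n) : (0 : En n) ∈ Zt s a := by
  induction s using Finset.induction_on with
  | empty => simp [Zt]
  | insert i s hi ih =>
    rw [Zt_insert hi]
    exact ⟨0, ih, 0, left_mem_segment ℝ 0 _, by simp⟩

theorem sum_upper {P P' : Set (En (k + 1))} (hc : Convex ℝ P) (hP : IsCompact P)
    (hc' : Convex ℝ P') (hP' : IsCompact P')
    (s : Finset ι) (a : ι → En (k + 1)) (h : P + Zt s a ⊆ P') :
    V (P + Zt s a) ≤ V P + ∑ i ∈ s, hPi P' (a i) := by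
  induction s using Finset.induction_on with
  | empty => simp [Zt]
  | insert i s hi ih =>
    have h2 : P + Zt s a ⊆ P + Zt (insert i s) a := by
      rw [Zt_insert hi, ← add_assoc]
      intro x hx
      exact ⟨x, hx, 0, left_mem_segment ℝ 0 _, by simp⟩
    have h3 := ih (h2.trans h)
    rw [Zt_insert hi, ← add_assoc, str _ (hc.add (Zt_convex s a)) (hP.add (Zt_compact s a)),
      Finset.sum_insert hi]
    have h1 := hPi_mono (hc.add (Zt_convex s a)) (hP.add (Zt_compact s a)) hc' hP' (h2.trans h)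
      (a i)
    linarith

theorem Zt_norm (s : Finset ι) (a : ι → En n) : ∀ x ∈ Zt s a, ‖x‖ ≤ ∑ i ∈ s, ‖a i‖ := by
  induction s using Finset.induction_on with
  | empty => intro x hx; simp [Zt] at hx; simp [hx]
  | insert i s hi ih =>
    rw [Zt_insert hi, Finset.sum_insert hi]
    rintro _ ⟨x, hx, y, hy, rfl⟩
    have h1 := ih x hx
    have h2 : ‖y‖ ≤ ‖a i‖ := by
      rw [segment_eq_image] at hy
      obtain ⟨θ, hθ, rfl⟩ := hy
      simp only [smul_zero, zero_add, norm_smul, Real.norm_eq_abs, abs_of_nonneg hθ.1]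
      exact mul_le_of_le_one_left (norm_nonneg _) hθ.2
    have h3 := norm_add_le x y
    change ‖x + y‖ ≤ _
    linarith

/-- the inclusion `P + Z ⊆ (1 + c) P` -/
theorem add_subset {P : Set (En (k + 1))} (hc : Convex ℝ P) {r : ℝ} (hr : 0 < r)
    (hb : Metric.closedBall (0 : En (k + 1)) r ⊆ P) (s : Finset ι) (a : ι → En (k + 1)) :
    P + Zt s a ⊆ (1 + (∑ i ∈ s, ‖a i‖) / r) • P := by
  have hM : 0 ≤ ∑ i ∈ s, ‖a i‖ := Finset.sum_nonneg fun i _ => norm_nonneg _
  rw [hc.add_smul zero_le_one (div_nonneg hM hr.le), one_smul]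
  refine Set.add_subset_add_left ?_
  intro x hx
  have h1 := Zt_norm s a x hx
  rcases hM.eq_or_lt with h | h
  · rw [← h] at h1
    have h2 : x = 0 := by simpa using h1
    rw [← h, zero_div, h2]
    have : (0 : En (k + 1)) ∈ P := hb (by simp [hr.le])
    exact ⟨0, this, by simp⟩
  · rw [Set.mem_smul_set_iff_inv_smul_mem₀ (by positivity)]
    apply hb
    rw [mem_closedBall_zero_iff, norm_smul, norm_inv, Real.norm_of_nonneg (by positivity), inv_div,
      div_mul_eq_mul_div, div_le_iff₀ h]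
    exact mul_le_mul_of_nonneg_left h1 hr.le

/-- support function inequality implies inequality of first variations -/
theorem first_var {P : Set (En (k + 1))} (hc : Convex ℝ P) (hP : IsCompact P) {r : ℝ} (hr : 0 < r)
    (hb : Metric.closedBall (0 : En (k + 1)) r ⊆ P) (s : Finset ι) (a b : ι → En (k + 1))
    (h : ∀ v, ∑ i ∈ s, |⟪a i, v⟫| ≤ ∑ i ∈ s, |⟪b i, v⟫|) :
    ∑ i ∈ s, hPi P (a i) ≤ ∑ i ∈ s, hPi P (b i) := by
  -- the inequality at scale ε
  have key : ∀ ε : ℝ, 0 < ε → ∑ i ∈ s, hPi P (a i) ≤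
      (1 + ε * (∑ i ∈ s, ‖b i‖) / r) ^ k * ∑ i ∈ s, hPi P (b i) := by
    intro ε hε
    set a' : ι → En (k + 1) := fun i => ε • a i
    set b' : ι → En (k + 1) := fun i => ε • b i
    set x : En (k + 1) := (2 : ℝ)⁻¹ • (∑ i ∈ s, b' i - ∑ i ∈ s, a' i) with hx
    have h1 : {x} + Zt s a' ⊆ Zt s b' := by
      refine subset_of_supp (isCompact_singleton.add (Zt_compact _ _)) (Zt_convex _ _)
        (Zt_compact _ _) (Zt_nonempty _ _) fun u => ?_
      rw [supp_add isCompact_singleton (Zt_compact _ _) (singleton_nonempty x) (Zt_nonempty _ _),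
        supp_singleton, supp_Zt, supp_Zt, hx, inner_smul_right, inner_sub_right, inner_sum,
        inner_sum]
      have h2 : ∀ c : ℝ, max 0 c = 2⁻¹ * (|c| + c) := by
        intro c
        rcases le_total 0 c with h | h
        · rw [max_eq_right h, abs_of_nonneg h]; ring
        · rw [max_eq_left h, abs_of_nonpos h]; ring
      simp_rw [h2]
      rw [← Finset.mul_sum, ← Finset.mul_sum, Finset.sum_add_distrib, Finset.sum_add_distrib]
      have h3 : ∑ i ∈ s, |⟪u, a' i⟫| ≤ ∑ i ∈ s, |⟪u, b' i⟫| := by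
        have h4 : ∀ c : ι → En (k + 1), ∑ i ∈ s, |⟪u, ε • c i⟫| = ε * ∑ i ∈ s, |⟪c i, u⟫| := by
          intro c
          rw [Finset.mul_sum]
          refine Finset.sum_congr rfl fun i _ => ?_
          rw [inner_smul_right, abs_mul, abs_of_pos hε, real_inner_comm]
        rw [h4, h4]
        exact mul_le_mul_of_nonneg_left (h u) hε.le
      linarith
    have h5 : V (P + Zt s a') ≤ V (P + Zt s b') := by
      rw [← V_translate (P + Zt s a') x, ← add_assoc, add_comm {x} P, add_assoc]
      exact V_mono (hP.add (Zt_compact _ _)) (Set.add_subset_add_left h1)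
    have hcoef : 0 < 1 + (∑ i ∈ s, ‖b' i‖) / r := by positivity
    have h6 := sum_lower hc hP s a'
    have h7 := sum_upper hc hP (hc.smul _) (hP.smul _) s b' (add_subset hc hr hb s b')
    have h8 : ∑ i ∈ s, hPi P (a' i) = ε * ∑ i ∈ s, hPi P (a i) := by
      rw [Finset.mul_sum]
      exact Finset.sum_congr rfl fun i _ => hPi_smul hc hP hε.le _
    have h9 : ∑ i ∈ s, hPi ((1 + (∑ i ∈ s, ‖b' i‖) / r) • P) (b' i) =
        ε * ((1 + (∑ i ∈ s, ‖b' i‖) / r) ^ k * ∑ i ∈ s, hPi P (b i)) := by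
      rw [Finset.mul_sum, Finset.mul_sum]
      refine Finset.sum_congr rfl fun i _ => ?_
      rw [hPi_set_smul hc hP hcoef, hPi_smul hc hP hε.le]
      ring
    have h10 : ∑ i ∈ s, ‖b' i‖ = ε * ∑ i ∈ s, ‖b i‖ := by
      rw [Finset.mul_sum]
      refine Finset.sum_congr rfl fun i _ => ?_
      change ‖ε • b i‖ = _
      rw [norm_smul, Real.norm_of_nonneg hε.le]
    rw [h8] at h6
    rw [h9, h10] at h7
    have h11 : ε * ∑ i ∈ s, hPi P (a i) ≤
        ε * ((1 + ε * (∑ i ∈ s, ‖b i‖) / r) ^ k * ∑ i ∈ s, hPi P (b i)) := by linarith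
    exact le_of_mul_le_mul_left h11 hε
  have hlim : Tendsto (fun ε : ℝ => (1 + ε * (∑ i ∈ s, ‖b i‖) / r) ^ k * ∑ i ∈ s, hPi P (b i))
      (𝓝[>] 0) (𝓝 (∑ i ∈ s, hPi P (b i))) := by
    have hcont : Continuous fun ε : ℝ =>
        (1 + ε * (∑ i ∈ s, ‖b i‖) / r) ^ k * ∑ i ∈ s, hPi P (b i) := by fun_prop
    have := (hcont.tendsto 0).mono_left (nhdsWithin_le_nhds (s := Ioi 0))
    simpa using this
  exact ge_of_tendsto hlim (by filter_upwards [self_mem_nhdsWithin] with ε hε using key ε hε)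

/-- positivity of the first variation functional -/
theorem pos_fun {P : Set (En (k + 1))} (hc : Convex ℝ P) (hP : IsCompact P) {r : ℝ} (hr : 0 < r)
    (hb : Metric.closedBall (0 : En (k + 1)) r ⊆ P) (c : En (k + 1) →₀ ℝ)
    (h : ∀ v, 0 ≤ c.sum fun u t => t * |⟪u, v⟫|) : 0 ≤ c.sum fun u t => t * hPi P u := by
  classical
  have hmax : ∀ t : ℝ, t = max t 0 - max (-t) 0 := by
    intro t
    rcases le_total 0 t with h | h
    · rw [max_eq_left h, max_eq_right (by linarith)]; ring
    · rw [max_eq_right h, max_eq_left (by linarith)]; ring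
  have h1 := first_var hc hP hr hb c.support (fun u => max (-c u) 0 • u)
    (fun u => max (c u) 0 • u) (by
      intro v
      have h2 := h v
      unfold Finsupp.sum at h2
      have h3 : ∑ u ∈ c.support, c u * |⟪u, v⟫| =
          ∑ u ∈ c.support, |⟪max (c u) 0 • u, v⟫| - ∑ u ∈ c.support, |⟪max (-c u) 0 • u, v⟫| := by
        rw [← Finset.sum_sub_distrib]
        refine Finset.sum_congr rfl fun u _ => ?_
        rw [real_inner_smul_left, real_inner_smul_left, abs_mul, abs_mul,
          abs_of_nonneg (le_max_right (c u) 0), abs_of_nonneg (le_max_right (-c u) 0), ← sub_mul,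
          ← hmax]
      linarith)
  have h4 : ∑ u ∈ c.support, c u * hPi P u =
      ∑ u ∈ c.support, hPi P (max (c u) 0 • u) - ∑ u ∈ c.support, hPi P (max (-c u) 0 • u) := by
    rw [← Finset.sum_sub_distrib]
    refine Finset.sum_congr rfl fun u _ => ?_
    rw [hPi_smul hc hP (le_max_right _ _), hPi_smul hc hP (le_max_right _ _), ← sub_mul, ← hmax]
  unfold Finsupp.sum
  rw [h4]
  linarith

/-- the unit sphere -/
abbrev Sp (n : ℕ) := Metric.sphere (0 : En n) 1

/-- `|⟪u, ·⟫|` on the sphere -/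
noncomputable def kap (u : En n) : C(Sp n, ℝ) := ⟨fun v => |⟪u, (v : En n)⟫|, by fun_prop⟩

theorem kap_apply (u : En n) (v : Sp n) : kap u v = |⟪u, (v : En n)⟫| := rfl

theorem exists_functional {P : Set (En (k + 1))} (hc : Convex ℝ P) (hP : IsCompact P) {r : ℝ}
    (hr : 0 < r) (hb : Metric.closedBall (0 : En (k + 1)) r ⊆ P) :
    ∃ g : C(Sp (k + 1), ℝ) →ₗ[ℝ] ℝ, (∀ u, g (kap u) = hPi P u) ∧ ∀ f, 0 ≤ f → 0 ≤ g f := by
  set A : (En (k + 1) →₀ ℝ) →ₗ[ℝ] C(Sp (k + 1), ℝ) := Finsupp.linearCombination ℝ kap with hA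
  set B : (En (k + 1) →₀ ℝ) →ₗ[ℝ] ℝ := Finsupp.linearCombination ℝ (hPi P) with hB
  have hAv : ∀ c v, A c v = c.sum fun u t => t * |⟪u, (v : En (k + 1))⟫| := by
    intro c v
    rw [hA, Finsupp.linearCombination_apply, Finsupp.sum, Finsupp.sum,
      ContinuousMap.coe_sum, Finset.sum_apply]
    rfl
  have hBv : ∀ c, B c = c.sum fun u t => t * hPi P u := by
    intro c
    rw [hB, Finsupp.linearCombination_apply]
    rfl
  have hpos : ∀ c, 0 ≤ A c → 0 ≤ B c := by
    intro c h
    rw [hBv]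
    refine pos_fun hc hP hr hb c fun v => ?_
    by_cases hv : v = 0
    · subst hv; simp
    · have hv' : 0 < ‖v‖ := norm_pos_iff.2 hv
      have h1 : 0 ≤ A c (⟨‖v‖⁻¹ • v, by
        rw [mem_sphere_zero_iff_norm, norm_smul, norm_inv, norm_norm, inv_mul_cancel₀ hv'.ne']⟩ :
          Sp (k + 1)) := h _
      rw [hAv] at h1
      change 0 ≤ c.sum fun u t => t * |⟪u, ‖v‖⁻¹ • v⟫| at h1
      have h2 : (c.sum fun u t => t * |⟪u, v⟫|) = ‖v‖ * c.sum fun u t => t * |⟪u, ‖v‖⁻¹ • v⟫| := by
        unfold Finsupp.sum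
        rw [Finset.mul_sum]
        refine Finset.sum_congr rfl fun u _ => ?_
        change c u * |⟪u, v⟫| = ‖v‖ * (c u * |⟪u, ‖v‖⁻¹ • v⟫|)
        rw [inner_smul_right, abs_mul, abs_inv, abs_norm]
        field_simp
      rw [h2]
      exact mul_nonneg hv'.le h1
  have hker : LinearMap.ker A ≤ LinearMap.ker B := by
    intro c hc'
    rw [LinearMap.mem_ker] at hc' ⊢
    apply le_antisymm
    · have := hpos (-c) (by rw [map_neg, hc', neg_zero])
      rw [map_neg] at this
      linarith
    · exact hpos c (by rw [hc'])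
  let f0 : LinearMap.range A →ₗ[ℝ] ℝ :=
    ((LinearMap.ker A).liftQ B hker) ∘ₗ (A.quotKerEquivRange.symm : LinearMap.range A →ₗ[ℝ] _)
  have hf0 : ∀ (c : En (k + 1) →₀ ℝ) (h : A c ∈ LinearMap.range A), f0 ⟨A c, h⟩ = B c := by
    intro c h
    change ((LinearMap.ker A).liftQ B hker) (A.quotKerEquivRange.symm ⟨A c, h⟩) = B c
    rw [LinearMap.quotKerEquivRange_symm_apply_image]
    rfl
  let f : C(Sp (k + 1), ℝ) →ₗ.[ℝ] ℝ := ⟨LinearMap.range A, f0⟩
  let S : PointedCone ℝ C(Sp (k + 1), ℝ) :=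
    { carrier := {f | ∀ v, 0 ≤ f v}
      add_mem' := fun {a b} ha hb v => add_nonneg (ha v) (hb v)
      zero_mem' := fun v => le_rfl
      smul_mem' := fun c a ha v => mul_nonneg c.2 (ha v) }
  obtain ⟨g, hg1, hg2⟩ := riesz_extension S f (by
      rintro ⟨x, c, rfl⟩ hx
      exact (hpos c hx).trans_eq (hf0 c (LinearMap.mem_range_self A c)).symm) (by
      intro y
      refine ⟨⟨A (‖y‖ • ∑ i, Finsupp.single (EuclideanSpace.single i (1 : ℝ)) (1 : ℝ)), _, rfl⟩, ?_⟩
      intro v
      change 0 ≤ (A (‖y‖ • ∑ i, Finsupp.single (EuclideanSpace.single i (1 : ℝ)) (1 : ℝ))) v + y v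
      have h1 : (A (‖y‖ • ∑ i, Finsupp.single (EuclideanSpace.single i (1 : ℝ)) (1 : ℝ))) v =
          ‖y‖ * ∑ i, |(v : En (k + 1)) i| := by
        rw [map_smul, map_sum, ContinuousMap.smul_apply, ContinuousMap.coe_sum, Finset.sum_apply,
          smul_eq_mul]
        congr 1
        refine Finset.sum_congr rfl fun i _ => ?_
        rw [hA, Finsupp.linearCombination_single, one_smul, kap_apply,
          EuclideanSpace.inner_single_left]
        simp
      rw [h1]
      have hv1 : ‖(v : En (k + 1))‖ = 1 := mem_sphere_zero_iff_norm.1 v.2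
      have h2 : 1 ≤ ∑ i, |(v : En (k + 1)) i| := by
        have h3 : ∑ i, (v : En (k + 1)) i ^ 2 = 1 := by
          have := EuclideanSpace.real_norm_sq_eq (v : En (k + 1))
          rw [hv1] at this
          linarith
        rw [← h3]
        refine Finset.sum_le_sum fun i _ => ?_
        have h4 : |(v : En (k + 1)) i| ≤ 1 := by
          rw [← hv1]; exact PiLp.norm_apply_le (v : En (k + 1)) i
        rw [← sq_abs, sq]
        exact mul_le_of_le_one_left (abs_nonneg _) h4
      have h5 : -‖y‖ ≤ y v := (abs_le.1 (y.norm_coe_le_norm v)).1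
      nlinarith [norm_nonneg y])
  refine ⟨g, ?_, fun f hf => hg2 f hf⟩
  intro u
  have h1 : A (Finsupp.single u 1) = kap u := by
    rw [hA, Finsupp.linearCombination_single, one_smul]
  have h2 : g (A (Finsupp.single u 1)) =
      f0 ⟨A (Finsupp.single u 1), LinearMap.mem_range_self A _⟩ :=
    hg1 ⟨A (Finsupp.single u 1), LinearMap.mem_range_self A _⟩
  rw [hf0, h1] at h2
  rw [h2, hB, Finsupp.linearCombination_single, one_smul]

/-- **Projection bodies are zonoids.** -/
theorem exists_gen {P : Set (En (k + 1))} (hc : Convex ℝ P) (hP : IsCompact P)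
    (hint : (interior P).Nonempty) : ∃ m : Measure (En (k + 1)), IsFiniteMeasure m ∧
      (∀ᵐ v ∂m, ‖v‖ ≤ 1) ∧ ∀ u, hPi P u = ∫ v, |⟪u, v⟫| ∂m := by
  obtain ⟨x, hx⟩ := hint
  obtain ⟨r, hr, hb⟩ := Metric.isOpen_iff.1 isOpen_interior x hx
  have hb' : Metric.closedBall (0 : En (k + 1)) (r / 2) ⊆ {-x} + P := by
    intro y hy
    refine ⟨-x, rfl, x + y, interior_subset (hb ?_), by simp⟩
    rw [Metric.mem_ball, dist_eq_norm, add_sub_cancel_left]
    rw [mem_closedBall_zero_iff] at hy
    linarith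
  obtain ⟨g, hg1, hg2⟩ := exists_functional ((convex_singleton (-x)).add hc)
    (isCompact_singleton.add hP) (half_pos hr) hb'
  let L : C_c(Sp (k + 1), ℝ) →ₚ[ℝ] ℝ := PositiveLinearMap.mk₀
    { toFun := fun f => g f.toContinuousMap
      map_add' := fun a b => by rw [← map_add]; rfl
      map_smul' := fun c a => by rw [RingHom.id_apply, ← map_smul]; rfl }
    (fun f hf => hg2 _ hf)
  have hL : ∀ u, hPi P u = ∫ v : Sp (k + 1), |⟪u, (v : En (k + 1))⟫| ∂(RealRMK.rieszMeasure L) := by
    intro u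
    have h1 := RealRMK.integral_rieszMeasure L
      (CompactlySupportedContinuousMap.continuousMapEquiv (kap u))
    have h2 : L (CompactlySupportedContinuousMap.continuousMapEquiv (kap u)) = g (kap u) := rfl
    rw [h2, hg1, hPi_translate hc hP] at h1
    rw [← h1]
    rfl
  refine ⟨(RealRMK.rieszMeasure L).map Subtype.val, inferInstance, ?_, ?_⟩
  · rw [ae_map_iff measurable_subtype_coe.aemeasurable (measurableSet_le (by fun_prop) (by fun_prop))]
    exact Eventually.of_forall fun v => (mem_sphere_zero_iff_norm.1 v.2).le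
  · intro u
    rw [integral_map measurable_subtype_coe.aemeasurable (by fun_prop)]
    exact hL u

end Pool.Agent.H769.Zono
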