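import Mathlib

/-! Projective closure: a spanning set of vectors closed under intersecting the hyperplanes it
spans is contained in the union of the summands of a direct sum, and is full in every summand of
dimension at least three. -/

set_option autoImplicit false
set_option linter.unusedSimpArgs false
set_option linter.unusedSectionVars false
open Set Module

namespace Pool.Agent.H769.ProjClosure

variable {V : Type*} [AddCommGroup V] [Module ℝ V] {k : ℕ}

/-- points of `Y` span hyperplanes whose normals lie in `X`, and conversely -/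
structure Cl (k : ℕ) (X : Set (Dual ℝ V)) (Y : Set V) : Prop where
  c1 : ∀ x : Fin k → Dual ℝ V, LinearIndependent ℝ x → (∀ i, x i ∈ X) →
    ∀ y : V, y ≠ 0 → (∀ i, x i y = 0) → y ∈ Y
  c2 : ∀ v : Fin k → V, LinearIndependent ℝ v → (∀ i, v i ∈ Y) →
    ∀ x : Dual ℝ V, x ≠ 0 → (∀ i, x (v i) = 0) → x ∈ X
  sc : ∀ y ∈ Y, ∀ t : ℝ, t ≠ 0 → t • y ∈ Y

variable {X : Set (Dual ℝ V)} {Y : Set V} (h : Cl k X Y) (b : Basis (Fin (k + 1)) ℝ V)
  (hb : ∀ i, b i ∈ Y)

include h hb

theorem coord_mem (a : Fin (k + 1)) : b.coord a ∈ X := by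
  refine h.c2 (fun i => b (a.succAbove i)) ?_ (fun i => hb _) _ ?_ ?_
  · exact b.linearIndependent.comp _ Fin.succAbove_right_injective
  · intro h0
    have := congrArg (fun f => f (b a)) h0
    simp at this
  · intro i
    simp [Basis.coord_apply, Finsupp.single_apply, Fin.succAbove_ne]

/-- family over the indices different from `a`, with the entry at `j` replaced -/
theorem c1' {a j : Fin (k + 1)} (haj : j ≠ a) {x : Dual ℝ V} (hx : x ∈ X) (hxj : x (b j) ≠ 0)
    {y : V} (hy0 : y ≠ 0) (hxy : x y = 0) (hy : ∀ l, l ≠ a → l ≠ j → b.coord l y = 0) : y ∈ Y := by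
  obtain ⟨i, rfl⟩ := Fin.exists_succAbove_eq haj
  refine h.c1 (Function.update (fun i' => b.coord (a.succAbove i')) i x) ?_ ?_ y hy0 ?_
  · rw [Fintype.linearIndependent_iff]
    intro g hg
    have key : ∀ v : V, ∑ i', g i' * (Function.update (fun i' => b.coord (a.succAbove i')) i x i') v = 0 := by
      intro v
      have := congrArg (fun f : Dual ℝ V => f v) hg
      simpa [LinearMap.sum_apply] using this
    have hgi : g i = 0 := by
      have h1 := key (b (a.succAbove i))
      rw [Finset.sum_eq_single i] at h1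
      · rw [Function.update_self] at h1
        exact (mul_eq_zero.1 h1).resolve_right hxj
      · intro i' _ hi'
        rw [Function.update_of_ne hi']
        have : a.succAbove i ≠ a.succAbove i' := fun h => hi' (Fin.succAbove_right_injective h).symm
        simp [Basis.coord_apply, Finsupp.single_apply, this]
      · simp
    intro i'
    by_cases hii : i' = i
    · rw [hii, hgi]
    · have h1 := key (b (a.succAbove i'))
      rw [Finset.sum_eq_single i'] at h1
      · rw [Function.update_of_ne hii] at h1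
        simpa [Basis.coord_apply] using h1
      · intro i'' _ hi''
        by_cases h2 : i'' = i
        · rw [h2, hgi, zero_mul]
        · rw [Function.update_of_ne h2]
          have : a.succAbove i' ≠ a.succAbove i'' := fun h =>
            hi'' (Fin.succAbove_right_injective h).symm
          simp [Basis.coord_apply, Finsupp.single_apply, this]
      · simp
  · intro i'
    by_cases hii : i' = i
    · rw [hii, Function.update_self]; exact hx
    · rw [Function.update_of_ne hii]; exact coord_mem h b hb _
  · intro i'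
    by_cases hii : i' = i
    · rw [hii, Function.update_self]; exact hxy
    · rw [Function.update_of_ne hii]
      exact hy _ (Fin.succAbove_ne _ _) (fun h => hii (Fin.succAbove_right_injective h))

/-- the normal of the hyperplane spanned by `p` and the basis vectors different from `a`, `j` -/
theorem c2_one {a j : Fin (k + 1)} (haj : j ≠ a) {p : V} (hp : p ∈ Y) (hpa : b.coord a p ≠ 0)
    {x : Dual ℝ V} (hx0 : x ≠ 0) (hxp : x p = 0) (hx : ∀ l, l ≠ a → l ≠ j → x (b l) = 0) :
    x ∈ X := by
  obtain ⟨i, rfl⟩ := Fin.exists_succAbove_eq haj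
  refine h.c2 (Function.update (fun i' => b (a.succAbove i')) i p) ?_ ?_ x hx0 ?_
  · rw [Fintype.linearIndependent_iff]
    intro g hg
    have key : ∀ l : Fin (k + 1),
        ∑ i', g i' * b.coord l (Function.update (fun i' => b (a.succAbove i')) i p i') = 0 := by
      intro l
      have := congrArg (fun f : V => b.coord l f) hg
      simpa [map_sum] using this
    have hgi : g i = 0 := by
      have h1 := key a
      rw [Finset.sum_eq_single i] at h1
      · rw [Function.update_self] at h1
        exact (mul_eq_zero.1 h1).resolve_right hpa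
      · intro i' _ hi'
        rw [Function.update_of_ne hi']
        simp [Basis.coord_apply, Finsupp.single_apply, Fin.succAbove_ne]
      · simp
    intro i'
    by_cases hii : i' = i
    · rw [hii, hgi]
    · have h1 := key (a.succAbove i')
      rw [Finset.sum_eq_single i'] at h1
      · rw [Function.update_of_ne hii] at h1
        simpa [Basis.coord_apply] using h1
      · intro i'' _ hi''
        by_cases h2 : i'' = i
        · rw [h2, hgi, zero_mul]
        · rw [Function.update_of_ne h2]
          have : a.succAbove i'' ≠ a.succAbove i' := fun h =>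
            hi'' (Fin.succAbove_right_injective h)
          simp [Basis.coord_apply, Finsupp.single_apply, this]
      · simp
  · intro i'
    by_cases hii : i' = i
    · rw [hii, Function.update_self]; exact hp
    · rw [Function.update_of_ne hii]; exact hb _
  · intro i'
    by_cases hii : i' = i
    · rw [hii, Function.update_self]; exact hxp
    · rw [Function.update_of_ne hii]
      exact hx _ (Fin.succAbove_ne _ _) (fun h => hii (Fin.succAbove_right_injective h))

/-- the normal of the hyperplane spanned by `p`, `q` and the basis vectors different from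
`j`, `a`, `c` -/
theorem c2_two {a j c : Fin (k + 1)} (haj : a ≠ j) (hcj : c ≠ j) (hac : a ≠ c) {p q : V}
    (hp : p ∈ Y) (hq : q ∈ Y)
    (hd : b.coord a p * b.coord c q - b.coord c p * b.coord a q ≠ 0)
    {x : Dual ℝ V} (hx0 : x ≠ 0) (hxp : x p = 0) (hxq : x q = 0)
    (hx : ∀ l, l ≠ a → l ≠ j → l ≠ c → x (b l) = 0) : x ∈ X := by
  obtain ⟨i, rfl⟩ := Fin.exists_succAbove_eq haj
  obtain ⟨m, rfl⟩ := Fin.exists_succAbove_eq hcj
  have him : i ≠ m := fun h => hac (by rw [h])
  set w : Fin k → V :=
    Function.update (Function.update (fun i' => b (j.succAbove i')) i p) m q with hw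
  have hwm : w m = q := by rw [hw, Function.update_self]
  have hwi : w i = p := by rw [hw, Function.update_of_ne him, Function.update_self]
  have hwo : ∀ l, l ≠ i → l ≠ m → w l = b (j.succAbove l) := by
    intro l h1 h2
    rw [hw, Function.update_of_ne h2, Function.update_of_ne h1]
  refine h.c2 w ?_ ?_ x hx0 ?_
  · rw [Fintype.linearIndependent_iff]
    intro g hg
    have key : ∀ l : Fin (k + 1), ∑ i', g i' * b.coord l (w i') = 0 := by
      intro l
      have := congrArg (fun f : V => b.coord l f) hg
      simpa [map_sum] using this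
    have two : ∀ l : Fin (k + 1), (∀ i', i' ≠ i → i' ≠ m → j.succAbove i' ≠ l) →
        g i * b.coord l p + g m * b.coord l q = 0 := by
      intro l hl
      have h1 := key l
      rw [← Finset.sum_subset (Finset.subset_univ {i, m}) ?_, Finset.sum_pair him, hwi, hwm] at h1
      · exact h1
      · intro i' _ hi'
        simp only [Finset.mem_insert, Finset.mem_singleton, not_or] at hi'
        rw [hwo i' hi'.1 hi'.2]
        simp [Basis.coord_apply, Finsupp.single_apply, hl i' hi'.1 hi'.2]
    have e1 := two (j.succAbove i) (fun i' h1 _ h3 => h1 (Fin.succAbove_right_injective h3))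
    have e2 := two (j.succAbove m) (fun i' _ h2 h3 => h2 (Fin.succAbove_right_injective h3))
    have hgi : g i = 0 := by
      have : g i * (b.coord (j.succAbove i) p * b.coord (j.succAbove m) q -
          b.coord (j.succAbove m) p * b.coord (j.succAbove i) q) = 0 := by
        linear_combination b.coord (j.succAbove m) q * e1 - b.coord (j.succAbove i) q * e2
      exact (mul_eq_zero.1 this).resolve_right hd
    have hgm : g m = 0 := by
      have : g m * (b.coord (j.succAbove i) p * b.coord (j.succAbove m) q -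
          b.coord (j.succAbove m) p * b.coord (j.succAbove i) q) = 0 := by
        linear_combination b.coord (j.succAbove i) p * e2 - b.coord (j.succAbove m) p * e1
      exact (mul_eq_zero.1 this).resolve_right hd
    intro i'
    by_cases hii : i' = i
    · rw [hii, hgi]
    by_cases him' : i' = m
    · rw [him', hgm]
    have h1 := key (j.succAbove i')
    rw [Finset.sum_eq_single i'] at h1
    · rw [hwo i' hii him'] at h1
      simpa [Basis.coord_apply] using h1
    · intro i'' _ hi''
      by_cases h2 : i'' = i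
      · rw [h2, hgi, zero_mul]
      by_cases h3 : i'' = m
      · rw [h3, hgm, zero_mul]
      rw [hwo i'' h2 h3]
      have : j.succAbove i'' ≠ j.succAbove i' := fun h =>
        hi'' (Fin.succAbove_right_injective h)
      simp [Basis.coord_apply, Finsupp.single_apply, this]
    · simp
  · intro i'
    by_cases hii : i' = i
    · rw [hii, hwi]; exact hp
    by_cases him' : i' = m
    · rw [him', hwm]; exact hq
    rw [hwo i' hii him']; exact hb _
  · intro i'
    by_cases hii : i' = i
    · rw [hii, hwi]; exact hxp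
    by_cases him' : i' = m
    · rw [him', hwm]; exact hxq
    rw [hwo i' hii him']
    exact hx _ (fun h => hii (Fin.succAbove_right_injective h)) (Fin.succAbove_ne _ _)
      (fun h => him' (Fin.succAbove_right_injective h))

/-- product rule -/
theorem prod_rule {a : Fin (k + 1)} {z : V} (hza : b.coord a z = 1) (y : Fin (k + 1) → V)
    (hy : ∀ j, j ≠ a → y j ∈ Y ∧ b.coord a (y j) = 1 ∧ b.coord j (y j) = b.coord j z) : z ∈ Y := by
  refine h.c1 (fun i => b.coord (a.succAbove i) z • b.coord a - b.coord (a.succAbove i)) ?_ ?_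
    z ?_ ?_
  · rw [Fintype.linearIndependent_iff]
    intro g hg i
    have := congrArg (fun f : Dual ℝ V => f (b (a.succAbove i))) hg
    simp only [LinearMap.sum_apply, LinearMap.smul_apply, LinearMap.sub_apply,
      LinearMap.zero_apply, smul_eq_mul] at this
    rw [Finset.sum_eq_single i] at this
    · simpa [Basis.coord_apply, Finsupp.single_apply, Fin.succAbove_ne] using this
    · intro i' _ hi'
      have h1 : a.succAbove i ≠ a.succAbove i' := fun h =>
        hi' (Fin.succAbove_right_injective h).symm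
      simp [Basis.coord_apply, Finsupp.single_apply, Fin.succAbove_ne, h1]
    · simp
  · intro i
    obtain ⟨h1, h2, h3⟩ := hy (a.succAbove i) (Fin.succAbove_ne _ _)
    refine c2_one h b hb (a := a) (j := a.succAbove i) (Fin.succAbove_ne _ _) h1 (by rw [h2]; simp)
      ?_ ?_ ?_
    · intro h0
      have := congrArg (fun f : Dual ℝ V => f (b (a.succAbove i))) h0
      simp [Basis.coord_apply, Finsupp.single_apply, Fin.succAbove_ne] at this
    · rw [LinearMap.sub_apply, LinearMap.smul_apply, h2, h3]; simp
    · intro l hl1 hl2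
      simp [Basis.coord_apply, Finsupp.single_apply, hl1, hl2]
  · rintro rfl
    simp at hza
  · intro i
    rw [LinearMap.sub_apply, LinearMap.smul_apply, hza]; simp

omit h hb in
/-- coordinates of `b a + t • b j` -/
theorem coord_two (a j l : Fin (k + 1)) (t : ℝ) :
    b.coord l (b a + t • b j) = (if a = l then 1 else 0) + t * (if j = l then 1 else 0) := by
  simp [Basis.coord_apply, Finsupp.single_apply]

/-- dropping coordinates -/
theorem drop {a j : Fin (k + 1)} (haj : j ≠ a) {y : V} (hy : y ∈ Y) (hya : b.coord a y = 1) :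
    b a + b.coord j y • b j ∈ Y := by
  refine prod_rule h b hb (a := a) ?_ (fun l => if l = j then y else b a) ?_
  · rw [coord_two]; simp [haj]
  · intro l hl
    by_cases hlj : l = j
    · subst hlj
      rw [coord_two]
      simp [hy, hya, Ne.symm hl]
    · rw [coord_two]
      simp [hlj, hb, Ne.symm hl, Ne.symm hlj, Basis.coord_apply, Finsupp.single_apply]

/-- dropping coordinates, not normalised -/
theorem drop' {a j : Fin (k + 1)} (haj : j ≠ a) {y : V} (hy : y ∈ Y) (hya : b.coord a y ≠ 0) :
    b.coord a y • b a + b.coord j y • b j ∈ Y := by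
  have h1 := drop h b hb haj (h.sc y hy _ (inv_ne_zero hya))
    (by rw [map_smul, smul_eq_mul, inv_mul_cancel₀ hya])
  have h2 := h.sc _ h1 _ hya
  rwa [smul_add, smul_smul, map_smul, smul_eq_mul, ← mul_assoc, mul_inv_cancel₀ hya, one_mul] at h2

/-- assembling a vector from its pairs of coordinates -/
theorem assemble {a : Fin (k + 1)} {z : V} (hza : b.coord a z = 1)
    (hz : ∀ j, j ≠ a → b a + b.coord j z • b j ∈ Y) : z ∈ Y := by
  refine prod_rule h b hb hza (fun j => b a + b.coord j z • b j) ?_
  intro j hj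
  refine ⟨hz j hj, ?_, ?_⟩
  · rw [coord_two]; simp [hj]
  · rw [coord_two]; simp [Ne.symm hj]

omit h hb in
/-- the relation: two indices occur together in the support of a point of `Y` -/
def Rel (Y : Set V) (b : Basis (Fin (k + 1)) ℝ V) (i j : Fin (k + 1)) : Prop :=
  ∃ y ∈ Y, b.coord i y ≠ 0 ∧ b.coord j y ≠ 0

theorem rel_refl (i : Fin (k + 1)) : Rel Y b i i := ⟨b i, hb i, by simp, by simp⟩

omit h hb in
theorem rel_symm {i j : Fin (k + 1)} : Rel Y b i j → Rel Y b j i := fun ⟨y, hy, h1, h2⟩ =>
  ⟨y, hy, h2, h1⟩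

/-- related pairs carry a common point supported on them -/
theorem rel_pair {i j : Fin (k + 1)} (hij : j ≠ i) (hr : Rel Y b i j) :
    ∃ s : ℝ, s ≠ 0 ∧ b i + s • b j ∈ Y := by
  obtain ⟨y, hy, h1, h2⟩ := hr
  refine ⟨b.coord j ((b.coord i y)⁻¹ • y), ?_, ?_⟩
  · rw [map_smul, smul_eq_mul]; exact mul_ne_zero (inv_ne_zero h1) h2
  · exact drop h b hb hij (h.sc y hy _ (inv_ne_zero h1))
      (by rw [map_smul, smul_eq_mul, inv_mul_cancel₀ h1])

theorem rel_trans {i j l : Fin (k + 1)} (h1 : Rel Y b i j) (h2 : Rel Y b j l) : Rel Y b i l := by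
  by_cases hij : i = j
  · subst hij; exact h2
  by_cases hjl : j = l
  · subst hjl; exact h1
  by_cases hil : i = l
  · subst hil; exact rel_refl h b hb i
  obtain ⟨s, hs, h1⟩ := rel_pair h b hb hij (rel_symm b h1)
  obtain ⟨t, ht, h2⟩ := rel_pair h b hb (Ne.symm hjl) h2
  have key : b j + s • b i + t • b l ∈ Y := by
    refine assemble h b hb (a := j) ?_ ?_
    · simp [Basis.coord_apply, Finsupp.single_apply, hij, Ne.symm hjl]
    · intro m hm
      by_cases hmi : m = i
      · subst hmi
        convert h1 using 3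
        simp [Basis.coord_apply, Finsupp.single_apply, Ne.symm hil, Ne.symm hm]
      by_cases hml : m = l
      · subst hml
        convert h2 using 3
        simp [Basis.coord_apply, Finsupp.single_apply, hil, Ne.symm hm]
      · convert hb j using 1
        simp [Basis.coord_apply, Finsupp.single_apply, Ne.symm hmi, Ne.symm hm, Ne.symm hml]
  refine ⟨_, key, ?_, ?_⟩
  · simpa [Basis.coord_apply, Finsupp.single_apply, Ne.symm hij, Ne.symm hil] using hs
  · simpa [Basis.coord_apply, Finsupp.single_apply, hjl, hil] using ht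

section three

variable {i j l : Fin (k + 1)} (hij : i ≠ j) (hil : i ≠ l) (hjl : j ≠ l)

/-- sums over three coordinates -/
theorem join3 {i j l : Fin (k + 1)} (hij : i ≠ j) (hil : i ≠ l) (hjl : j ≠ l) {s t : ℝ}
    (h1 : b i + s • b j ∈ Y) (h2 : b i + t • b l ∈ Y) :
    b i + s • b j + t • b l ∈ Y := by
  refine assemble h b hb (a := i) ?_ ?_
  · simp [Basis.coord_apply, Finsupp.single_apply, Ne.symm hij, Ne.symm hil]
  · intro m hm
    by_cases hmj : m = j
    · subst hmj
      convert h1 using 3
      simp [Basis.coord_apply, Finsupp.single_apply, Ne.symm hm, Ne.symm hjl]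
    by_cases hml : m = l
    · subst hml
      convert h2 using 3
      simp [Basis.coord_apply, Finsupp.single_apply, hjl, Ne.symm hm]
    · convert hb i using 1
      simp [Basis.coord_apply, Finsupp.single_apply, Ne.symm hmj, Ne.symm hm, Ne.symm hml]

/-- normalised pairs -/
def Nm (Y : Set V) (b : Basis (Fin (k + 1)) ℝ V) (i j : Fin (k + 1)) : Prop :=
  i = j ∨ b i + b j ∈ Y

omit h hb in
theorem Nm.symm {i j : Fin (k + 1)} (h : Nm Y b i j) : Nm Y b j i := by
  rcases h with h | h
  · exact Or.inl h.symm
  · exact Or.inr (by rwa [add_comm])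

/-- inversion -/
theorem t_inv {i j : Fin (k + 1)} {t : ℝ} (ht : t ≠ 0) (h1 : b i + t • b j ∈ Y) :
    b j + t⁻¹ • b i ∈ Y := by
  have := h.sc _ h1 _ (inv_ne_zero ht)
  rwa [smul_add, smul_smul, inv_mul_cancel₀ ht, one_smul, add_comm] at this

/-- change of the first index -/
theorem t_first {i j l : Fin (k + 1)} (hij : i ≠ j) (hil : i ≠ l) (hjl : j ≠ l)
    (hn : b i + b l ∈ Y) {t : ℝ} (h1 : b i + t • b j ∈ Y) : b l + t • b j ∈ Y := by
  have h2 := join3 h b hb hij hil hjl h1 (t := 1) (by rwa [one_smul])
  have h3 := drop h b hb (a := l) (j := j) hjl h2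
    (by simp [Basis.coord_apply, Finsupp.single_apply, hil, hjl])
  convert h3 using 3
  simp [Basis.coord_apply, Finsupp.single_apply, hij, Ne.symm hjl]

/-- change of the second index -/
theorem t_second {i j l : Fin (k + 1)} (hij : i ≠ j) (hil : i ≠ l) (hjl : j ≠ l)
    (hn : b j + b l ∈ Y) {t : ℝ} (h1 : b i + t • b j ∈ Y) : b i + t • b l ∈ Y := by
  by_cases ht : t = 0
  · subst ht; simpa using hb i
  have h2 := t_first h b hb (Ne.symm hij) hjl hil hn (t_inv h b hb ht h1)
  have h3 := t_inv h b hb (inv_ne_zero ht) h2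
  rwa [inv_inv] at h3

/-- negatives -/
theorem t_neg {i j l : Fin (k + 1)} (hij : i ≠ j) (hil : i ≠ l) (hjl : j ≠ l)
    (hn : b i + b l ∈ Y) {t : ℝ} (h1 : b i + t • b j ∈ Y) : b l + (-t) • b j ∈ Y := by
  set x : Dual ℝ V := b.coord j - t • b.coord i + t • b.coord l with hx
  have hxX : x ∈ X := by
    refine c2_two h b hb (a := i) (j := j) (c := l) hij (Ne.symm hjl) hil h1 hn ?_ ?_ ?_ ?_ ?_
    · simp [Basis.coord_apply, Finsupp.single_apply, hij, hil, hjl, Ne.symm hij, Ne.symm hil,
        Ne.symm hjl]
    · intro h0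
      have := congrArg (fun f : Dual ℝ V => f (b j)) h0
      simp [hx, Basis.coord_apply, Finsupp.single_apply, Ne.symm hij, Ne.symm hjl, hij, hjl] at this
    · simp [hx, Basis.coord_apply, Finsupp.single_apply, hij, hil, hjl, Ne.symm hij, Ne.symm hil,
        Ne.symm hjl]
    · simp [hx, Basis.coord_apply, Finsupp.single_apply, hij, hil, hjl, Ne.symm hij, Ne.symm hil,
        Ne.symm hjl]
    · intro m h1 h2 h3
      simp [hx, Basis.coord_apply, Finsupp.single_apply, h1, h2, h3]
  refine c1' h b hb (a := l) (j := j) hjl hxX ?_ ?_ ?_ ?_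
  · simp [hx, Basis.coord_apply, Finsupp.single_apply, hij, hil, hjl, Ne.symm hij, Ne.symm hil,
        Ne.symm hjl]
  · intro h0
    have := congrArg (fun f => b.coord l f) h0
    simp [Basis.coord_apply, Finsupp.single_apply, hjl] at this
  · simp [hx, Basis.coord_apply, Finsupp.single_apply, hij, hil, hjl, Ne.symm hij, Ne.symm hil,
        Ne.symm hjl]
  · intro m h1 h2
    simp [Basis.coord_apply, Finsupp.single_apply, Ne.symm h1, Ne.symm h2]

/-- sums -/
theorem t_add {i j l : Fin (k + 1)} (hij : i ≠ j) (hil : i ≠ l) (hjl : j ≠ l)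
    (hn : b i + b l ∈ Y) {s t : ℝ} (h1 : b i + s • b j ∈ Y) (h2 : b l + (-t) • b j ∈ Y) :
    b i + (s + t) • b j ∈ Y := by
  have hp : b i + s • b j + (1 : ℝ) • b l ∈ Y := join3 h b hb hij hil hjl h1 (by rwa [one_smul])
  set x : Dual ℝ V := b.coord j - (s + t) • b.coord i + t • b.coord l with hx
  have hxX : x ∈ X := by
    refine c2_two h b hb (a := i) (j := j) (c := l) hij (Ne.symm hjl) hil hp h2 ?_ ?_ ?_ ?_ ?_
    · simp [Basis.coord_apply, Finsupp.single_apply, hij, hil, hjl, Ne.symm hij, Ne.symm hil,
        Ne.symm hjl]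
    · intro h0
      have := congrArg (fun f : Dual ℝ V => f (b j)) h0
      simp [hx, Basis.coord_apply, Finsupp.single_apply, Ne.symm hij, Ne.symm hjl, hij, hjl] at this
    · simp [hx, Basis.coord_apply, Finsupp.single_apply, hij, hil, hjl, Ne.symm hij, Ne.symm hil,
        Ne.symm hjl]
    · simp [hx, Basis.coord_apply, Finsupp.single_apply, hij, hil, hjl, Ne.symm hij, Ne.symm hil,
        Ne.symm hjl]
    · intro m h1 h2 h3
      simp [hx, Basis.coord_apply, Finsupp.single_apply, h1, h2, h3]
  refine c1' h b hb (a := i) (j := j) (Ne.symm hij) hxX ?_ ?_ ?_ ?_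
  · simp [hx, Basis.coord_apply, Finsupp.single_apply, hij, hil, hjl, Ne.symm hij, Ne.symm hil,
        Ne.symm hjl]
  · intro h0
    have := congrArg (fun f => b.coord i f) h0
    simp [Basis.coord_apply, Finsupp.single_apply, Ne.symm hij] at this
  · simp [hx, Basis.coord_apply, Finsupp.single_apply, hij, hil, hjl, Ne.symm hij, Ne.symm hil,
        Ne.symm hjl]
  · intro m h1 h2
    simp [Basis.coord_apply, Finsupp.single_apply, Ne.symm h1, Ne.symm h2]

end three

/-- the whole line joining two basis vectors of a normalised class of size at least three -/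
theorem t_all {i j l : Fin (k + 1)} (hij : i ≠ j) (hil : i ≠ l) (hjl : j ≠ l)
    (nij : b i + b j ∈ Y) (nil : b i + b l ∈ Y) (njl : b j + b l ∈ Y)
    (hcl : IsClosed {t : ℝ | b i + t • b j ∈ Y}) (t : ℝ) : b i + t • b j ∈ Y := by
  have nji : b j + b i ∈ Y := by rwa [add_comm]
  have nlj : b l + b j ∈ Y := by rwa [add_comm]
  have nli : b l + b i ∈ Y := by rwa [add_comm]
  have zero_mem : b i + (0 : ℝ) • b j ∈ Y := by simpa using hb i
  -- negatives
  have neg_mem : ∀ s : ℝ, b i + s • b j ∈ Y → b i + (-s) • b j ∈ Y := by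
    intro s hs
    have h1 := t_first h b hb hij hil hjl nil hs
    exact t_neg h b hb (Ne.symm hjl) (Ne.symm hil) (Ne.symm hij) nli h1
  -- sums
  have add_mem : ∀ s u : ℝ, b i + s • b j ∈ Y → b i + u • b j ∈ Y → b i + (s + u) • b j ∈ Y := by
    intro s u hs hu
    have h1 := t_neg h b hb hij hil hjl nil hu
    exact t_add h b hb hij hil hjl nil hs h1
  -- inverses
  have inv_mem : ∀ s : ℝ, s ≠ 0 → b i + s • b j ∈ Y → b i + s⁻¹ • b j ∈ Y := by
    intro s hs0 hs
    have h1 : b j + s⁻¹ • b i ∈ Y := t_inv h b hb hs0 hs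
    have h2 : b l + s⁻¹ • b i ∈ Y := t_first h b hb (Ne.symm hij) hjl hil njl h1
    have h3 : b l + s⁻¹ • b j ∈ Y := t_second h b hb (Ne.symm hil) (Ne.symm hjl) hij nij h2
    exact t_first h b hb (Ne.symm hjl) (Ne.symm hil) (Ne.symm hij) nli h3
  let A : AddSubgroup ℝ :=
    { carrier := {t : ℝ | b i + t • b j ∈ Y}
      add_mem' := fun {s u} hs hu => add_mem s u hs hu
      zero_mem' := zero_mem
      neg_mem' := fun {s} hs => neg_mem s hs }
  have one_mem : (1 : ℝ) ∈ A := by
    change b i + (1 : ℝ) • b j ∈ Y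
    rwa [one_smul]
  have nat_mem : ∀ n : ℕ, (n : ℝ) ∈ A := by
    intro n
    have := A.nsmul_mem one_mem n
    rwa [nsmul_eq_mul, mul_one] at this
  have rat_mem : ∀ q : ℚ, (q : ℝ) ∈ A := by
    intro q
    have hd : ((q.den : ℕ) : ℝ) ≠ 0 := Nat.cast_ne_zero.2 q.den_nz
    have h1 : ((q.den : ℕ) : ℝ)⁻¹ ∈ A := inv_mem _ hd (nat_mem _)
    have h2 := A.zsmul_mem h1 q.num
    rw [zsmul_eq_mul] at h2
    have h3 : (q : ℝ) = (q.num : ℝ) * ((q.den : ℕ) : ℝ)⁻¹ := by
      rw [← div_eq_mul_inv]
      exact_mod_cast (Rat.num_div_den q).symm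
    rwa [h3]
  exact (Rat.denseRange_cast (𝕜 := ℝ)).induction_on (p := fun t => b i + t • b j ∈ Y) t hcl
    rat_mem

/-- a normalised class of size at least three is full -/
theorem class_full (hcl : ∀ i j, i ≠ j → IsClosed {t : ℝ | b i + t • b j ∈ Y})
    (a : Fin (k + 1))
    (hn : ∀ i j, i ≠ j → Rel Y b a i → Rel Y b a j → b i + b j ∈ Y)
    (h3 : 3 ≤ {j | Rel Y b a j}.ncard) {z : V} (hz0 : z ≠ 0)
    (hz : ∀ j, b.coord j z ≠ 0 → Rel Y b a j) : z ∈ Y := by
  obtain ⟨m, hm⟩ : ∃ m, b.coord m z ≠ 0 := by
    by_contra hcon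
    push Not at hcon
    apply hz0
    apply b.ext_elem
    intro i
    simpa using hcon i
  have hmr := hz m hm
  have key : (b.coord m z)⁻¹ • z ∈ Y := by
    refine assemble h b hb (a := m) (by rw [map_smul, smul_eq_mul, inv_mul_cancel₀ hm]) ?_
    intro j hj
    by_cases hjz : b.coord j z = 0
    · rw [map_smul, hjz]; simpa using hb m
    · have hjr := hz j hjz
      obtain ⟨l, hl, hlm, hlj⟩ : ∃ l, Rel Y b a l ∧ l ≠ m ∧ l ≠ j := by
        by_contra hcon
        push Not at hcon
        have hsub : {j | Rel Y b a j} ⊆ {m, j} := by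
          intro l hl
          by_cases hlm : l = m
          · simp [hlm]
          · simp [hcon l hl hlm]
        have := Set.ncard_le_ncard hsub (Set.toFinite _)
        have h2 := Set.ncard_pair (Ne.symm hj)
        omega
      exact t_all h b hb (Ne.symm hj) (Ne.symm hlm) (Ne.symm hlj) (hn m j (Ne.symm hj) hmr hjr)
        (hn m l (Ne.symm hlm) hmr hl) (hn j l (Ne.symm hlj) hjr hl) (hcl m j (Ne.symm hj)) _
  have := h.sc _ key _ hm
  rwa [smul_smul, mul_inv_cancel₀ hm, one_smul] at this

/-- normalisation of the basis: `w j` is chosen so that `b r + w j • b j ∈ Y` with `r` the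
representative of the class of `j` -/
theorem exists_normal : ∃ w : Fin (k + 1) → ℝˣ,
    ∀ i j, i ≠ j → Rel Y b i j → (w i : ℝ) • b i + (w j : ℝ) • b j ∈ Y := by
  classical
  let S : Setoid (Fin (k + 1)) :=
    ⟨Rel Y b, ⟨rel_refl h b hb, fun h1 => rel_symm b h1, fun h1 h2 => rel_trans h b hb h1 h2⟩⟩
  let rep : Fin (k + 1) → Fin (k + 1) := fun j => (Quotient.mk S j).out
  have hrep : ∀ j, Rel Y b (rep j) j := fun j => Quotient.exact (Quotient.out_eq (Quotient.mk S j))
  have hrep' : ∀ i j, Rel Y b i j → rep i = rep j := by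
    intro i j hij
    change (Quotient.mk S i).out = (Quotient.mk S j).out
    rw [Quotient.sound (s := S) hij]
  have hw : ∀ j, ∃ s : ℝˣ, (j = rep j → s = 1) ∧ (j ≠ rep j → b (rep j) + (s : ℝ) • b j ∈ Y) := by
    intro j
    by_cases hj : j = rep j
    · exact ⟨1, fun _ => rfl, fun h => absurd hj h⟩
    · obtain ⟨s, hs, h1⟩ := rel_pair h b hb hj (hrep j)
      exact ⟨Units.mk0 s hs, fun h => absurd h hj, fun _ => h1⟩
  choose w hw1 hw2 using hw
  refine ⟨w, ?_⟩
  intro i j hij hr
  have hrr := hrep' i j hr
  by_cases hi : i = rep i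
  · rw [hw1 i hi, Units.val_one, one_smul]
    have hj : j ≠ rep j := by rw [← hrr, ← hi]; exact Ne.symm hij
    have := hw2 j hj
    rwa [← hrr, ← hi] at this
  by_cases hj : j = rep j
  · rw [hw1 j hj, Units.val_one, one_smul, add_comm]
    have := hw2 i hi
    rwa [hrr, ← hj] at this
  have h1 := hw2 i hi
  have h2 := hw2 j hj
  rw [← hrr] at h2
  have hj' : j ≠ rep i := by rw [hrr]; exact hj
  have h3 := join3 h b hb (Ne.symm hi) (Ne.symm hj') hij h1 h2
  have h4 := drop' h b hb (a := i) (j := j) (Ne.symm hij) h3 (by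
    simp [Basis.coord_apply, Finsupp.single_apply, Ne.symm hi, Ne.symm hij])
  simpa [Basis.coord_apply, Finsupp.single_apply, Ne.symm hi, Ne.symm hij, Ne.symm hj', hij] using h4

end Pool.Agent.H769.ProjClosure

namespace Pool.Agent.H769.ProjClosure

variable {V : Type*} [NormedAddCommGroup V] [InnerProductSpace ℝ V] {k : ℕ}

/-- **Structure of projectively closed sets.** -/
theorem structure_thm {X : Set (Dual ℝ V)} {Y : Set V} (h : Cl k X Y)
    (hfr : finrank ℝ V = k + 1) (hspan : Submodule.span ℝ Y = ⊤)
    (hcl : IsClosed (insert 0 Y)) :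
    ∃ (b : Basis (Fin (k + 1)) ℝ V) (r : Setoid (Fin (k + 1))), (∀ i, b i ∈ Y) ∧
      (∀ y ∈ Y, ∀ i j, b.coord i y ≠ 0 → b.coord j y ≠ 0 → r i j) ∧
      (∀ a, 3 ≤ {j | r a j}.ncard → ∀ z, z ≠ 0 → (∀ j, b.coord j z ≠ 0 → r a j) → z ∈ Y) := by
  classical
  obtain ⟨s, hsY, hs1, hs2⟩ := exists_linearIndependent ℝ Y
  have hfin : FiniteDimensional ℝ V := FiniteDimensional.of_finrank_pos (by omega)
  let B : Basis s ℝ V := Basis.mk hs2 (by
    rw [Subtype.range_coe, hs1, hspan])
  have : Fintype s := FiniteDimensional.fintypeBasisIndex B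
  have hcard : Fintype.card s = k + 1 := by rw [← finrank_eq_card_basis B, hfr]
  let b0 : Basis (Fin (k + 1)) ℝ V := B.reindex (Fintype.equivFinOfCardEq hcard)
  have hb0 : ∀ i, b0 i ∈ Y := by
    intro i
    simp only [b0, Basis.reindex_apply, B, Basis.mk_apply]
    exact hsY (Subtype.property _)
  obtain ⟨w, hw⟩ := exists_normal h b0 hb0
  let b : Basis (Fin (k + 1)) ℝ V := b0.unitsSMul w
  have hbi : ∀ i, b i = (w i : ℝ) • b0 i := by
    intro i
    simp only [b, Basis.unitsSMul_apply]
    rfl
  have hb : ∀ i, b i ∈ Y := by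
    intro i
    rw [hbi]
    exact h.sc _ (hb0 i) _ (w i).ne_zero
  have hco : ∀ i z, b.coord i z ≠ 0 ↔ b0.coord i z ≠ 0 := by
    intro i z
    have h1 : b0.coord i z = (w i : ℝ) * b.coord i z := by
      have h2 : z = ∑ j, b.coord j z • b j := (b.sum_repr z).symm
      conv_lhs => rw [h2]
      simp only [map_sum, map_smul, smul_eq_mul, hbi]
      rw [Finset.sum_eq_single i]
      · simp; ring
      · intro j _ hj
        simp [hj]
      · simp
    rw [h1]
    have := (w i).ne_zero
    constructor
    · intro h3; exact mul_ne_zero this h3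
    · intro h3 h4; exact h3 (by rw [h4, mul_zero])
  have hrel : ∀ i j, Rel Y b i j ↔ Rel Y b0 i j := by
    intro i j
    constructor
    · rintro ⟨y, hy, h1, h2⟩; exact ⟨y, hy, (hco _ _).1 h1, (hco _ _).1 h2⟩
    · rintro ⟨y, hy, h1, h2⟩; exact ⟨y, hy, (hco _ _).2 h1, (hco _ _).2 h2⟩
  have hnorm : ∀ i j, i ≠ j → Rel Y b i j → b i + b j ∈ Y := by
    intro i j hij hr
    rw [hbi, hbi]
    exact hw i j hij ((hrel i j).1 hr)
  let S : Setoid (Fin (k + 1)) :=
    ⟨Rel Y b, ⟨rel_refl h b hb, fun h1 => rel_symm b h1, fun h1 h2 => rel_trans h b hb h1 h2⟩⟩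
  refine ⟨b, S, hb, ?_, ?_⟩
  · intro y hy i j h1 h2
    exact ⟨y, hy, h1, h2⟩
  · intro a h3 z hz0 hz
    refine class_full h b hb ?_ a ?_ h3 hz0 hz
    · intro i j hij
      have h1 : {t : ℝ | b i + t • b j ∈ Y} = (fun t : ℝ => b i + t • b j) ⁻¹' (insert 0 Y) := by
        ext t
        simp only [mem_ofPred_eq, mem_preimage, mem_insert_iff]
        constructor
        · exact Or.inr
        · rintro (h2 | h2)
          · exfalso
            have := congrArg (fun f => b.coord i f) h2
            simp [Basis.coord_apply, Finsupp.single_apply, hij, Ne.symm hij] at this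
          · exact h2
      rw [h1]
      exact hcl.preimage (by fun_prop)
    · intro i j hij h1 h2
      exact hnorm i j hij (rel_trans h b hb (rel_symm b h1) h2)

end Pool.Agent.H769.ProjClosure
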