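import Mathlib

/-! Uniqueness of the generating measure of a zonoid: if two measures have the same cosine
transform then they give the same integral to every even, positively homogeneous, nonnegative
measurable function. -/

set_option autoImplicit false
set_option linter.unusedSimpArgs false
open MeasureTheory Set Filter Topology
open scoped ENNReal RealInnerProductSpace

namespace Pool.Agent.H769.Uniq

/-- `(1 - cos (t r)) / t²` -/
noncomputable def g (r t : ℝ) : ℝ := (1 - Real.cos (t * r)) / t ^ 2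

theorem g_nonneg (r t : ℝ) : 0 ≤ g r t :=
  div_nonneg (by linarith [Real.cos_le_one (t * r)]) (sq_nonneg t)

theorem g_meas (r : ℝ) : Measurable (g r) := by unfold g; fun_prop

theorem g_one_le (t : ℝ) : g 1 t ≤ 4 * (1 + t ^ 2)⁻¹ := by
  unfold g
  rw [mul_one]
  by_cases ht : t = 0
  · subst ht; simp
  have ht2 : 0 < t ^ 2 := by positivity
  rw [← div_eq_mul_inv, div_le_div_iff₀ ht2 (by positivity)]
  have h1 : 1 - Real.cos t ≤ 2 := by linarith [Real.neg_one_le_cos t]
  have h2 : 1 - Real.cos t ≤ t ^ 2 / 2 := by linarith [Real.one_sub_sq_div_two_le_cos (x := t)]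
  nlinarith [Real.cos_le_one t]

theorem g_one_int : Integrable (g 1) := by
  refine Integrable.mono' (integrable_inv_one_add_sq.const_mul 4) (g_meas 1).aestronglyMeasurable ?_
  filter_upwards with t
  rw [Real.norm_of_nonneg (g_nonneg _ _)]
  exact g_one_le t

/-- the constant -/
noncomputable def c0 : ℝ := ∫ t, g 1 t

theorem c0_pos : 0 < c0 := by
  unfold c0
  rw [integral_pos_iff_support_of_nonneg (g_nonneg 1) g_one_int]
  have h1 : Ioo (0 : ℝ) 1 ⊆ Function.support (g 1) := by
    intro t ht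
    rw [Function.mem_support]
    unfold g
    rw [mul_one]
    have h2 : Real.cos t ≠ 1 := by
      intro h
      rw [Real.cos_eq_one_iff_of_lt_of_lt (by linarith [ht.1, Real.pi_pos])
        (by linarith [ht.2, Real.pi_gt_three])] at h
      exact ht.1.ne' h
    exact div_ne_zero (sub_ne_zero.2 (Ne.symm h2)) (pow_ne_zero 2 ht.1.ne')
  refine lt_of_lt_of_le ?_ (measure_mono h1)
  simp

theorem g_scale (r t : ℝ) (hr : r ≠ 0) : g r t = r ^ 2 * g 1 (r * t) := by
  unfold g
  rw [mul_one, mul_pow, mul_comm t r, mul_div_assoc', mul_div_mul_left _ _ (pow_ne_zero 2 hr)]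

theorem g_int (r : ℝ) : Integrable (g r) := by
  by_cases hr : r = 0
  · subst hr
    have : g 0 = fun _ => 0 := by ext t; simp [g]
    rw [this]; exact integrable_zero _ _ _
  · have : g r = fun t => r ^ 2 * g 1 (r * t) := by ext t; exact g_scale r t hr
    rw [this]
    exact (g_one_int.comp_mul_left' hr).const_mul _

theorem g_eq (r : ℝ) : ∫ t, g r t = c0 * |r| := by
  by_cases hr : r = 0
  · subst hr
    have : g 0 = fun _ => 0 := by ext t; simp [g]
    simp [this]
  · simp_rw [fun t => g_scale r t hr]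
    rw [integral_const_mul, Measure.integral_comp_mul_left, smul_eq_mul]
    change r ^ 2 * (|r⁻¹| * c0) = _
    rw [abs_inv, ← sq_abs r]
    have : |r| ≠ 0 := abs_ne_zero.2 hr
    field_simp

theorem cosg (s r t : ℝ) : Real.cos (t * s) * g r t =
    2⁻¹ * (g (s + r) t + g (s - r) t - 2 * g s t) := by
  unfold g
  rw [mul_add t s r, mul_sub t s r, Real.cos_add, Real.cos_sub]
  ring

theorem cosg_int (s r : ℝ) : Integrable fun t => Real.cos (t * s) * g r t := by
  simp_rw [fun t => cosg s r t]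
  exact (((g_int _).add (g_int _)).sub ((g_int s).const_mul 2)).const_mul _

theorem cosg_eq (s r : ℝ) : ∫ t, Real.cos (t * s) * g r t =
    c0 / 2 * (|s + r| + |s - r| - 2 * |s|) := by
  simp_rw [fun t => cosg s r t]
  have h1 : Integrable (fun a => g (s + r) a + g (s - r) a) := (g_int _).add (g_int _)
  rw [integral_const_mul, integral_sub h1 ((g_int s).const_mul 2),
    integral_add (g_int _) (g_int _), integral_const_mul, g_eq, g_eq, g_eq]
  ring

theorem sing_int (s r : ℝ) : Integrable fun t => Real.sin (t * s) * g r t := by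
  refine Integrable.mono' (g_int r) ?_ ?_
  · exact ((Real.measurable_sin.comp (measurable_id.mul_const s)).mul (g_meas r)).aestronglyMeasurable
  · filter_upwards with t
    rw [norm_mul, Real.norm_of_nonneg (g_nonneg _ _)]
    calc ‖Real.sin (t * s)‖ * g r t ≤ 1 * g r t := by
          gcongr
          · exact g_nonneg _ _
          · rw [Real.norm_eq_abs]; exact Real.abs_sin_le_one _
      _ = g r t := one_mul _

theorem sing_eq (s r : ℝ) : ∫ t, Real.sin (t * s) * g r t = 0 := by
  have h1 : ∫ t, Real.sin (t * s) * g r t = -∫ t, Real.sin (t * s) * g r t := by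
    conv_lhs => rw [← integral_neg_eq_self]
    rw [← integral_neg]
    congr 1
    ext t
    unfold g
    rw [neg_mul, neg_mul, Real.sin_neg, Real.cos_neg, neg_sq]
    ring
  linarith

theorem expg (s r t : ℝ) : (g r t : ℂ) * Complex.exp ((t * s : ℝ) * Complex.I) =
    ((Real.cos (t * s) * g r t : ℝ) : ℂ) + ((Real.sin (t * s) * g r t : ℝ) : ℂ) * Complex.I := by
  rw [Complex.exp_mul_I, ← Complex.ofReal_cos, ← Complex.ofReal_sin]
  push_cast
  ring

theorem expg_int (s r : ℝ) :
    Integrable fun t : ℝ => (g r t : ℂ) * Complex.exp ((t * s : ℝ) * Complex.I) := by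
  simp_rw [fun t => expg s r t]
  exact (cosg_int s r).ofReal.add ((sing_int s r).ofReal.mul_const _)

theorem expg_eq (s r : ℝ) : ∫ t : ℝ, (g r t : ℂ) * Complex.exp ((t * s : ℝ) * Complex.I) =
    ((c0 / 2 * (|s + r| + |s - r| - 2 * |s|) : ℝ) : ℂ) := by
  simp_rw [fun t => expg s r t]
  rw [integral_add (cosg_int s r).ofReal ((sing_int s r).ofReal.mul_const _),
    integral_mul_const, integral_complex_ofReal, integral_complex_ofReal, cosg_eq, sing_eq]
  simp

variable {n : ℕ}


/-- the density -/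
noncomputable def th (p : EuclideanSpace ℝ (Fin n) × ℝ) : ℝ := ∑ i, g (p.1 i) p.2

theorem th_nonneg (p : EuclideanSpace ℝ (Fin n) × ℝ) : 0 ≤ th p :=
  Finset.sum_nonneg fun _ _ => g_nonneg _ _

theorem th_meas : Measurable (th (n := n)) := by
  unfold th g
  fun_prop

theorem th_int (m : Measure (EuclideanSpace ℝ (Fin n))) [IsFiniteMeasure m]
    (hm : Integrable (fun v => ‖v‖) m) : Integrable (th (n := n)) (m.prod volume) := by
  have key : ∀ i : Fin n, Integrable (fun p : EuclideanSpace ℝ (Fin n) × ℝ => g (p.1 i) p.2)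
      (m.prod volume) := by
    intro i
    have hme : Measurable (fun p : EuclideanSpace ℝ (Fin n) × ℝ => g (p.1 i) p.2) := by
      unfold g; fun_prop
    have hme' : AEStronglyMeasurable (fun p : EuclideanSpace ℝ (Fin n) × ℝ => g (p.1 i) p.2)
      (m.prod volume) := hme.aestronglyMeasurable
    refine (integrable_prod_iff hme').2 ⟨?_, ?_⟩
    · exact Filter.Eventually.of_forall fun v => g_int (v i)
    have h1 : (fun v : EuclideanSpace ℝ (Fin n) => ∫ t, ‖g (v i) t‖) = fun v => c0 * |v i| := by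
      ext v
      rw [← g_eq]
      congr 1
      ext t
      exact Real.norm_of_nonneg (g_nonneg _ _)
    simp only [h1]
    refine (Integrable.mono' hm ?_ ?_).const_mul _
    · exact (by fun_prop : Measurable fun v : EuclideanSpace ℝ (Fin n) => |v i|).aestronglyMeasurable
    · filter_upwards with v
      rw [Real.norm_eq_abs, abs_abs]
      exact PiLp.norm_apply_le v i
  unfold th
  exact integrable_finsetSum _ fun i _ => key i

/-- the auxiliary finite measure -/
noncomputable def ka (m : Measure (EuclideanSpace ℝ (Fin n))) : Measure (EuclideanSpace ℝ (Fin n)) :=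
  ((m.prod volume).withDensity fun p => ENNReal.ofReal (th p)).map fun p => p.2 • p.1

theorem ka_fin (m : Measure (EuclideanSpace ℝ (Fin n))) [IsFiniteMeasure m]
    (hm : Integrable (fun v => ‖v‖) m) : IsFiniteMeasure (ka m) := by
  have := isFiniteMeasure_withDensity_ofReal (th_int m hm).2
  unfold ka
  infer_instance

/-- the cosine transform -/
noncomputable def H (m : Measure (EuclideanSpace ℝ (Fin n))) (u : EuclideanSpace ℝ (Fin n)) : ℝ :=
  ∫ v, |⟪u, v⟫| ∂m

theorem H_int (m : Measure (EuclideanSpace ℝ (Fin n))) [IsFiniteMeasure m]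
    (hm : Integrable (fun v => ‖v‖) m) (u : EuclideanSpace ℝ (Fin n)) :
    Integrable (fun v => |⟪u, v⟫|) m := by
  refine Integrable.mono' (hm.const_mul ‖u‖) ?_ ?_
  · exact (by fun_prop : Continuous fun v : EuclideanSpace ℝ (Fin n) => |⟪u, v⟫|).aestronglyMeasurable
  · filter_upwards with v
    rw [Real.norm_eq_abs, abs_abs]
    exact abs_real_inner_le_norm u v

theorem charFun_ka (m : Measure (EuclideanSpace ℝ (Fin n))) [IsFiniteMeasure m]
    (hm : Integrable (fun v => ‖v‖) m) (u : EuclideanSpace ℝ (Fin n)) :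
    charFun (ka m) u = ((c0 / 2 * ∑ i, (H m (u + EuclideanSpace.single i 1) +
      H m (u - EuclideanSpace.single i 1) - 2 * H m u) : ℝ) : ℂ) := by
  have hmeas : Measurable fun p : EuclideanSpace ℝ (Fin n) × ℝ => p.2 • p.1 := by fun_prop
  have hin : ∀ v : EuclideanSpace ℝ (Fin n), (∫ t : ℝ, (th (v, t) : ℂ) *
      Complex.exp ((t * ⟪v, u⟫ : ℝ) * Complex.I)) =
      ((c0 / 2 * ∑ i, (|⟪u + EuclideanSpace.single i (1 : ℝ), v⟫| +
        |⟪u - EuclideanSpace.single i (1 : ℝ), v⟫| - 2 * |⟪u, v⟫|) : ℝ) : ℂ) := by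
    intro v
    have h1 : ∀ t : ℝ, (th (v, t) : ℂ) * Complex.exp ((t * ⟪v, u⟫ : ℝ) * Complex.I) =
        ∑ i, (g (v i) t : ℂ) * Complex.exp ((t * ⟪v, u⟫ : ℝ) * Complex.I) := by
      intro t
      unfold th
      push_cast
      rw [Finset.sum_mul]
    simp_rw [h1]
    rw [integral_finsetSum _ fun i _ => expg_int _ _]
    simp_rw [expg_eq]
    rw [Finset.mul_sum]
    push_cast
    refine Finset.sum_congr rfl fun i _ => ?_
    rw [inner_add_left, inner_sub_left, EuclideanSpace.inner_single_left, real_inner_comm u v]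
    simp
  have hint : Integrable (fun p : EuclideanSpace ℝ (Fin n) × ℝ => (th p : ℂ) *
      Complex.exp ((p.2 * ⟪p.1, u⟫ : ℝ) * Complex.I)) (m.prod volume) := by
    refine Integrable.mono' (th_int m hm) ?_ ?_
    · refine Measurable.aestronglyMeasurable ?_
      have := th_meas (n := n)
      fun_prop
    · filter_upwards with p
      rw [norm_mul, Complex.norm_exp_ofReal_mul_I, mul_one, Complex.norm_real,
        Real.norm_of_nonneg (th_nonneg p)]
  rw [charFun_apply, ka, integral_map hmeas.aemeasurable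
    (by apply Continuous.aestronglyMeasurable; fun_prop)]
  rw [integral_withDensity_eq_integral_toReal_smul th_meas.ennreal_ofReal
    (Eventually.of_forall fun p => ENNReal.ofReal_lt_top)]
  have h2 : ∀ p : EuclideanSpace ℝ (Fin n) × ℝ, (ENNReal.ofReal (th p)).toReal •
      Complex.exp ((⟪p.2 • p.1, u⟫ : ℝ) * Complex.I) =
      (th p : ℂ) * Complex.exp ((p.2 * ⟪p.1, u⟫ : ℝ) * Complex.I) := by
    intro p
    rw [ENNReal.toReal_ofReal (th_nonneg p), real_inner_smul_left, Complex.real_smul]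
  simp_rw [h2]
  rw [integral_prod _ hint]
  simp_rw [hin]
  rw [integral_complex_ofReal, integral_const_mul]
  congr 2
  rw [integral_finsetSum]
  · refine Finset.sum_congr rfl fun i _ => ?_
    rw [integral_sub, integral_add, integral_const_mul]
    · rfl
    · exact H_int m hm _
    · exact H_int m hm _
    · exact (H_int m hm _).add (H_int m hm _)
    · exact (H_int m hm _).const_mul 2
  · intro i _
    exact ((H_int m hm _).add (H_int m hm _)).sub ((H_int m hm _).const_mul 2)

theorem ka_eq (m₁ m₂ : Measure (EuclideanSpace ℝ (Fin n))) [IsFiniteMeasure m₁]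
    [IsFiniteMeasure m₂] (h₁ : Integrable (fun v => ‖v‖) m₁) (h₂ : Integrable (fun v => ‖v‖) m₂)
    (h : ∀ u, H m₁ u = H m₂ u) : ka m₁ = ka m₂ := by
  have := ka_fin m₁ h₁
  have := ka_fin m₂ h₂
  apply Measure.ext_of_charFun
  ext u
  rw [charFun_ka m₁ h₁, charFun_ka m₂ h₂]
  simp_rw [h]

/-- radial cut-off -/
noncomputable def q1 (s : ℝ) : ℝ := if 1 ≤ |s| ∧ |s| ≤ 2 then |s|⁻¹ else 0

theorem q1_nonneg (s : ℝ) : 0 ≤ q1 s := by
  unfold q1; split_ifs
  · positivity
  · exact le_rfl

theorem q1_meas : Measurable q1 := by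
  unfold q1
  refine Measurable.ite ?_ (by fun_prop) measurable_const
  have h1 : Measurable fun s : ℝ => |s| := by fun_prop
  exact (measurableSet_le measurable_const h1).inter (measurableSet_le h1 measurable_const)

theorem q1_int : Integrable q1 := by
  have h1 : Integrable (Set.indicator (Icc (-2 : ℝ) 2) fun _ => (1 : ℝ)) := by
    rw [integrable_indicator_iff measurableSet_Icc]
    exact integrableOn_const (by simp)
  refine Integrable.mono' h1 q1_meas.aestronglyMeasurable ?_
  filter_upwards with s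
  rw [Real.norm_of_nonneg (q1_nonneg s)]
  unfold q1
  split_ifs with h
  · rw [Set.indicator_of_mem (show s ∈ Icc (-2 : ℝ) 2 from ⟨(abs_le.1 h.2).1, (abs_le.1 h.2).2⟩)]
    exact inv_le_one_of_one_le₀ h.1
  · exact Set.indicator_nonneg (fun _ _ => zero_le_one) _

theorem q1_pos : 0 < ∫ s, q1 s := by
  rw [integral_pos_iff_support_of_nonneg q1_nonneg q1_int]
  have h1 : Icc (1 : ℝ) 2 ⊆ Function.support q1 := by
    intro t ht
    rw [Function.mem_support]
    unfold q1
    have : |t| = t := abs_of_pos (by linarith [ht.1])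
    rw [this, if_pos ⟨ht.1, ht.2⟩]
    exact inv_ne_zero (by linarith [ht.1])
  refine lt_of_lt_of_le ?_ (measure_mono h1)
  simp

theorem q1_scale {r : ℝ} (hr : 0 < r) :
    ∫⁻ t, ENNReal.ofReal (r * q1 (r * t)) = ENNReal.ofReal (∫ s, q1 s) := by
  rw [← ofReal_integral_eq_lintegral_ofReal]
  · rw [integral_const_mul, Measure.integral_comp_mul_left, smul_eq_mul, abs_inv, abs_of_pos hr,
      ← mul_assoc, mul_inv_cancel₀ hr.ne', one_mul]
  · exact (q1_int.comp_mul_left' hr.ne').const_mul _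
  · exact Eventually.of_forall fun t => mul_nonneg hr.le (q1_nonneg _)

/-- the weight -/
noncomputable def Wt (x : EuclideanSpace ℝ (Fin n)) : ℝ := ∑ i, (1 - Real.cos (x i))

theorem Wt_pos {x : EuclideanSpace ℝ (Fin n)} (h1 : 1 ≤ ‖x‖) (h2 : ‖x‖ ≤ 2) : 0 < Wt x := by
  have hnn : ∀ i ∈ Finset.univ, 0 ≤ 1 - Real.cos (x i) := fun i _ => by
    linarith [Real.cos_le_one (x i)]
  refine lt_of_le_of_ne (Finset.sum_nonneg hnn) ?_
  intro h0
  have h3 := (Finset.sum_eq_zero_iff_of_nonneg hnn).1 h0.symm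
  have h4 : x = 0 := by
    ext i
    have h5 : Real.cos (x i) = 1 := by linarith [h3 i (Finset.mem_univ i)]
    have h6 : |x i| ≤ 2 := le_trans (by simpa using PiLp.norm_apply_le x i) h2
    have h7 := abs_le.1 h6
    have hpi := Real.pi_gt_three
    exact (Real.cos_eq_one_iff_of_lt_of_lt (by linarith) (by linarith)).1 h5
  rw [h4, norm_zero] at h1
  linarith

/-- the test function -/
noncomputable def Gt (x : EuclideanSpace ℝ (Fin n)) : ℝ :=
  if 1 ≤ ‖x‖ ∧ ‖x‖ ≤ 2 then (Wt x)⁻¹ else 0

theorem Gt_meas : Measurable (Gt (n := n)) := by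
  unfold Gt
  refine Measurable.ite ?_ (by unfold Wt; fun_prop) measurable_const
  have h1 : Measurable fun s : EuclideanSpace ℝ (Fin n) => ‖s‖ := by fun_prop
  exact (measurableSet_le measurable_const h1).inter (measurableSet_le h1 measurable_const)

theorem Gt_nonneg (x : EuclideanSpace ℝ (Fin n)) : 0 ≤ Gt x := by
  unfold Gt
  split_ifs with h
  · exact (inv_pos.2 (Wt_pos h.1 h.2)).le
  · exact le_rfl

theorem th_Gt (v : EuclideanSpace ℝ (Fin n)) (t : ℝ) :
    th (v, t) * (|t| * Gt (t • v)) = ‖v‖ * q1 (‖v‖ * t) := by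
  by_cases ht : t = 0
  · subst ht; simp [q1]
  have h1 : th (v, t) = Wt (t • v) / t ^ 2 := by
    unfold th Wt g
    rw [Finset.sum_div]
    rfl
  unfold Gt q1
  rw [norm_smul, Real.norm_eq_abs, abs_mul, abs_norm, mul_comm ‖v‖ |t|]
  split_ifs with h
  · have h2 : Wt (t • v) ≠ 0 := (Wt_pos (by rw [norm_smul, Real.norm_eq_abs]; exact h.1)
      (by rw [norm_smul, Real.norm_eq_abs]; exact h.2)).ne'
    have h3 : |t| ≠ 0 := abs_ne_zero.2 ht
    have h4 : ‖v‖ ≠ 0 := by
      intro h5; rw [h5, mul_zero] at h; linarith [h.1]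
    rw [h1, ← sq_abs t]
    field_simp
  · simp

theorem lintegral_ka (m : Measure (EuclideanSpace ℝ (Fin n))) [IsFiniteMeasure m]
    (φ : EuclideanSpace ℝ (Fin n) → ℝ≥0∞) (hφ : Measurable φ)
    (hh : ∀ (t : ℝ) v, φ (t • v) = ENNReal.ofReal |t| * φ v) :
    ∫⁻ x, φ x * ENNReal.ofReal (Gt x) ∂(ka m) =
      (∫⁻ v, φ v ∂m) * ENNReal.ofReal (∫ s, q1 s) := by
  have hmeas : Measurable fun p : EuclideanSpace ℝ (Fin n) × ℝ => p.2 • p.1 := by fun_prop
  have hF : Measurable fun x : EuclideanSpace ℝ (Fin n) => φ x * ENNReal.ofReal (Gt x) :=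
    hφ.mul Gt_meas.ennreal_ofReal
  have hF' : Measurable fun p : EuclideanSpace ℝ (Fin n) × ℝ =>
      φ (p.2 • p.1) * ENNReal.ofReal (Gt (p.2 • p.1)) := hF.comp hmeas
  rw [ka, lintegral_map hF hmeas, lintegral_withDensity_eq_lintegral_mul _
    th_meas.ennreal_ofReal hF']
  have h1 : ∀ p : EuclideanSpace ℝ (Fin n) × ℝ,
      ENNReal.ofReal (th p) * (φ (p.2 • p.1) * ENNReal.ofReal (Gt (p.2 • p.1))) =
      φ p.1 * ENNReal.ofReal (‖p.1‖ * q1 (‖p.1‖ * p.2)) := by
    intro p
    rw [hh, ← th_Gt, ENNReal.ofReal_mul (th_nonneg _),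
      ENNReal.ofReal_mul (abs_nonneg _)]
    ring
  simp only [Pi.mul_apply, h1]
  have hq : Measurable fun p : EuclideanSpace ℝ (Fin n) × ℝ =>
      ENNReal.ofReal (‖p.1‖ * q1 (‖p.1‖ * p.2)) := by
    refine Measurable.ennreal_ofReal ?_
    exact (by fun_prop : Measurable fun p : EuclideanSpace ℝ (Fin n) × ℝ => ‖p.1‖).mul
      (q1_meas.comp (by fun_prop))
  have hφq : Measurable fun p : EuclideanSpace ℝ (Fin n) × ℝ =>
      φ p.1 * ENNReal.ofReal (‖p.1‖ * q1 (‖p.1‖ * p.2)) := (hφ.comp measurable_fst).mul hq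
  rw [lintegral_prod _ hφq.aemeasurable]
  rw [← lintegral_mul_const _ hφ]
  refine lintegral_congr fun v => ?_
  change ∫⁻ y : ℝ, φ v * ENNReal.ofReal (‖v‖ * q1 (‖v‖ * y)) = _
  rw [lintegral_const_mul]
  · by_cases hv : v = 0
    · have : φ v = 0 := by
        have := hh 0 v
        rw [hv] at this ⊢
        simpa using this
      rw [this, zero_mul, zero_mul]
    · rw [q1_scale (norm_pos_iff.2 hv)]
  · exact ((q1_meas.comp (by fun_prop)).const_mul _).ennreal_ofReal

/-- **Uniqueness of the generating measure.** -/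
theorem uniq (m₁ m₂ : Measure (EuclideanSpace ℝ (Fin n))) [IsFiniteMeasure m₁]
    [IsFiniteMeasure m₂] (h₁ : Integrable (fun v => ‖v‖) m₁) (h₂ : Integrable (fun v => ‖v‖) m₂)
    (h : ∀ u, ∫ v, |⟪u, v⟫| ∂m₁ = ∫ v, |⟪u, v⟫| ∂m₂)
    (φ : EuclideanSpace ℝ (Fin n) → ℝ≥0∞) (hφ : Measurable φ)
    (hh : ∀ (t : ℝ) v, φ (t • v) = ENNReal.ofReal |t| * φ v) :
    ∫⁻ v, φ v ∂m₁ = ∫⁻ v, φ v ∂m₂ := by
  have h3 := ka_eq m₁ m₂ h₁ h₂ h
  have h4 := lintegral_ka m₁ φ hφ hh
  rw [h3, lintegral_ka m₂ φ hφ hh] at h4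
  have hq : ENNReal.ofReal (∫ s, q1 s) ≠ 0 := by
    rw [Ne, ENNReal.ofReal_eq_zero, not_le]; exact q1_pos
  exact ((ENNReal.mul_left_inj hq ENNReal.ofReal_ne_top).1 h4).symm

end Pool.Agent.H769.Uniq
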