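import Mathlib
import Pool.Agent.H769.Exist
import Pool.Agent.H769.Uniq
import Pool.Agent.H769.ProjClosure

/-! Projective supports of generating measures. -/

set_option autoImplicit false
set_option linter.unusedSimpArgs false
set_option linter.unusedSectionVars false
open MeasureTheory Set Filter Topology Module
open scoped ENNReal RealInnerProductSpace Pointwise

namespace Pool.Agent.H769.Zono

variable {n k : ℕ}

/-- conical neighbourhoods -/
def cn (y : En n) (ε : ℝ) : Set (En n) := {v | ∃ t : ℝ, t ≠ 0 ∧ ‖t • v - y‖ < ε}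

theorem cn_open (y : En n) (ε : ℝ) : IsOpen (cn y ε) := by
  have : cn y ε = ⋃ t : {t : ℝ // t ≠ 0}, (fun v : En n => ‖(t : ℝ) • v - y‖) ⁻¹' Iio ε := by
    ext v
    simp [cn]
  rw [this]
  exact isOpen_iUnion fun t => isOpen_Iio.preimage (by fun_prop)

theorem self_mem_cn (y : En n) {ε : ℝ} (hε : 0 < ε) : y ∈ cn y ε := ⟨1, one_ne_zero, by simpa⟩

theorem cn_zero {y : En n} {ε : ℝ} (hε : ε ≤ ‖y‖) : (0 : En n) ∉ cn y ε := by
  rintro ⟨t, _, h⟩
  rw [smul_zero, zero_sub, norm_neg] at h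
  linarith

theorem cn_scale {y v : En n} {ε s : ℝ} (hs : s ≠ 0) (hv : v ∈ cn y ε) : s • v ∈ cn y ε := by
  obtain ⟨t, ht, h⟩ := hv
  refine ⟨t * s⁻¹, mul_ne_zero ht (inv_ne_zero hs), ?_⟩
  rwa [smul_smul, mul_assoc, inv_mul_cancel₀ hs, mul_one]

theorem cn_sub {y y' : En n} {ε δ : ℝ} (h : ‖y' - y‖ + δ ≤ ε) : cn y' δ ⊆ cn y ε := by
  rintro v ⟨t, ht, h1⟩
  refine ⟨t, ht, ?_⟩
  have : t • v - y = (t • v - y') + (y' - y) := by abel
  rw [this]
  exact (norm_add_le _ _).trans_lt (by linarith)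

/-- the projective support, as a set of nonzero vectors -/
def Ys (m : Measure (En n)) : Set (En n) := {y | y ≠ 0 ∧ ∀ ε : ℝ, 0 < ε → 0 < m (cn y ε)}

theorem Ys_ne_zero {m : Measure (En n)} {y : En n} (h : y ∈ Ys m) : y ≠ 0 := h.1

theorem not_Ys {m : Measure (En n)} {y : En n} (hy : y ≠ 0) (h : y ∉ Ys m) :
    ∃ ε : ℝ, 0 < ε ∧ m (cn y ε) = 0 := by
  by_contra hcon
  push Not at hcon
  exact h ⟨hy, fun ε hε => pos_iff_ne_zero.2 (hcon ε hε)⟩

theorem Ys_closed (m : Measure (En n)) : IsClosed (insert 0 (Ys m)) := by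
  rw [← isOpen_compl_iff, Metric.isOpen_iff]
  intro y hy
  rw [mem_compl_iff, mem_insert_iff, not_or] at hy
  obtain ⟨ε, hε, h0⟩ := not_Ys hy.1 hy.2
  have hy' : 0 < ‖y‖ := norm_pos_iff.2 hy.1
  refine ⟨min (ε / 2) ‖y‖, lt_min (half_pos hε) hy', ?_⟩
  intro z hz
  rw [Metric.mem_ball, dist_eq_norm, lt_min_iff] at hz
  rw [mem_compl_iff, mem_insert_iff, not_or]
  constructor
  · rintro rfl
    rw [zero_sub, norm_neg] at hz
    linarith [hz.2]
  · intro h
    have h1 := h.2 (ε / 2) (half_pos hε)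
    have h2 := measure_mono (μ := m) (cn_sub (y := y) (y' := z) (ε := ε) (δ := ε / 2)
      (by linarith [hz.1]))
    rw [h0] at h2
    exact absurd (le_antisymm h2 bot_le) h1.ne'

theorem Ys_scale {m : Measure (En n)} {y : En n} (h : y ∈ Ys m) {s : ℝ} (hs : s ≠ 0) :
    s • y ∈ Ys m := by
  refine ⟨smul_ne_zero hs h.1, fun ε hε => ?_⟩
  refine (h.2 (ε / |s|) (div_pos hε (abs_pos.2 hs))).trans_le (measure_mono ?_)
  rintro v ⟨t, ht, h1⟩
  refine ⟨s * t, mul_ne_zero hs ht, ?_⟩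
  rw [mul_smul, ← smul_sub, norm_smul, Real.norm_eq_abs, mul_comm]
  rwa [lt_div_iff₀ (abs_pos.2 hs)] at h1

theorem ae_Ys (m : Measure (En n)) : ∀ᵐ v ∂m, v = 0 ∨ v ∈ Ys m := by
  have h1 : m {v | v ≠ 0 ∧ v ∉ Ys m} = 0 := by
    apply measure_null_of_locally_null
    rintro v ⟨hv0, hv⟩
    obtain ⟨ε, hε, h0⟩ := not_Ys hv0 hv
    exact ⟨cn v ε, mem_nhdsWithin_of_mem_nhds ((cn_open v ε).mem_nhds (self_mem_cn v hε)), h0⟩
  rw [ae_iff]
  convert h1 using 2
  ext v
  simp only [mem_ofPred_eq, not_or]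

theorem Ys_smul_measure (m : Measure (En n)) {c : ℝ≥0∞} (hc : c ≠ 0) : Ys (c • m) = Ys m := by
  ext y
  constructor
  · rintro ⟨h0, h1⟩
    refine ⟨h0, fun ε hε => ?_⟩
    have := h1 ε hε
    rw [Measure.smul_apply, smul_eq_mul] at this
    exact pos_iff_ne_zero.2 fun h => by simp [h] at this
  · rintro ⟨h0, h1⟩
    refine ⟨h0, fun ε hε => ?_⟩
    rw [Measure.smul_apply, smul_eq_mul]
    exact ENNReal.mul_pos hc (h1 ε hε).ne'

/-- measures with the same cosine transform have the same projective support -/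
theorem Ys_eq {m₁ m₂ : Measure (En n)} [IsFiniteMeasure m₁] [IsFiniteMeasure m₂]
    (h₁ : Integrable (fun v => ‖v‖) m₁) (h₂ : Integrable (fun v => ‖v‖) m₂)
    (h : ∀ u, ∫ v, |⟪u, v⟫| ∂m₁ = ∫ v, |⟪u, v⟫| ∂m₂) : Ys m₁ = Ys m₂ := by
  have key : ∀ (a b : Measure (En n)) [IsFiniteMeasure a] [IsFiniteMeasure b],
      Integrable (fun v => ‖v‖) a → Integrable (fun v => ‖v‖) b →
      (∀ u, ∫ v, |⟪u, v⟫| ∂a = ∫ v, |⟪u, v⟫| ∂b) → Ys a ⊆ Ys b := by
    intro a b _ _ ha hb hab y hy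
    refine ⟨hy.1, fun ε hε => ?_⟩
    wlog hεy : ε ≤ ‖y‖ generalizing ε
    · exact (this (min ε ‖y‖) (lt_min hε (norm_pos_iff.2 hy.1)) (min_le_right _ _)).trans_le
        (measure_mono (cn_sub (by simp)))
    have hmeas := (cn_open y ε).measurableSet
    have h1 := Uniq.uniq a b ha hb hab ((cn y ε).indicator fun v => ‖v‖ₑ)
      ((by fun_prop : Measurable fun v : En n => ‖v‖ₑ).indicator hmeas) (by
        intro t v
        by_cases ht : t = 0
        · subst ht
          rw [zero_smul, Set.indicator_of_notMem (cn_zero hεy)]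
          simp
        by_cases hv : v ∈ cn y ε
        · rw [Set.indicator_of_mem hv, Set.indicator_of_mem (cn_scale ht hv), enorm_smul,
            Real.enorm_eq_ofReal_abs]
        · rw [Set.indicator_of_notMem hv, Set.indicator_of_notMem, mul_zero]
          intro h2
          apply hv
          have := cn_scale (inv_ne_zero ht) h2
          rwa [smul_smul, inv_mul_cancel₀ ht, one_smul] at this)
    rw [lintegral_indicator hmeas, lintegral_indicator hmeas] at h1
    rw [pos_iff_ne_zero]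
    intro h0
    have h2 : ∫⁻ v in cn y ε, ‖v‖ₑ ∂b = 0 := by
      rw [Measure.restrict_eq_zero.2 h0, lintegral_zero_measure]
    rw [h2, lintegral_eq_zero_iff (by fun_prop)] at h1
    have h3 : ∀ᵐ v ∂a.restrict (cn y ε), v ≠ 0 := by
      rw [ae_restrict_iff' hmeas]
      exact Eventually.of_forall fun v hv h4 => cn_zero hεy (h4 ▸ hv)
    have h5 : ∀ᵐ _v ∂a.restrict (cn y ε), False := by
      filter_upwards [h1, h3] with v h6 h7
      simp only [Pi.zero_apply, enorm_eq_zero] at h6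
      exact h7 h6
    rw [ae_iff] at h5
    simp only [not_false_eq_true, ofPred_true] at h5
    rw [Measure.restrict_apply_univ] at h5
    exact absurd h5 (hy.2 ε hε).ne'
  exact Subset.antisymm (key m₁ m₂ h₁ h₂ h) (key m₂ m₁ h₂ h₁ fun u => (h u).symm)

/-- the projective support spans if the cosine transform is positive -/
theorem Ys_span {m : Measure (En n)} (h : ∀ u, u ≠ 0 → ∫ v, |⟪u, v⟫| ∂m ≠ 0) :
    Submodule.span ℝ (Ys m) = ⊤ := by
  by_contra hcon
  have h1 : (Submodule.span ℝ (Ys m))ᗮ ≠ ⊥ := fun h0 => hcon (Submodule.orthogonal_eq_bot_iff.1 h0)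
  obtain ⟨u, hu, hu0⟩ := Submodule.exists_mem_ne_zero_of_ne_bot h1
  apply h u hu0
  have h2 : ∀ᵐ v ∂m, |⟪u, v⟫| = 0 := by
    filter_upwards [ae_Ys m] with v hv
    rcases hv with hv | hv
    · simp [hv]
    · rw [Submodule.mem_orthogonal] at hu
      rw [real_inner_comm, hu v (Submodule.subset_span hv), abs_zero]
  rw [integral_congr_ae h2]
  simp

end Pool.Agent.H769.Zono
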