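import Mathlib
import Pool.Agent.H769.Cone

/-! The cross product and the generating measure of the projection body of a zonoid. -/

set_option autoImplicit false
set_option linter.unusedSimpArgs false
set_option linter.unusedSectionVars false
open MeasureTheory Set Filter Topology Module
open scoped ENNReal RealInnerProductSpace Pointwise

namespace Pool.Agent.H769.Zono

open Pool.Agent.H229R2.PB3 (hPi)
open Pool.Agent.H860R2.PP (V)

variable {n k : ℕ}

/-- generalised cross product -/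
noncomputable def cr (v : Fin k → En (k + 1)) : En (k + 1) :=
  WithLp.toLp 2 fun i => Dk (EuclideanSpace.single i 1) v

theorem Dk_linear (v : Fin k → En (k + 1)) :
    ∃ f : En (k + 1) →ₗ[ℝ] ℝ, ∀ w, f w = Dk w v :=
  ⟨{ toFun := fun w => Dk w v
     map_add' := fun a b => by unfold Dk; rw [map_add]; rfl
     map_smul' := fun c a => by unfold Dk; rw [map_smul]; rfl }, fun _ => rfl⟩

theorem inner_cr (v : Fin k → En (k + 1)) (w : En (k + 1)) : ⟪w, cr v⟫ = Dk w v := by
  obtain ⟨f, hf⟩ := Dk_linear v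
  have h1 : w = ∑ i, w i • EuclideanSpace.single i (1 : ℝ) := by
    ext j
    simp [Finset.sum_apply, PiLp.smul_apply, Pi.single_apply]
  rw [← hf]
  conv_rhs => rw [h1]
  rw [map_sum, PiLp.inner_apply]
  refine Finset.sum_congr rfl fun i _ => ?_
  rw [map_smul, hf]
  simp [cr, mul_comm]

theorem cr_cont : Continuous (cr (k := k)) := by
  unfold cr
  refine (PiLp.continuous_toLp 2 _).comp ?_
  exact continuous_pi fun i => Dk_cont' _

theorem cr_smul (t : Fin k → ℝ) (v : Fin k → En (k + 1)) :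
    cr (fun i => t i • v i) = (∏ i, t i) • cr v := by
  ext j
  have := (Dk (EuclideanSpace.single j 1)).toMultilinearMap.map_smul_univ t v
  exact this

theorem inner_cr_self (v : Fin k → En (k + 1)) (i : Fin k) : ⟪v i, cr v⟫ = 0 := by
  rw [inner_cr, Dk_apply]
  refine AlternatingMap.map_eq_zero_of_eq _ _ (i := 0) (j := i.succ) ?_ (Fin.succ_ne_zero i).symm
  simp

theorem cr_ne_zero {v : Fin k → En (k + 1)} (hv : LinearIndependent ℝ v) : cr v ≠ 0 := by
  have h1 : Submodule.span ℝ (Set.range v) ≠ ⊤ := by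
    intro h
    have h2 := finrank_span_eq_card hv
    rw [h, finrank_top, finrank_euclideanSpace, Fintype.card_fin, Fintype.card_fin] at h2
    omega
  obtain ⟨w, hw⟩ : ∃ w, w ∉ Submodule.span ℝ (Set.range v) := by
    by_contra hcon
    push Not at hcon
    exact h1 (eq_top_iff.2 fun x _ => hcon x)
  have h3 : LinearIndependent ℝ (Matrix.vecCons w v : Fin (k + 1) → En (k + 1)) :=
    linearIndependent_finCons.2 ⟨hv, hw⟩
  intro h0
  have h4 : Dk w v = 0 := by rw [← inner_cr, h0, inner_zero_right]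
  rw [Dk_apply] at h4
  have h5 := (Module.Basis.is_basis_iff_det (EuclideanSpace.basisFun (Fin (k + 1)) ℝ).toBasis).1
    ⟨h3, h3.span_eq_top_of_card_eq_finrank (by simp)⟩
  rw [h4] at h5
  exact not_isUnit_zero h5

theorem exists_smul_cr {v : Fin k → En (k + 1)} (hv : LinearIndependent ℝ v) {y : En (k + 1)}
    (hy : ∀ i, ⟪v i, y⟫ = 0) : ∃ c : ℝ, y = c • cr v := by
  have h1 : finrank ℝ (Submodule.span ℝ (Set.range v)) = k := by
    rw [finrank_span_eq_card hv, Fintype.card_fin]
  have h2 := Submodule.finrank_add_finrank_orthogonal (Submodule.span ℝ (Set.range v))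
  rw [h1, finrank_euclideanSpace, Fintype.card_fin] at h2
  have h3 : finrank ℝ (Submodule.span ℝ (Set.range v))ᗮ = 1 := by omega
  have hmem : ∀ z : En (k + 1), (∀ i, ⟪v i, z⟫ = 0) → z ∈ (Submodule.span ℝ (Set.range v))ᗮ := by
    intro z hz
    rw [Submodule.mem_orthogonal]
    intro u hu
    induction hu using Submodule.span_induction with
    | mem x hx => obtain ⟨i, rfl⟩ := hx; exact hz i
    | zero => simp
    | add x y _ _ hx hy => rw [inner_add_left, hx, hy, add_zero]
    | smul a x _ hx => rw [real_inner_smul_left, hx, mul_zero]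
  have h4 := (finrank_eq_one_iff_of_nonzero'
    (⟨cr v, hmem _ (inner_cr_self v)⟩ : (Submodule.span ℝ (Set.range v))ᗮ)
    (fun h => cr_ne_zero hv (congrArg Subtype.val h))).1 h3 ⟨y, hmem y hy⟩
  obtain ⟨c, hc⟩ := h4
  exact ⟨c, (congrArg Subtype.val hc).symm⟩

/-- the generating measure of the projection body of the zonoid generated by `m` -/
noncomputable def nx (m : Measure (En (k + 1))) : Measure (En (k + 1)) :=
  ENNReal.ofReal (2 ^ k / k.factorial) • (Measure.pi fun _ : Fin k => m).map cr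

instance nx_fin (m : Measure (En (k + 1))) [IsFiniteMeasure m] : IsFiniteMeasure (nx m) := by
  unfold nx
  have : IsFiniteMeasure ((Measure.pi fun _ : Fin k => m).map cr) := inferInstance
  exact Measure.smul_finite _ ENNReal.ofReal_ne_top

theorem nx_bdd (m : Measure (En (k + 1))) [IsFiniteMeasure m] {R : ℝ} (hR : ∀ᵐ v ∂m, ‖v‖ ≤ R) :
    ∃ C : ℝ, ∀ᵐ v ∂(nx m), ‖v‖ ≤ C := by
  have hcomp : IsCompact (Set.univ.pi fun _ : Fin k => Metric.closedBall (0 : En (k + 1)) R) :=
    isCompact_univ_pi fun _ => isCompact_closedBall _ _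
  obtain ⟨C, hC⟩ := (hcomp.image (cr_cont (k := k)).norm).bddAbove
  refine ⟨C, ?_⟩
  unfold nx
  refine Measure.ae_smul_measure ?_ _
  rw [ae_map_iff cr_cont.measurable.aemeasurable (measurableSet_le (by fun_prop) (by fun_prop))]
  filter_upwards [ae_pi (k := k) m hR] with v hv
  refine hC ⟨v, fun p _ => ?_, rfl⟩
  simpa using hv p

theorem integral_nx (m : Measure (En (k + 1))) [IsFiniteMeasure m] (w : En (k + 1)) :
    ∫ v, |⟪w, v⟫| ∂(nx m) =
      2 ^ k / k.factorial * ∫ v, |Dk w v| ∂(Measure.pi fun _ : Fin k => m) := by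
  unfold nx
  rw [integral_smul_measure, integral_map cr_cont.measurable.aemeasurable (by fun_prop),
    ENNReal.toReal_ofReal (by positivity), smul_eq_mul]
  simp_rw [inner_cr]

theorem nx_Ys_mem {m : Measure (En (k + 1))} [IsFiniteMeasure m] {v : Fin k → En (k + 1)}
    (hv : ∀ i, v i ∈ Ys m) (h0 : cr v ≠ 0) : cr v ∈ Ys (nx m) := by
  refine ⟨h0, fun ε hε => ?_⟩
  unfold nx
  rw [Measure.smul_apply, smul_eq_mul]
  have hfac : (0 : ℝ) < 2 ^ k / k.factorial := by positivity
  refine ENNReal.mul_pos (by rwa [Ne, ENNReal.ofReal_eq_zero, not_le]) ?_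
  rw [Measure.map_apply cr_cont.measurable (cn_open _ _).measurableSet]
  obtain ⟨δ, hδ, h1⟩ := Metric.continuousAt_iff.1 (cr_cont (k := k)).continuousAt ε hε
  have h2 : (Set.univ.pi fun i => cn (v i) δ) ⊆ cr ⁻¹' (cn (cr v) ε) := by
    intro x hx
    have hx' : ∀ i, ∃ t : ℝ, t ≠ 0 ∧ ‖t • x i - v i‖ < δ := fun i => hx i (mem_univ i)
    choose t ht hxt using hx'
    refine ⟨∏ i, t i, Finset.prod_ne_zero_iff.2 fun i _ => ht i, ?_⟩
    rw [← cr_smul, ← dist_eq_norm]
    apply h1
    rw [dist_pi_lt_iff hδ]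
    intro i
    rw [dist_eq_norm]
    exact hxt i
  have h3 : 0 < (Measure.pi fun _ : Fin k => m) (Set.univ.pi fun i => cn (v i) δ) := by
    rw [Measure.pi_pi, pos_iff_ne_zero, Finset.prod_ne_zero_iff]
    exact fun i _ => ((hv i).2 δ hδ).ne'
  exact (h3.trans_le (measure_mono h2)).ne'

theorem nx_Ys_approx {m : Measure (En (k + 1))} [IsFiniteMeasure m] {y : En (k + 1)}
    (hy : y ∈ Ys (nx m)) {ε : ℝ} (hε : 0 < ε) :
    ∃ v : Fin k → En (k + 1), (∀ i, v i ∈ Ys m) ∧ cr v ≠ 0 ∧ cr v ∈ cn y ε := by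
  wlog hεy : ε ≤ ‖y‖ generalizing ε
  · obtain ⟨v, h1, h2, h3⟩ := this (lt_min hε (norm_pos_iff.2 hy.1)) (min_le_right ε ‖y‖)
    exact ⟨v, h1, h2, cn_sub (by simp) h3⟩
  have h1 := hy.2 ε hε
  unfold nx at h1
  rw [Measure.smul_apply, smul_eq_mul, Measure.map_apply cr_cont.measurable
    (cn_open _ _).measurableSet] at h1
  have h2 : (Measure.pi fun _ : Fin k => m) (cr ⁻¹' cn y ε) ≠ 0 := fun h => by simp [h] at h1
  have h3 : ∃ᵐ v ∂(Measure.pi fun _ : Fin k => m), v ∈ cr ⁻¹' cn y ε := by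
    rw [frequently_ae_mem_iff]
    exact h2
  obtain ⟨v, h4, h5⟩ := (h3.and_eventually (ae_pi (k := k) m (ae_Ys m))).exists
  have h6 : cr v ≠ 0 := fun h => cn_zero hεy (h ▸ h4)
  refine ⟨v, fun i => ?_, h6, h4⟩
  rcases h5 i with h7 | h7
  · exfalso
    apply h6
    ext j
    change Dk _ v = 0
    exact (Dk _).toMultilinearMap.map_coord_zero i h7
  · exact h7

/-- the closure axioms -/
theorem closure_axioms {m m' m'' : Measure (En (k + 1))} [IsFiniteMeasure m] [IsFiniteMeasure m']
    (h1 : Ys m' = Ys (nx m)) (h2 : Ys m'' = Ys (nx m')) (h3 : Ys m'' = Ys m) :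
    ProjClosure.Cl k {x : Dual ℝ (En (k + 1)) | ∃ ξ ∈ Ys m', ∀ v, x v = ⟪ξ, v⟫} (Ys m) where
  c1 := by
    intro x hx hxX y hy0 hy
    choose ξ hξ hxξ using hxX
    have hind : LinearIndependent ℝ ξ := by
      rw [Fintype.linearIndependent_iff] at hx ⊢
      intro g hg
      apply hx
      ext v
      have := congrArg (fun z => ⟪z, v⟫) hg
      simp only [sum_inner, real_inner_smul_left, inner_zero_left] at this
      simpa [LinearMap.sum_apply, hxξ] using this
    obtain ⟨c, hc⟩ := exists_smul_cr hind (fun i => by rw [← hxξ]; exact hy i)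
    have hc0 : c ≠ 0 := by
      rintro rfl
      exact hy0 (by rw [hc, zero_smul])
    rw [hc]
    apply Ys_scale _ hc0
    rw [← h3, h2]
    exact nx_Ys_mem hξ (cr_ne_zero hind)
  c2 := by
    intro v hv hvY x hx0 hx
    set ξ : En (k + 1) := (InnerProductSpace.toDual ℝ (En (k + 1))).symm
      (LinearMap.toContinuousLinearMap x) with hξ
    have hξx : ∀ z, x z = ⟪ξ, z⟫ := by
      intro z
      rw [hξ, InnerProductSpace.toDual_symm_apply]
      rfl
    obtain ⟨c, hc⟩ := exists_smul_cr hv (y := ξ) (fun i => by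
      rw [real_inner_comm, ← hξx]; exact hx i)
    have hc0 : c ≠ 0 := by
      rintro rfl
      apply hx0
      ext z
      rw [hξx, hc, zero_smul, inner_zero_left]
      rfl
    refine ⟨ξ, ?_, hξx⟩
    rw [hc]
    apply Ys_scale _ hc0
    rw [h1]
    exact nx_Ys_mem hvY (cr_ne_zero hv)
  sc := fun y hy t ht => Ys_scale hy ht

end Pool.Agent.H769.Zono
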