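import Mathlib
import Pool.Agent.H769.Cross

/-! Projection bodies of direct sums of zonoids. -/

set_option autoImplicit false
set_option linter.unusedSimpArgs false
set_option linter.unusedSectionVars false
open MeasureTheory Set Filter Topology Module
open scoped ENNReal RealInnerProductSpace Pointwise

namespace Pool.Agent.H769.Zono

open Pool.Agent.H229R2.PB3 (hPi)
open Pool.Agent.H860R2.PP (V)

variable {k : ℕ} {ι : Type} [Fintype ι] [DecidableEq ι] {κ : ι → ℕ}

/-- the product space -/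
abbrev Pr (κ : ι → ℕ) := ∀ i, En (κ i + 1)

theorem vol_prod (J : Pr κ ≃L[ℝ] En (k + 1)) : ∃ c : ℝ, 0 < c ∧
    ∀ C : (i : ι) → Set (En (κ i + 1)), V (J '' (Set.univ.pi C)) = c * ∏ i, V (C i) := by
  have h1 : (volume.map J.symm : Measure (Pr κ)).IsAddHaarMeasure :=
    J.symm.isAddHaarMeasure_map volume
  have h2 := Measure.isAddLeftInvariant_eq_smul (volume.map J.symm : Measure (Pr κ)) (volume : Measure (Pr κ))
  set c := Measure.addHaarScalarFactor (volume.map J.symm : Measure (Pr κ)) volume with hc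
  have hcpos : 0 < c := Measure.addHaarScalarFactor_pos_of_isAddHaarMeasure _ _
  refine ⟨c, NNReal.coe_pos.2 hcpos, fun C => ?_⟩
  have h3 : volume (J '' (Set.univ.pi C)) = (volume.map J.symm : Measure (Pr κ)) (Set.univ.pi C) := by
    have h4 : (volume.map J.symm : Measure (Pr κ)) =
      volume.map J.symm.toHomeomorph.toMeasurableEquiv := rfl
    rw [h4, MeasurableEquiv.map_apply]
    congr 1
    ext x
    simp only [mem_image, mem_preimage]
    constructor
    · rintro ⟨y, hy, rfl⟩
      simpa using hy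
    · intro hx
      exact ⟨J.symm x, by simpa using hx, by simp⟩
  unfold V
  rw [h3, h2, Measure.smul_apply, volume_pi, Measure.pi_pi, ENNReal.smul_def, smul_eq_mul,
    ENNReal.toReal_mul, ENNReal.toReal_prod]
  rfl

theorem pi_convex {C : (i : ι) → Set (En (κ i + 1))} (hC : ∀ i, Convex ℝ (C i)) :
    Convex ℝ (Set.univ.pi C) := convex_pi fun i _ => hC i

theorem add_seg (C : (i : ι) → Set (En (κ i + 1))) (i : ι) (w : En (κ i + 1)) :
    (Set.univ.pi C : Set (Pr κ)) + segment ℝ (0 : Pr κ) (Pi.single i w : Pr κ) =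
      Set.univ.pi (Function.update C i (C i + segment ℝ 0 w)) := by
  ext x
  simp only [Set.mem_add, mem_univ_pi]
  constructor
  · rintro ⟨y, hy, z, hz, rfl⟩ j
    rw [segment_eq_image] at hz
    obtain ⟨θ, hθ, rfl⟩ := hz
    by_cases hj : j = i
    · subst hj
      rw [Function.update_self]
      refine ⟨y j, hy j, θ • w, ?_, ?_⟩
      · rw [segment_eq_image]; exact ⟨θ, hθ, by simp⟩
      · simp
    · rw [Function.update_of_ne hj]
      simpa [Pi.single_eq_of_ne hj] using hy j
  · intro hx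
    have hi := hx i
    rw [Function.update_self] at hi
    obtain ⟨y, hy, z, hz, hyz⟩ := hi
    refine ⟨Function.update x i y, ?_, Pi.single i z, ?_, ?_⟩
    · intro j
      by_cases hj : j = i
      · subst hj; rwa [Function.update_self]
      · rw [Function.update_of_ne hj]
        have := hx j
        rwa [Function.update_of_ne hj] at this
    · rw [segment_eq_image] at hz ⊢
      obtain ⟨θ, hθ, rfl⟩ := hz
      refine ⟨θ, hθ, ?_⟩
      simp only [smul_zero, zero_add]
      rw [Pi.single_smul]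
    · ext j : 1
      by_cases hj : j = i
      · subst hj
        rw [Pi.add_apply, Function.update_self, Pi.single_eq_same]
        exact hyz
      · rw [Pi.add_apply, Function.update_of_ne hj, Pi.single_eq_of_ne hj, add_zero]

theorem image_seg (J : Pr κ ≃L[ℝ] En (k + 1)) (x : Pr κ) :
    J '' segment ℝ 0 x = segment ℝ 0 (J x) := by
  have := image_segment ℝ (J.toLinearEquiv : Pr κ →ₗ[ℝ] En (k + 1)).toAffineMap 0 x
  simpa using this

/-- the embedding of the `i`th summand -/
noncomputable def emb (J : Pr κ ≃L[ℝ] En (k + 1)) (i : ι) : En (κ i + 1) →L[ℝ] En (k + 1) :=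
  (J : Pr κ →L[ℝ] En (k + 1)).comp (ContinuousLinearMap.single ℝ (fun i => En (κ i + 1)) i)

theorem emb_apply (J : Pr κ ≃L[ℝ] En (k + 1)) (i : ι) (w : En (κ i + 1)) :
    emb J i w = J (Pi.single i w) := rfl

theorem J_sum (J : Pr κ ≃L[ℝ] En (k + 1)) (x : Pr κ) : J x = ∑ i, emb J i (x i) := by
  conv_lhs => rw [← Finset.univ_sum_single x]
  rw [map_sum]
  rfl

/-- the direct sum of the bodies `C i` -/
def dsum (J : Pr κ ≃L[ℝ] En (k + 1)) (C : (i : ι) → Set (En (κ i + 1))) : Set (En (k + 1)) :=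
  J '' (Set.univ.pi C)

theorem dsum_convex (J : Pr κ ≃L[ℝ] En (k + 1)) {C : (i : ι) → Set (En (κ i + 1))}
    (hC : ∀ i, Convex ℝ (C i)) : Convex ℝ (dsum J C) :=
  (pi_convex hC).linear_image (J.toLinearEquiv : Pr κ →ₗ[ℝ] En (k + 1))

theorem dsum_compact (J : Pr κ ≃L[ℝ] En (k + 1)) {C : (i : ι) → Set (En (κ i + 1))}
    (hC : ∀ i, IsCompact (C i)) : IsCompact (dsum J C) :=
  (isCompact_univ_pi hC).image J.continuous

theorem dsum_nonempty (J : Pr κ ≃L[ℝ] En (k + 1)) {C : (i : ι) → Set (En (κ i + 1))}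
    (hC : ∀ i, (C i).Nonempty) : (dsum J C).Nonempty :=
  (Set.univ_pi_nonempty_iff.2 hC).image _

theorem dsum_interior (J : Pr κ ≃L[ℝ] En (k + 1)) {C : (i : ι) → Set (En (κ i + 1))}
    (hC : ∀ i, (interior (C i)).Nonempty) : (interior (dsum J C)).Nonempty := by
  unfold dsum
  have h1 : J '' (interior (Set.univ.pi C)) = interior (J '' (Set.univ.pi C)) :=
    J.toHomeomorph.image_interior _
  rw [← h1, interior_pi_set (Set.toFinite _)]
  exact (Set.univ_pi_nonempty_iff.2 hC).image _

theorem supp_dsum (J : Pr κ ≃L[ℝ] En (k + 1)) {C : (i : ι) → Set (En (κ i + 1))}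
    (hC : ∀ i, IsCompact (C i)) (hn : ∀ i, (C i).Nonempty) (u : En (k + 1)) :
    supp (dsum J C) u = ∑ i, supp (C i) ((emb J i).adjoint u) := by
  have h1 : ∀ x : Pr κ, ⟪u, J x⟫ = ∑ i, ⟪(emb J i).adjoint u, x i⟫ := by
    intro x
    rw [J_sum, inner_sum]
    refine Finset.sum_congr rfl fun i _ => ?_
    rw [ContinuousLinearMap.adjoint_inner_left]
  apply le_antisymm
  · apply supp_le (dsum_nonempty J hn)
    rintro _ ⟨x, hx, rfl⟩
    rw [h1]
    exact Finset.sum_le_sum fun i _ => le_supp (hC i) _ (hx i (mem_univ i))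
  · choose x hx hxs using fun i => exists_supp (hC i) (hn i) ((emb J i).adjoint u)
    have h2 : ∑ i, supp (C i) ((emb J i).adjoint u) = ⟪u, J x⟫ := by
      rw [h1]
      exact Finset.sum_congr rfl fun i _ => (hxs i).symm
    rw [h2]
    exact le_supp (dsum_compact J hC) u ⟨x, fun i _ => hx i, rfl⟩

theorem hPi_single (J : Pr κ ≃L[ℝ] En (k + 1)) {c : ℝ}
    (hc : ∀ C : (i : ι) → Set (En (κ i + 1)), V (J '' (Set.univ.pi C)) = c * ∏ i, V (C i))
    {C : (i : ι) → Set (En (κ i + 1))} (hCc : ∀ i, Convex ℝ (C i))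
    (hC : ∀ i, IsCompact (C i)) (i : ι) (w : En (κ i + 1)) :
    hPi (dsum J C) (emb J i w) = c * (∏ j ∈ Finset.univ.erase i, V (C j)) * hPi (C i) w := by
  have h1 := str (dsum J C) (dsum_convex J hCc) (dsum_compact J hC) (emb J i w)
  have h2 : dsum J C + segment ℝ 0 (emb J i w) =
      dsum J (Function.update C i (C i + segment ℝ 0 w)) := by
    unfold dsum
    rw [emb_apply, ← image_seg, ← add_seg]
    exact (Set.image_add (J.toLinearEquiv : Pr κ →ₗ[ℝ] En (k + 1))).symm
  rw [h2] at h1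
  unfold dsum at h1 ⊢
  rw [hc, hc, ← Finset.mul_prod_erase _ _ (Finset.mem_univ i),
    ← Finset.mul_prod_erase _ (fun i => V (C i)) (Finset.mem_univ i), Function.update_self,
    str (C i) (hCc i) (hC i)] at h1
  have h3 : ∏ j ∈ Finset.univ.erase i, V (Function.update C i (C i + segment ℝ 0 w) j) =
      ∏ j ∈ Finset.univ.erase i, V (C j) := by
    refine Finset.prod_congr rfl fun j hj => ?_
    rw [Function.update_of_ne (Finset.ne_of_mem_erase hj)]
  rw [h3] at h1
  linarith

end Pool.Agent.H769.Zono
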