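import Mathlib
import Pool.Agent.H769.Prod

/-! Additivity of the projection function of a direct sum of zonoids. -/

set_option autoImplicit false
set_option linter.unusedSimpArgs false
set_option linter.unusedSectionVars false
open MeasureTheory Set Filter Topology Module
open scoped ENNReal RealInnerProductSpace Pointwise

namespace Pool.Agent.H769.Zono

open Pool.Agent.H229R2.PB3 (hPi)
open Pool.Agent.H860R2.PP (V)

variable {k : ℕ} {ι : Type} [Fintype ι] [DecidableEq ι] {κ : ι → ℕ}

theorem sum_dim (J : Pr κ ≃L[ℝ] En (k + 1)) : ∑ i, (κ i + 1) = k + 1 := by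
  have h := J.toLinearEquiv.finrank_eq
  rw [Module.finrank_pi_fintype] at h
  simpa using h

theorem cross_loc (J : Pr κ ≃L[ℝ] En (k + 1)) (v : Fin k → En (k + 1)) (τ : Fin k → ι)
    (hv : ∀ p, v p ∈ LinearMap.range (emb J (τ p)).toLinearMap) :
    cr v = 0 ∨ ∃ i, ∀ j, j ≠ i → ∀ w, ⟪emb J j w, cr v⟫ = 0 := by
  by_cases hind : LinearIndependent ℝ v
  · right
    -- the number of vectors in each summand
    have hle : ∀ j, (Finset.univ.filter fun p => τ p = j).card ≤ κ j + 1 ∧
        ((Finset.univ.filter fun p => τ p = j).card = κ j + 1 →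
          ∀ w, ⟪emb J j w, cr v⟫ = 0) := by
      intro j
      set S := {p : Fin k // τ p = j} with hS
      have hcard : Fintype.card S = (Finset.univ.filter fun p => τ p = j).card :=
        Fintype.card_subtype _
      have hsub : LinearIndependent ℝ (fun p : S => v p.1) :=
        hind.comp _ Subtype.val_injective
      have h1 := finrank_span_eq_card hsub
      have h2 : Submodule.span ℝ (Set.range fun p : S => v p.1) ≤
          LinearMap.range (emb J j).toLinearMap := by
        rw [Submodule.span_le]
        rintro _ ⟨p, rfl⟩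
        have := hv p.1
        rw [p.2] at this
        exact this
      have h3 : finrank ℝ (LinearMap.range (emb J j).toLinearMap) ≤ κ j + 1 := by
        refine (LinearMap.finrank_range_le _).trans ?_
        simp
      have h4 := Submodule.finrank_mono h2
      refine ⟨by omega, fun h5 w => ?_⟩
      have h6 := Submodule.eq_of_le_of_finrank_le h2 (by omega)
      have h7 : emb J j w ∈ Submodule.span ℝ (Set.range fun p : S => v p.1) := by
        rw [h6]
        exact LinearMap.mem_range_self (emb J j).toLinearMap w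
      generalize emb J j w = z at h7
      induction h7 using Submodule.span_induction with
      | mem x hx => obtain ⟨p, rfl⟩ := hx; exact inner_cr_self v p.1
      | zero => simp
      | add x y _ _ hx hy => rw [inner_add_left, hx, hy, add_zero]
      | smul a x _ hx => rw [real_inner_smul_left, hx, mul_zero]
    have hsum : ∑ j, (Finset.univ.filter fun p => τ p = j).card = k := by
      have := Finset.card_eq_sum_card_fiberwise (f := τ) (s := Finset.univ) (t := Finset.univ)
        (fun x _ => Finset.mem_univ _)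
      simpa using this.symm
    have hdim := sum_dim J
    obtain ⟨i, hi⟩ : ∃ i, (Finset.univ.filter fun p => τ p = i).card < κ i + 1 := by
      by_contra hcon
      push Not at hcon
      have := Finset.sum_le_sum fun i (_ : i ∈ Finset.univ) => hcon i
      omega
    refine ⟨i, fun j hj => (hle j).2 ?_⟩
    by_contra hne
    have hlt : (Finset.univ.filter fun p => τ p = j).card < κ j + 1 :=
      lt_of_le_of_ne (hle j).1 hne
    have h1 : ∑ j ∈ Finset.univ.erase i, (Finset.univ.filter fun p => τ p = j).card <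
        ∑ j ∈ Finset.univ.erase i, (κ j + 1) :=
      Finset.sum_lt_sum (fun j _ => (hle j).1) ⟨j, Finset.mem_erase.2 ⟨hj, Finset.mem_univ _⟩, hlt⟩
    rw [← Finset.add_sum_erase _ _ (Finset.mem_univ i)] at hsum hdim
    omega
  · left
    ext j
    change Dk _ v = 0
    exact AlternatingMap.map_linearDependent _ _ hind

theorem Dk_int (m : Measure (En (k + 1))) [IsFiniteMeasure m] {R : ℝ}
    (hR : ∀ᵐ v ∂m, ‖v‖ ≤ R) (w : En (k + 1)) :
    Integrable (fun v => |Dk w v|) (Measure.pi fun _ : Fin k => m) := by
  have hcont := (Dk_cont' w).abs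
  obtain ⟨C, hC⟩ : ∃ C, ∀ v : Fin k → En (k + 1), (∀ p, ‖v p‖ ≤ R) → |Dk w v| ≤ C := by
    have hcomp : IsCompact (Set.univ.pi fun _ : Fin k => Metric.closedBall (0 : En (k + 1)) R) :=
      isCompact_univ_pi fun _ => isCompact_closedBall _ _
    obtain ⟨C, hC⟩ := (hcomp.image hcont).bddAbove
    refine ⟨C, fun v hv => hC ⟨v, ?_, rfl⟩⟩
    intro p _
    simpa using hv p
  refine Integrable.mono' (integrable_const C) hcont.measurable.aestronglyMeasurable ?_
  filter_upwards [ae_pi (k := k) m hR] with v hv
  rw [Real.norm_eq_abs, abs_abs]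
  exact hC v hv

/-- additivity of the projection function over the summands -/
theorem hPi_add (J : Pr κ ≃L[ℝ] En (k + 1)) {K : Set (En (k + 1))} (hKc : Convex ℝ K)
    (hK : IsCompact K) (hint : (interior K).Nonempty)
    {m : Measure (En (k + 1))} [IsFiniteMeasure m] {R : ℝ}
    (hR : ∀ᵐ v ∂m, ‖v‖ ≤ R) (h : HasGen m K)
    (hm : ∀ᵐ v ∂m, ∃ i, v ∈ LinearMap.range (emb J i).toLinearMap) (w : Pr κ) :
    hPi K (J w) = ∑ i, hPi K (emb J i (w i)) := by
  simp_rw [hPi_gen m hR hKc hK hint h]
  rw [← Finset.mul_sum]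
  congr 1
  rw [← integral_finsetSum _ fun i _ => Dk_int m hR _]
  refine integral_congr_ae ?_
  filter_upwards [ae_pi (k := k) m hm] with v hv
  choose τ hτ using hv
  simp_rw [← inner_cr]
  rcases cross_loc J v τ hτ with h0 | ⟨i, hi⟩
  · simp [h0]
  · rw [J_sum, sum_inner, Finset.sum_eq_single i, Finset.sum_eq_single i]
    · intro j _ hj
      rw [hi j hj, abs_zero]
    · simp
    · intro j _ hj
      exact hi j hj _
    · simp

/-- zonoid with a bounded generating measure -/
def IsZon {n : ℕ} (C : Set (En n)) : Prop :=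
  ∃ m : Measure (En n), IsFiniteMeasure m ∧ (∃ R : ℝ, ∀ᵐ v ∂m, ‖v‖ ≤ R) ∧ HasGen m C

theorem gen_dsum (J : Pr κ ≃L[ℝ] En (k + 1)) {C : (i : ι) → Set (En (κ i + 1))}
    (hC : ∀ i, IsCompact (C i)) (hn : ∀ i, (C i).Nonempty) (hz : ∀ i, IsZon (C i)) :
    ∃ m : Measure (En (k + 1)), IsFiniteMeasure m ∧ (∃ R : ℝ, ∀ᵐ v ∂m, ‖v‖ ≤ R) ∧
      HasGen m (dsum J C) ∧ ∀ᵐ v ∂m, ∃ i, v ∈ LinearMap.range (emb J i).toLinearMap := by
  choose m hm hR hg using hz
  choose R hR using hR
  have hmeas : ∀ i, Measurable (emb J i) := fun i => (emb J i).continuous.measurable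
  have hfin : IsFiniteMeasure (∑ i, (m i).map (emb J i)) := inferInstance
  refine ⟨∑ i, (m i).map (emb J i), hfin, ?_, ?_, ?_⟩
  · refine ⟨∑ i, ‖emb J i‖ * |R i|, ?_⟩
    rw [← Measure.sum_fintype, Measure.ae_sum_iff]
    intro i
    rw [ae_map_iff (hmeas i).aemeasurable (measurableSet_le (by fun_prop) (by fun_prop))]
    filter_upwards [hR i] with v hv
    calc ‖emb J i v‖ ≤ ‖emb J i‖ * ‖v‖ := (emb J i).le_opNorm v
      _ ≤ ‖emb J i‖ * |R i| := by gcongr; exact hv.trans (le_abs_self _)
      _ ≤ ∑ i, ‖emb J i‖ * |R i| := Finset.single_le_sum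
          (f := fun i => ‖emb J i‖ * |R i|) (fun i _ => by positivity) (Finset.mem_univ i)
  · intro u
    rw [supp_dsum J hC hn, integral_finsetSum_measure]
    · refine Finset.sum_congr rfl fun i _ => ?_
      rw [hg i, integral_map (hmeas i).aemeasurable (by fun_prop)]
      simp_rw [ContinuousLinearMap.adjoint_inner_left]
    · intro i _
      rw [integrable_map_measure (by fun_prop) (hmeas i).aemeasurable]
      refine Integrable.mono' (integrable_const (‖u‖ * (‖emb J i‖ * |R i|)))
        (Continuous.aestronglyMeasurable (by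
          have := (emb J i).continuous
          fun_prop)) ?_
      filter_upwards [hR i] with v hv
      rw [Function.comp_apply, Real.norm_eq_abs, abs_abs]
      refine (abs_real_inner_le_norm _ _).trans ?_
      gcongr
      exact ((emb J i).le_opNorm v).trans (by gcongr; exact hv.trans (le_abs_self _))
  · rw [← Measure.sum_fintype, Measure.ae_sum_iff]
    intro i
    have hcl : MeasurableSet {v | ∃ i, v ∈ LinearMap.range (emb J i).toLinearMap} := by
      have : {v | ∃ i, v ∈ LinearMap.range (emb J i).toLinearMap} =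
          ⋃ i, (LinearMap.range (emb J i).toLinearMap : Set (En (k + 1))) := by
        ext v; simp
      rw [this]
      exact MeasurableSet.iUnion fun i =>
        (Submodule.closed_of_finiteDimensional _).measurableSet
    rw [ae_map_iff (hmeas i).aemeasurable hcl]
    exact Eventually.of_forall fun v => ⟨i, LinearMap.mem_range_self (emb J i).toLinearMap v⟩

/-- **The projection function of a direct sum of zonoids.** -/
theorem hPi_dsum (J : Pr κ ≃L[ℝ] En (k + 1)) {c : ℝ}
    (hc : ∀ C : (i : ι) → Set (En (κ i + 1)), V (J '' (Set.univ.pi C)) = c * ∏ i, V (C i))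
    {C : (i : ι) → Set (En (κ i + 1))} (hCc : ∀ i, Convex ℝ (C i))
    (hC : ∀ i, IsCompact (C i)) (hint : ∀ i, (interior (C i)).Nonempty) (hz : ∀ i, IsZon (C i))
    (w : Pr κ) : hPi (dsum J C) (J w) =
      ∑ i, c * (∏ j ∈ Finset.univ.erase i, V (C j)) * hPi (C i) (w i) := by
  obtain ⟨m, hm, ⟨R, hR⟩, hg, hloc⟩ := gen_dsum J hC (fun i => (hint i).mono interior_subset) hz
  rw [hPi_add J (dsum_convex J hCc) (dsum_compact J hC) (dsum_interior J hint) hR hg hloc]
  exact Finset.sum_congr rfl fun i _ => hPi_single J hc hCc hC i (w i)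

end Pool.Agent.H769.Zono
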