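import Mathlib
import Pool.Agent.H769.ProdGen

/-! Decomposition of the solutions of `Π Π K = λ K`. -/

set_option autoImplicit false
set_option linter.unusedSimpArgs false
set_option linter.unusedSectionVars false
open MeasureTheory Set Filter Topology Module
open scoped ENNReal RealInnerProductSpace Pointwise

namespace Pool.Agent.H769.Zono

open Pool.Agent.H229R2.PB3 (hPi)
open Pool.Agent.H860R2.PP (V)

variable {n k : ℕ}

/-- a centred solution `K` with projection body `P` and factor `lam` -/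
structure Sol (K P : Set (En (k + 1))) (lam : ℝ) : Prop where
  Kc : Convex ℝ K
  Kk : IsCompact K
  Ki : (interior K).Nonempty
  Pc : Convex ℝ P
  Pk : IsCompact P
  Pi : (interior P).Nonempty
  hP : ∀ u, supp P u = hPi K u
  hQ : ∀ u, hPi P u = lam * supp K u
  pos : 0 < lam

theorem Sol.Kn {K P : Set (En (k + 1))} {lam : ℝ} (h : Sol K P lam) : K.Nonempty :=
  h.Ki.mono interior_subset

theorem Sol.Pn {K P : Set (En (k + 1))} {lam : ℝ} (h : Sol K P lam) : P.Nonempty :=
  h.Pi.mono interior_subset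

theorem Sol.zonK {K P : Set (En (k + 1))} {lam : ℝ} (h : Sol K P lam) : IsZon K := by
  obtain ⟨m, hm, hR, hg⟩ := exists_gen h.Pc h.Pk h.Pi
  refine ⟨ENNReal.ofReal lam⁻¹ • m, Measure.smul_finite _ ENNReal.ofReal_ne_top,
    ⟨1, Measure.ae_smul_measure hR _⟩, fun u => ?_⟩
  rw [integral_smul_measure, ← hg u, h.hQ u, ENNReal.toReal_ofReal (inv_pos.2 h.pos).le,
    smul_eq_mul, ← mul_assoc, inv_mul_cancel₀ h.pos.ne', one_mul]

theorem Sol.zonP {K P : Set (En (k + 1))} {lam : ℝ} (h : Sol K P lam) : IsZon P := by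
  obtain ⟨m, hm, hR, hg⟩ := exists_gen h.Kc h.Kk h.Ki
  exact ⟨m, hm, ⟨1, hR⟩, fun u => by rw [h.hP u, hg u]⟩

theorem supp_image {n' : ℕ} {K : Set (En n)} (hK : IsCompact K) (hn : K.Nonempty)
    (T : En n →L[ℝ] En n') (w : En n') : supp (T '' K) w = supp K (T.adjoint w) := by
  apply le_antisymm
  · apply supp_le (hn.image _)
    rintro _ ⟨x, hx, rfl⟩
    rw [← ContinuousLinearMap.adjoint_inner_left]
    exact le_supp hK _ hx
  · apply supp_le hn
    intro x hx
    rw [ContinuousLinearMap.adjoint_inner_left]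
    exact le_supp (hK.image T.continuous) _ ⟨x, hx, rfl⟩

/-- pushing forward a generating measure -/
theorem gen_image {n' : ℕ} {K : Set (En n)} (hK : IsCompact K) (hn : K.Nonempty)
    (T : En n →L[ℝ] En n') {m : Measure (En n)} (h : HasGen m K) :
    HasGen (m.map T) (T '' K) := by
  intro u
  rw [supp_image hK hn, h, integral_map T.continuous.measurable.aemeasurable (by fun_prop)]
  simp_rw [ContinuousLinearMap.adjoint_inner_left]

theorem zon_image {n' : ℕ} {K : Set (En n)} (hK : IsCompact K) (hn : K.Nonempty)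
    (T : En n →L[ℝ] En n') (h : IsZon K) : IsZon (T '' K) := by
  obtain ⟨m, hm, ⟨R, hR⟩, hg⟩ := h
  refine ⟨m.map T, inferInstance, ⟨‖T‖ * |R|, ?_⟩, gen_image hK hn T hg⟩
  rw [ae_map_iff T.continuous.measurable.aemeasurable (measurableSet_le (by fun_prop) (by fun_prop))]
  filter_upwards [hR] with v hv
  exact (T.le_opNorm v).trans (by gcongr; exact hv.trans (le_abs_self _))

theorem Ys_image {n' : ℕ} (T : En n →L[ℝ] En n') {m : Measure (En n)} {y : En n} (hy : y ∈ Ys m)
    (h0 : T y ≠ 0) : T y ∈ Ys (m.map T) := by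
  refine ⟨h0, fun ε hε => ?_⟩
  rw [Measure.map_apply T.continuous.measurable (cn_open _ _).measurableSet]
  refine (hy.2 (ε / (‖T‖ + 1)) (by positivity)).trans_le (measure_mono ?_)
  rintro v ⟨t, ht, h1⟩
  refine ⟨t, ht, ?_⟩
  rw [← map_smul, ← map_sub]
  rw [lt_div_iff₀ (by positivity)] at h1
  calc ‖T (t • v - y)‖ ≤ ‖T‖ * ‖t • v - y‖ := T.le_opNorm _
    _ ≤ ‖t • v - y‖ * (‖T‖ + 1) := by nlinarith [norm_nonneg (t • v - y)]
    _ < ε := h1

/-- the coordinate isomorphism attached to a basis and a partition of its index set -/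
theorem exists_J (b : Basis (Fin (k + 1)) ℝ (En (k + 1))) (r : Setoid (Fin (k + 1))) :
    ∃ (ι : Type) (_ : Fintype ι) (_ : DecidableEq ι) (cl : Fin (k + 1) → ι) (κ : ι → ℕ)
      (J : Pr κ ≃L[ℝ] En (k + 1)),
      (∀ i j, cl i = cl j ↔ r i j) ∧
      (∀ q v, (∀ j, b.coord j v ≠ 0 → cl j = q) → v ∈ LinearMap.range (emb J q).toLinearMap) ∧
      (∀ q z j, b.coord j (emb J q z) ≠ 0 → cl j = q) ∧
      ∀ q, κ q + 1 = {j | cl j = q}.ncard := by
  classical
  let ι := Quotient r
  let cl : Fin (k + 1) → ι := Quotient.mk r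
  have hcard : ∀ q : ι, 0 < Fintype.card {j // cl j = q} := by
    intro q
    obtain ⟨j, hj⟩ := Quotient.exists_rep q
    exact Fintype.card_pos_iff.2 ⟨⟨j, hj⟩⟩
  let κ : ι → ℕ := fun q => Fintype.card {j // cl j = q} - 1
  have hκ : ∀ q, Fintype.card {j // cl j = q} = κ q + 1 := fun q => by
    have := hcard q
    simp only [κ]
    omega
  let e : ∀ q : ι, {j // cl j = q} ≃ Fin (κ q + 1) := fun q => Fintype.equivFinOfCardEq (hκ q)
  let f : Pr κ →ₗ[ℝ] En (k + 1) :=
    { toFun := fun x => ∑ j, (x (cl j) (e (cl j) ⟨j, rfl⟩)) • b j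
      map_add' := fun x y => by
        rw [← Finset.sum_add_distrib]
        exact Finset.sum_congr rfl fun j _ => by rw [← add_smul]; rfl
      map_smul' := fun c x => by
        rw [RingHom.id_apply, Finset.smul_sum]
        exact Finset.sum_congr rfl fun j _ => by rw [smul_smul]; rfl }
  have hf : ∀ x j, b.coord j (f x) = x (cl j) (e (cl j) ⟨j, rfl⟩) := by
    intro x j
    change b.coord j (∑ j, (x (cl j) (e (cl j) ⟨j, rfl⟩)) • b j) = _
    rw [map_sum, Finset.sum_eq_single j]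
    · simp
    · intro i _ hi
      simp [Basis.coord_apply, Finsupp.single_apply, hi]
    · simp
  have hzero : ∀ (x : Pr κ) (q : ι), (∀ j, cl j = q → b.coord j (f x) = 0) → x q = 0 := by
    intro x q h
    ext i
    obtain ⟨⟨j, hj⟩, hji⟩ : ∃ y, (e q).symm i = y := ⟨_, rfl⟩
    subst hj
    have h1 := h j rfl
    rw [hf] at h1
    have h2 : i = e (cl j) ⟨j, rfl⟩ := by rw [← hji, Equiv.apply_symm_apply]
    rw [h2, h1]
    rfl
  have hinj : Function.Injective f := by
    rw [← LinearMap.ker_eq_bot, LinearMap.ker_eq_bot']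
    intro x hx
    ext q : 1
    exact hzero x q fun j _ => by rw [hx, map_zero]
  have hdim : finrank ℝ (Pr κ) = finrank ℝ (En (k + 1)) := by
    rw [Module.finrank_pi_fintype]
    simp only [finrank_euclideanSpace, Fintype.card_fin]
    simp_rw [← hκ]
    rw [← Fintype.card_sigma, Fintype.card_congr (Equiv.sigmaFiberEquiv cl), Fintype.card_fin]
  let J : Pr κ ≃L[ℝ] En (k + 1) := (LinearMap.linearEquivOfInjective f hinj hdim).toContinuousLinearEquiv
  have hJ : ∀ x, J x = f x := fun x => rfl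
  refine ⟨ι, inferInstance, inferInstance, cl, κ, J, ?_, ?_, ?_, ?_⟩
  · intro i j
    exact Quotient.eq (r := r)
  · intro q v hv
    refine ⟨(J.symm v) q, ?_⟩
    change J (Pi.single q ((J.symm v) q)) = v
    have h1 : Pi.single q ((J.symm v) q) = J.symm v := by
      ext q' : 1
      by_cases hq : q' = q
      · subst hq; rw [Pi.single_eq_same]
      · rw [Pi.single_eq_of_ne hq]
        symm
        apply hzero
        intro j hj
        rw [← hJ, ContinuousLinearEquiv.apply_symm_apply]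
        by_contra hcon
        exact hq (hj.symm.trans (hv j hcon))
    rw [h1, ContinuousLinearEquiv.apply_symm_apply]
  · intro q z j hj
    rw [emb_apply, hJ, hf] at hj
    by_contra hcon
    apply hj
    rw [Pi.single_eq_of_ne hcon]
    rfl
  · intro q
    rw [← hκ, Set.ncard_eq_toFinset_card', Fintype.card_subtype]
    congr 1
    ext j
    simp

theorem norm_int {m : Measure (En n)} [IsFiniteMeasure m] {R : ℝ} (hR : ∀ᵐ v ∂m, ‖v‖ ≤ R) :
    Integrable (fun v : En n => ‖v‖) m := by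
  refine Integrable.mono' (integrable_const R) (by fun_prop) ?_
  filter_upwards [hR] with v hv
  rwa [norm_norm]

theorem inner_int {m : Measure (En n)} [IsFiniteMeasure m] {R : ℝ} (hR : ∀ᵐ v ∂m, ‖v‖ ≤ R)
    (u : En n) : Integrable (fun v : En n => |⟪u, v⟫|) m := by
  refine Integrable.mono' ((norm_int hR).const_mul ‖u‖) (by fun_prop) ?_
  filter_upwards with v
  rw [Real.norm_eq_abs, abs_abs]
  exact abs_real_inner_le_norm u v

theorem gen_nx {K P : Set (En (k + 1))} (hKc : Convex ℝ K) (hK : IsCompact K)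
    (hint : (interior K).Nonempty) (hP : ∀ u, supp P u = hPi K u) {m : Measure (En (k + 1))}
    [IsFiniteMeasure m] {R : ℝ} (hR : ∀ᵐ v ∂m, ‖v‖ ≤ R) (h : HasGen m K) : HasGen (nx m) P := by
  intro u
  rw [hP, integral_nx, hPi_gen m hR hKc hK hint h]

theorem Sol.Ys_eq {K P : Set (En (k + 1))} {lam : ℝ} (h : Sol K P lam)
    {m : Measure (En (k + 1))} [IsFiniteMeasure m] {R : ℝ} (hR : ∀ᵐ v ∂m, ‖v‖ ≤ R)
    (hg : HasGen m K) : Ys (nx (nx m)) = Ys m := by
  have h1 := gen_nx h.Kc h.Kk h.Ki h.hP hR hg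
  obtain ⟨R1, hR1⟩ := nx_bdd m hR
  obtain ⟨R2, hR2⟩ := nx_bdd (nx m) hR1
  have hlam : ENNReal.ofReal lam⁻¹ ≠ 0 := by
    rw [Ne, ENNReal.ofReal_eq_zero, not_le]; exact inv_pos.2 h.pos
  rw [← Ys_smul_measure (nx (nx m)) hlam]
  have hfin : IsFiniteMeasure (ENNReal.ofReal lam⁻¹ • nx (nx m)) :=
    Measure.smul_finite _ ENNReal.ofReal_ne_top
  refine Zono.Ys_eq (norm_int (Measure.ae_smul_measure hR2 _)) (norm_int hR) fun u => ?_
  rw [integral_smul_measure, integral_nx, ← hPi_gen (nx m) hR1 h.Pc h.Pk h.Pi h1, ← hg u, h.hQ u,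
    ENNReal.toReal_ofReal (inv_pos.2 h.pos).le, smul_eq_mul, ← mul_assoc,
    inv_mul_cancel₀ h.pos.ne', one_mul]

theorem gen_pos {K : Set (En n)} (hK : IsCompact K) (hint : (interior K).Nonempty)
    {m : Measure (En n)} (h : HasGen m K) (u : En n) (hu : u ≠ 0) : ∫ v, |⟪u, v⟫| ∂m ≠ 0 := by
  obtain ⟨ρ, hρ, hl⟩ := h.lower hK hint
  have h1 := hl u
  have h2 : 0 < ρ * ‖u‖ := mul_pos hρ (norm_pos_iff.2 hu)
  rw [← h u]
  linarith

/-- **Decomposition of solutions.** -/
theorem Sol.decomp {K P : Set (En (k + 1))} {lam : ℝ} (h : Sol K P lam) :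
    ∃ (ι : Type) (_ : Fintype ι) (_ : DecidableEq ι) (κ : ι → ℕ) (J : Pr κ ≃L[ℝ] En (k + 1))
      (C : (i : ι) → Set (En (κ i + 1))), K = dsum J C ∧
      ∀ i, Convex ℝ (C i) ∧ IsCompact (C i) ∧ (interior (C i)).Nonempty ∧ IsZon (C i) ∧
        (3 ≤ κ i + 1 → ∃ m : Measure (En (κ i + 1)), IsFiniteMeasure m ∧
          (∃ R : ℝ, ∀ᵐ v ∂m, ‖v‖ ≤ R) ∧ HasGen m (C i) ∧ ∀ z, z ≠ 0 → z ∈ Ys m) := by
  obtain ⟨m, hm, ⟨R, hR⟩, hg⟩ := h.zonK
  have hcl := closure_axioms (m := m) (m' := nx m) (m'' := nx (nx m)) rfl rfl (h.Ys_eq hR hg)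
  have hspan := Ys_span fun u hu => gen_pos h.Kk h.Ki hg u hu
  obtain ⟨b, r, hb, hsupp, hfull⟩ := ProjClosure.structure_thm hcl (by simp) hspan (Ys_closed m)
  obtain ⟨ι, i1, i2, cl, κ, J, hclr, hJ1, hJ2, hJ3⟩ := exists_J b r
  set T : ∀ i, En (k + 1) →L[ℝ] En (κ i + 1) := fun i =>
    (ContinuousLinearMap.proj (R := ℝ) (φ := fun i => En (κ i + 1)) i).comp
      (J.symm : En (k + 1) →L[ℝ] Pr κ) with hT
  have hTa : ∀ i v, T i v = J.symm v i := fun i v => rfl
  have hTJ : ∀ i z, T i (emb J i z) = z := by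
    intro i z
    rw [hTa, emb_apply, ContinuousLinearEquiv.symm_apply_apply, Pi.single_eq_same]
  have hTJ' : ∀ i j z, j ≠ i → T i (emb J j z) = 0 := by
    intro i j z hij
    rw [hTa, emb_apply, ContinuousLinearEquiv.symm_apply_apply, Pi.single_eq_of_ne (Ne.symm hij)]
  have hCk : ∀ i, IsCompact (T i '' K) := fun i => h.Kk.image (T i).continuous
  have hCn : ∀ i, (T i '' K).Nonempty := fun i => h.Kn.image _
  have hCc : ∀ i, Convex ℝ (T i '' K) := fun i => h.Kc.linear_image (T i).toLinearMap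
  have hCi : ∀ i, (interior (T i '' K)).Nonempty := by
    intro i
    have hsurj : Function.Surjective (T i) := fun z => ⟨emb J i z, hTJ i z⟩
    have hopen : IsOpenMap (T i) := (T i).isOpenMap hsurj
    exact (h.Ki.image (T i)).mono (hopen.image_interior_subset K)
  have hloc : ∀ᵐ v ∂m, ∃ i, v ∈ LinearMap.range (emb J i).toLinearMap := by
    filter_upwards [ae_Ys m] with v hv
    rcases hv with hv | hv
    · -- the zero vector
      obtain ⟨i⟩ : Nonempty ι := ⟨cl 0⟩
      exact ⟨i, by rw [hv]; exact Submodule.zero_mem _⟩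
    · obtain ⟨j0, hj0⟩ : ∃ j, b.coord j v ≠ 0 := by
        by_contra hcon
        push Not at hcon
        exact hv.1 (b.ext_elem fun i => by simpa using hcon i)
      refine ⟨cl j0, hJ1 _ v fun j hj => ?_⟩
      exact (hclr j j0).2 (hsupp v hv j j0 hj hj0)
  refine ⟨ι, i1, i2, κ, J, fun i => T i '' K, ?_, fun i => ⟨hCc i, hCk i, hCi i,
    zon_image h.Kk h.Kn (T i) ⟨m, hm, ⟨R, hR⟩, hg⟩, fun h3 => ?_⟩⟩
  · refine eq_of_supp h.Kc h.Kk h.Kn (dsum_convex J hCc) (dsum_compact J hCk)
      (dsum_nonempty J hCn) fun u => ?_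
    rw [supp_dsum J hCk hCn, hg u]
    have h1 : ∀ i, supp (T i '' K) ((emb J i).adjoint u) =
        ∫ v, |⟪u, emb J i (T i v)⟫| ∂m := by
      intro i
      rw [supp_image h.Kk h.Kn, hg]
      simp_rw [ContinuousLinearMap.adjoint_inner_left]
    simp_rw [h1]
    rw [← integral_finsetSum]
    · refine integral_congr_ae ?_
      filter_upwards [hloc] with v hv
      obtain ⟨i, z, hz⟩ := hv
      change emb J i z = v at hz
      subst hz
      rw [Finset.sum_eq_single i]
      · rw [hTJ]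
      · intro j _ hj
        rw [hTJ' j i z (Ne.symm hj), map_zero, inner_zero_right, abs_zero]
      · simp
    · intro i _
      have h2 : ∀ v, |⟪u, emb J i (T i v)⟫| = |⟪(T i).adjoint ((emb J i).adjoint u), v⟫| := by
        intro v
        rw [ContinuousLinearMap.adjoint_inner_left, ContinuousLinearMap.adjoint_inner_left]
      simp_rw [h2]
      exact inner_int hR _
  · refine ⟨m.map (T i), inferInstance, ⟨‖T i‖ * |R|, ?_⟩, gen_image h.Kk h.Kn (T i) hg, ?_⟩
    · rw [ae_map_iff (T i).continuous.measurable.aemeasurable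
        (measurableSet_le (by fun_prop) (by fun_prop))]
      filter_upwards [hR] with v hv
      exact ((T i).le_opNorm v).trans (by gcongr; exact hv.trans (le_abs_self _))
    · intro z hz
      have hz' : emb J i z ≠ 0 := by
        intro h0
        apply hz
        rw [← hTJ i z, h0, map_zero]
      obtain ⟨j0, hj0⟩ : ∃ j, b.coord j (emb J i z) ≠ 0 := by
        by_contra hcon
        push Not at hcon
        exact hz' (b.ext_elem fun i => by simpa using hcon i)
      have hcj0 := hJ2 i z j0 hj0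
      have hset : {j | r j0 j} = {j | cl j = i} := by
        ext j
        simp only [mem_ofPred_eq]
        rw [← hclr, hcj0]
        exact eq_comm
      have h4 : emb J i z ∈ Ys m := by
        refine hfull j0 (by rw [hset, ← hJ3 i]; exact h3) _ hz' fun j hj => ?_
        rw [← hclr, hcj0, hJ2 i z j hj]
      have h5 := Ys_image (T i) h4 (by rw [hTJ]; exact hz)
      rwa [hTJ] at h5

end Pool.Agent.H769.Zono
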