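import Mathlib
import Pool.Agent.H769.Decomp

/-! Summands of solutions are solutions, and conversely. -/

set_option autoImplicit false
set_option linter.unusedSimpArgs false
set_option linter.unusedSectionVars false
open MeasureTheory Set Filter Topology Module
open scoped ENNReal RealInnerProductSpace Pointwise

namespace Pool.Agent.H769.Zono

open Pool.Agent.H229R2.PB3 (hPi)
open Pool.Agent.H860R2.PP (V)

variable {n k : ℕ} {ι : Type} [Fintype ι] [DecidableEq ι] {κ : ι → ℕ}

theorem V_pos {K : Set (En n)} (hK : IsCompact K) (hint : (interior K).Nonempty) : 0 < V K := by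
  unfold V
  rw [ENNReal.toReal_pos_iff]
  exact ⟨(isOpen_interior.measure_pos volume hint).trans_le (measure_mono interior_subset),
    hK.measure_lt_top⟩

theorem supp_zero {K : Set (En n)} (hn : K.Nonempty) : supp K 0 = 0 := by
  unfold supp
  obtain ⟨x, hx⟩ := hn
  have : (fun x : En n => ⟪(0 : En n), x⟫) '' K = {0} := by
    ext t
    simp only [inner_zero_left, mem_image, mem_singleton_iff]
    constructor
    · rintro ⟨_, _, rfl⟩; rfl
    · rintro rfl; exact ⟨x, hx, rfl⟩
  rw [this, csSup_singleton]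

theorem inner_J (J : Pr κ ≃L[ℝ] En (k + 1)) (u : En (k + 1)) (x : Pr κ) :
    ⟪u, J x⟫ = ∑ i, ⟪(emb J i).adjoint u, x i⟫ := by
  rw [J_sum, inner_sum]
  refine Finset.sum_congr rfl fun i _ => ?_
  rw [ContinuousLinearMap.adjoint_inner_left]

/-- the dual isomorphism -/
theorem exists_dual (J : Pr κ ≃L[ℝ] En (k + 1)) : ∃ J' : Pr κ ≃L[ℝ] En (k + 1),
    (∀ y i, (emb J i).adjoint (J' y) = y i) ∧ ∀ x i, (emb J' i).adjoint (J x) = x i := by
  let A : En (k + 1) →ₗ[ℝ] Pr κ := LinearMap.pi fun i => ((emb J i).adjoint).toLinearMap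
  have hA : ∀ u i, A u i = (emb J i).adjoint u := fun u i => rfl
  have hinj : Function.Injective A := by
    rw [← LinearMap.ker_eq_bot, LinearMap.ker_eq_bot']
    intro u hu
    have h1 : ⟪u, J (J.symm u)⟫ = 0 := by
      rw [inner_J]
      refine Finset.sum_eq_zero fun i _ => ?_
      rw [← hA, hu]
      simp
    rw [ContinuousLinearEquiv.apply_symm_apply] at h1
    exact inner_self_eq_zero.1 h1
  let B : En (k + 1) ≃L[ℝ] Pr κ :=
    (LinearMap.linearEquivOfInjective A hinj J.symm.toLinearEquiv.finrank_eq).toContinuousLinearEquiv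
  have hB : ∀ u i, B u i = (emb J i).adjoint u := fun u i => rfl
  have h1 : ∀ y i, (emb J i).adjoint (B.symm y) = y i := by
    intro y i
    rw [← hB, ContinuousLinearEquiv.apply_symm_apply]
  refine ⟨B.symm, h1, fun x i => ?_⟩
  apply ext_inner_right ℝ
  intro z
  rw [ContinuousLinearMap.adjoint_inner_left, real_inner_comm, emb_apply, inner_J,
    Finset.sum_eq_single i]
  · rw [h1, Pi.single_eq_same, real_inner_comm]
  · intro j _ hj
    rw [h1, Pi.single_eq_of_ne hj, inner_zero_left]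
  · simp

theorem Sol.summand {J : Pr κ ≃L[ℝ] En (k + 1)} {C : (i : ι) → Set (En (κ i + 1))}
    {P : Set (En (k + 1))} {lam : ℝ} (h : Sol (dsum J C) P lam)
    (hCc : ∀ i, Convex ℝ (C i)) (hC : ∀ i, IsCompact (C i)) (hCi : ∀ i, (interior (C i)).Nonempty)
    (hz : ∀ i, IsZon (C i)) (i : ι) : ∃ (Pi : Set (En (κ i + 1))) (li : ℝ), Sol (C i) Pi li := by
  obtain ⟨c, hc0, hc⟩ := vol_prod J
  obtain ⟨J', hJ1, hJ2⟩ := exists_dual J
  obtain ⟨c', hc0', hc'⟩ := vol_prod J'
  have hCn : ∀ i, (C i).Nonempty := fun i => (hCi i).mono interior_subset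
  set α : ι → ℝ := fun i => c * ∏ j ∈ Finset.univ.erase i, V (C j) with hα
  have hαp : ∀ i, 0 < α i := fun i =>
    mul_pos hc0 (Finset.prod_pos fun j _ => V_pos (hC j) (hCi j))
  set P' : (i : ι) → Set (En (κ i + 1)) := fun i => (emb J i).adjoint '' P with hP'
  have hsurj : ∀ i, Function.Surjective ((emb J i).adjoint) := fun i z =>
    ⟨J' (Pi.single i z), by rw [hJ1, Pi.single_eq_same]⟩
  have hPc : ∀ i, Convex ℝ (P' i) := fun i => h.Pc.linear_image ((emb J i).adjoint).toLinearMap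
  have hPk : ∀ i, IsCompact (P' i) := fun i => h.Pk.image ((emb J i).adjoint).continuous
  have hPn : ∀ i, (P' i).Nonempty := fun i => h.Pn.image _
  have hPi : ∀ i, (interior (P' i)).Nonempty := fun i =>
    (h.Pi.image ((emb J i).adjoint)).mono
      (((emb J i).adjoint.isOpenMap (hsurj i)).image_interior_subset P)
  have hPz : ∀ i, IsZon (P' i) := fun i => zon_image h.Pk h.Pn _ h.zonP
  have hPs : ∀ i w, supp (P' i) w = α i * Pool.Agent.H229R2.PB3.hPi (C i) w := by
    intro i w
    rw [hP', supp_image h.Pk h.Pn, ContinuousLinearMap.adjoint_adjoint, h.hP,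
      hPi_single J hc hCc hC]
  have hPd : P = dsum J' P' := by
    refine eq_of_supp h.Pc h.Pk h.Pn (dsum_convex J' hPc) (dsum_compact J' hPk)
      (dsum_nonempty J' hPn) fun u => ?_
    obtain ⟨w, rfl⟩ := J.surjective u
    rw [supp_dsum J' hPk hPn, h.hP, hPi_dsum J hc hCc hC hCi hz]
    refine Finset.sum_congr rfl fun i _ => ?_
    rw [hJ2, hPs]
  set β : ℝ := c' * ∏ j ∈ Finset.univ.erase i, V (P' j) with hβ
  have hβp : 0 < β := mul_pos hc0' (Finset.prod_pos fun j _ => V_pos (hPk j) (hPi j))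
  have hQ : ∀ w, β * Pool.Agent.H229R2.PB3.hPi (P' i) w = lam * supp (C i) w := by
    intro w
    rw [← hPi_single J' hc' hPc hPk i w, ← hPd, h.hQ, supp_dsum J hC hCn]
    congr 1
    rw [Finset.sum_eq_single i]
    · rw [emb_apply, hJ1, Pi.single_eq_same]
    · intro j _ hj
      rw [emb_apply, hJ1, Pi.single_eq_of_ne hj, supp_zero (hCn j)]
    · simp
  refine ⟨(α i)⁻¹ • P' i, (α i)⁻¹ ^ κ i * (lam / β), ⟨hCc i, hC i, hCi i, (hPc i).smul _,
    (hPk i).smul _, ?_, ?_, ?_, ?_⟩⟩
  · rw [interior_smul₀ (inv_ne_zero (hαp i).ne')]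
    exact (hPi i).smul_set
  · intro u
    rw [supp_smul (hPk i) (hPn i) (inv_pos.2 (hαp i)).le, hPs, ← mul_assoc,
      inv_mul_cancel₀ (hαp i).ne', one_mul]
  · intro u
    rw [hPi_set_smul (hPc i) (hPk i) (inv_pos.2 (hαp i)), mul_assoc]
    congr 1
    rw [div_mul_eq_mul_div, eq_div_iff hβp.ne', mul_comm, hQ]
  · have := h.pos
    have := hαp i
    positivity

end Pool.Agent.H769.Zono
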