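import Mathlib
import Pool.Agent.H769.Summand

/-! The identity `V(Π K) = λ V(K)` for solutions of `Π Π K = λ K`. -/

set_option autoImplicit false
set_option linter.unusedSimpArgs false
set_option linter.unusedSectionVars false
open MeasureTheory Set Filter Topology Module
open scoped ENNReal RealInnerProductSpace Pointwise

namespace Pool.Agent.H769.Zono

open Pool.Agent.H229R2.PB3 (hPi)
open Pool.Agent.H860R2.PP (V)

variable {n k : ℕ}

theorem simple_sum (m : Measure (En n)) [IsFiniteMeasure m]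
    (T : SimpleFunc (En n) (En n)) (f : En n → ℝ) (hf : f 0 = 0) :
    ∫ v, f (T v) ∂m = ∑ x ∈ T.range, m.real (T ⁻¹' {x}) * f x := by
  have h2 := SimpleFunc.map_integral T f
    (μ := m) (SimpleFunc.integrable_of_isFiniteMeasure T) hf
  rw [SimpleFunc.integral_eq_integral _ (SimpleFunc.integrable_of_isFiniteMeasure _)] at h2
  simpa using h2

theorem simple_bounds (m : Measure (En (k + 1))) [IsFiniteMeasure m]
    (T : SimpleFunc (En (k + 1)) (En (k + 1))) :
    ∃ Z : Set (En (k + 1)), Convex ℝ Z ∧ IsCompact Z ∧ Z.Nonempty ∧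
      (∀ u, supp Z u = ∫ v, |⟪u, T v⟫| ∂m) ∧
      (∀ L : Set (En (k + 1)), Convex ℝ L → IsCompact L → ∀ ε : ℝ, 0 < ε →
        V L + ε * (2 * ∫ v, hPi L (T v) ∂m) ≤ V (L + ε • Z)) ∧
      (∀ L : Set (En (k + 1)), Convex ℝ L → IsCompact L → ∀ r : ℝ, 0 < r →
        Metric.closedBall (0 : En (k + 1)) r ⊆ L → ∀ ε : ℝ, 0 < ε →
        V (L + ε • Z) ≤ V L + (1 + ε * (2 * ∫ v, ‖T v‖ ∂m) / r) ^ k *
          (ε * (2 * ∫ v, hPi L (T v) ∂m))) := by
  classical
  set a : En (k + 1) → En (k + 1) := fun x => (2 * m.real (T ⁻¹' {x})) • x with ha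
  set c : En (k + 1) := -((2 : ℝ)⁻¹ • ∑ x ∈ T.range, a x) with hc
  have hcv := Zt_convex T.range a
  have hcm := Zt_compact T.range a
  have hne := Zt_nonempty T.range a
  have hm0 : ∀ x, 0 ≤ 2 * m.real (T ⁻¹' {x}) := fun x => by
    have : 0 ≤ m.real (T ⁻¹' {x}) := measureReal_nonneg
    positivity
  have hsumP : ∀ L : Set (En (k + 1)), Convex ℝ L → IsCompact L → ∀ ε : ℝ, 0 < ε →
      ∑ x ∈ T.range, hPi L (ε • a x) = ε * (2 * ∫ v, hPi L (T v) ∂m) := by
    intro L hLc hL ε hε
    rw [simple_sum m T (hPi L) (hPi_zero L), Finset.mul_sum, Finset.mul_sum]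
    refine Finset.sum_congr rfl fun x _ => ?_
    rw [hPi_smul hLc hL hε.le, ha]
    simp only
    rw [hPi_smul hLc hL (hm0 x)]
    ring
  have hVeq : ∀ L : Set (En (k + 1)), ∀ ε : ℝ,
      V (L + ε • ({c} + Zt T.range a)) = V (L + Zt T.range (fun x => ε • a x)) := by
    intro L ε
    rw [Zt_smul, smul_add, Set.smul_set_singleton, ← add_assoc, add_comm L, add_assoc, V_translate]
  refine ⟨{c} + Zt T.range a, (convex_singleton c).add hcv, isCompact_singleton.add hcm,
    (singleton_nonempty c).add hne, ?_, ?_, ?_⟩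
  · intro u
    rw [supp_add isCompact_singleton hcm (singleton_nonempty c) hne, supp_singleton, supp_Zt,
      simple_sum m T (fun x => |⟪u, x⟫|) (by simp), hc, inner_neg_right, inner_smul_right,
      inner_sum, Finset.mul_sum, ← Finset.sum_neg_distrib, ← Finset.sum_add_distrib]
    refine Finset.sum_congr rfl fun x _ => ?_
    rw [ha]
    simp only [inner_smul_right]
    have hm0 : 0 ≤ m.real (T ⁻¹' {x}) := measureReal_nonneg
    rcases le_total 0 ⟪u, x⟫ with h | h
    · rw [abs_of_nonneg h, max_eq_right (by positivity)]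
      ring
    · rw [abs_of_nonpos h, max_eq_left (mul_nonpos_of_nonneg_of_nonpos (by positivity) h)]
      ring
  · intro L hLc hL ε hε
    rw [hVeq, ← hsumP L hLc hL ε hε]
    exact sum_lower hLc hL T.range (fun x => ε • a x)
  · intro L hLc hL r hr hb ε hε
    have hM : ∑ x ∈ T.range, ‖ε • a x‖ = ε * (2 * ∫ v, ‖T v‖ ∂m) := by
      rw [simple_sum m T (fun x => ‖x‖) norm_zero, Finset.mul_sum, Finset.mul_sum]
      refine Finset.sum_congr rfl fun x _ => ?_
      rw [norm_smul, Real.norm_of_nonneg hε.le, ha]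
      simp only
      rw [norm_smul, Real.norm_of_nonneg (hm0 x)]
      ring
    have hpos : 0 < 1 + ε * (2 * ∫ v, ‖T v‖ ∂m) / r := by
      have : 0 ≤ ∫ v, ‖T v‖ ∂m := integral_nonneg fun v => norm_nonneg _
      positivity
    have h1 := sum_upper hLc hL (hLc.smul (1 + ε * (2 * ∫ v, ‖T v‖ ∂m) / r)) (hL.smul _) T.range
      (fun x => ε • a x) (by
        have := add_subset hLc hr hb T.range (fun x => ε • a x)
        rwa [hM] at this)
    rw [hVeq]
    refine h1.trans_eq ?_
    rw [← hsumP L hLc hL ε hε, Finset.mul_sum]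
    congr 1
    exact Finset.sum_congr rfl fun x _ => hPi_set_smul hLc hL hpos _

theorem slope_pow (W : ℝ) : Tendsto (fun ε : ℝ => ε⁻¹ * ((1 + ε) ^ (k + 1) * W - W)) (𝓝[>] 0)
    (𝓝 ((k + 1) * W)) := by
  have h1 : HasDerivAt (fun ε : ℝ => (1 + ε) ^ (k + 1) * W) ((k + 1) * W) 0 := by
    have h2 : HasDerivAt (fun ε : ℝ => 1 + ε) 1 0 := (hasDerivAt_id 0).const_add 1
    have h3 := (h2.pow (k + 1)).mul_const W
    simpa using h3
  have h2 := (hasDerivAt_iff_tendsto_slope_zero.1 h1).mono_left
    (nhdsWithin_mono 0 (fun x (hx : x ∈ Ioi (0 : ℝ)) => (ne_of_gt hx : x ∈ ({0}ᶜ : Set ℝ))))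
  refine h2.congr fun ε => ?_
  simp

/-- **Minkowski's formula for zonoids.** -/
theorem vol_gen {L : Set (En (k + 1))} (hLc : Convex ℝ L) (hL : IsCompact L)
    (hint : (interior L).Nonempty) {m : Measure (En (k + 1))} [IsFiniteMeasure m] {R : ℝ}
    (hR : ∀ᵐ v ∂m, ‖v‖ ≤ R) (h : HasGen m L) :
    (k + 1) * V L = 2 * ∫ v, hPi L v ∂m := by
  wlog hR0 : 0 ≤ R generalizing R
  · exact this (R := max R 0) (hR.mono fun v hv => hv.trans (le_max_left _ _)) (le_max_right _ _)
  obtain ⟨ρ, hρ, hlow⟩ := h.lower hL hint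
  have hLn : L.Nonempty := hint.mono interior_subset
  have hball : Metric.closedBall (0 : En (k + 1)) ρ ⊆ L := by
    intro x hx
    refine mem_of_supp hLc hL (fun u => ?_) hLn
    refine le_trans ?_ (hlow u)
    rw [mem_closedBall_zero_iff] at hx
    calc ⟪u, x⟫ ≤ ‖u‖ * ‖x‖ := real_inner_le_norm u x
      _ ≤ ‖u‖ * ρ := by gcongr
      _ = ρ * ‖u‖ := mul_comm _ _
  -- continuity of hPi L
  obtain ⟨mL, hmL, hmL1, hgL⟩ := exists_gen hLc hL hint
  set D : ℝ := ∫ v : En (k + 1), ‖v‖ ∂mL with hD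
  have hlip : ∀ x y, |hPi L x - hPi L y| ≤ D * ‖x - y‖ := by
    intro x y
    rw [hgL, hgL, ← integral_sub (inner_int hmL1 x) (inner_int hmL1 y), hD, ← integral_mul_const]
    refine (abs_integral_le_integral_abs).trans ?_
    refine integral_mono_of_nonneg (Eventually.of_forall fun v => abs_nonneg _)
      ((norm_int hmL1).mul_const _) (Eventually.of_forall fun v => ?_)
    refine (abs_abs_sub_abs_le_abs_sub _ _).trans ?_
    rw [← inner_sub_left]
    exact (abs_real_inner_le_norm _ _).trans_eq (mul_comm _ _)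
  have hcont : Continuous (hPi L) := by
    have hDnn : 0 ≤ D := integral_nonneg fun v => norm_nonneg _
    refine (LipschitzWith.of_dist_le_mul (K := ⟨D, hDnn⟩) fun x y => ?_).continuous
    rw [Real.dist_eq, dist_eq_norm]
    exact hlip x y
  have hbound : ∀ x, |hPi L x| ≤ D * ‖x‖ := by
    intro x
    have := hlip x 0
    rwa [hPi_zero, sub_zero, sub_zero] at this
  obtain ⟨T, hT1, hT2⟩ := exists_approx (n := k + 1) R hR0
  choose Z hZc hZ hZn hZs hZl hZu using fun j => simple_bounds m (T j)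
  have hDnn : 0 ≤ D := integral_nonneg fun v => norm_nonneg _
  set I : ℝ := 2 * ∫ v, hPi L v ∂m with hI
  have hIj : Tendsto (fun j => 2 * ∫ v, hPi L (T j v) ∂m) atTop (𝓝 I) := by
    refine Tendsto.const_mul _ ?_
    refine tendsto_integral_of_dominated_convergence (fun _ => D * R) ?_ (integrable_const _) ?_ ?_
    · intro j
      exact (hcont.measurable.comp (T j).measurable).aestronglyMeasurable
    · intro j
      filter_upwards with v
      rw [Real.norm_eq_abs]
      exact (hbound _).trans (mul_le_mul_of_nonneg_left (hT1 j v) hDnn)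
    · filter_upwards [hR] with v hv
      exact (hcont.tendsto v).comp (hT2 v hv)
  set M : ℝ := 2 * ∫ v : En (k + 1), ‖v‖ ∂m with hM
  have hMj : Tendsto (fun j => 2 * ∫ v, ‖T j v‖ ∂m) atTop (𝓝 M) := by
    refine Tendsto.const_mul _ ?_
    refine tendsto_integral_of_dominated_convergence (fun _ => R) ?_ (integrable_const _) ?_ ?_
    · intro j
      exact ((T j).measurable.norm).aestronglyMeasurable
    · intro j
      filter_upwards with v
      rw [norm_norm]
      exact hT1 j v
    · filter_upwards [hR] with v hv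
      exact (hT2 v hv).norm
  set e : ℕ → ℝ := fun j => ∫ v, ‖T j v - v‖ ∂m with he
  have he0 : Tendsto e atTop (𝓝 0) := by
    have h1 : Tendsto e atTop (𝓝 (∫ v : En (k + 1), (0 : ℝ) ∂m)) := by
      refine tendsto_integral_of_dominated_convergence (fun _ => 2 * R) ?_ (integrable_const _) ?_ ?_
      · intro j
        exact (((T j).measurable.sub measurable_id).norm).aestronglyMeasurable
      · intro j
        filter_upwards [hR] with v hv
        rw [norm_norm]
        calc ‖T j v - v‖ ≤ ‖T j v‖ + ‖v‖ := norm_sub_le _ _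
          _ ≤ 2 * R := by linarith [hT1 j v]
      · filter_upwards [hR] with v hv
        have := (hT2 v hv).sub_const v
        rw [sub_self] at this
        simpa using this.norm
    simpa using h1
  have he_nn : ∀ j, 0 ≤ e j := fun j => integral_nonneg fun v => norm_nonneg _
  have hTint : ∀ j, Integrable (fun v => ‖T j v - v‖) m := by
    intro j
    refine Integrable.mono' (integrable_const (2 * R))
      (((T j).measurable.sub measurable_id).norm).aestronglyMeasurable ?_
    filter_upwards [hR] with v hv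
    rw [norm_norm]
    calc ‖T j v - v‖ ≤ ‖T j v‖ + ‖v‖ := norm_sub_le _ _
      _ ≤ 2 * R := by linarith [hT1 j v]
  have hdiff : ∀ j u, |supp (Z j) u - supp L u| ≤ e j * ‖u‖ := by
    intro j u
    have i1 : Integrable (fun v => |⟪u, T j v⟫|) m := by
      refine Integrable.mono' (integrable_const (‖u‖ * R)) ?_ ?_
      · refine Measurable.aestronglyMeasurable ?_
        have := (T j).measurable
        fun_prop
      · filter_upwards with v
        rw [Real.norm_eq_abs, abs_abs]
        exact (abs_real_inner_le_norm u _).trans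
          (mul_le_mul_of_nonneg_left (hT1 j v) (norm_nonneg u))
    rw [hZs, h u, ← integral_sub i1 (inner_int hR u)]
    refine (abs_integral_le_integral_abs).trans ?_
    rw [he, mul_comm, ← integral_const_mul]
    refine integral_mono_of_nonneg (Eventually.of_forall fun v => abs_nonneg _)
      ((hTint j).const_mul _) (Eventually.of_forall fun v => ?_)
    refine (abs_abs_sub_abs_le_abs_sub _ _).trans ?_
    rw [← inner_sub_right]
    exact abs_real_inner_le_norm _ _
  set δ : ℕ → ℝ := fun j => e j / ρ with hδ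
  have hδ0 : Tendsto δ atTop (𝓝 0) := by simpa using he0.div_const ρ
  have hδnn : ∀ j, 0 ≤ δ j := fun j => div_nonneg (he_nn j) hρ.le
  have heδ : ∀ j u, e j * ‖u‖ ≤ δ j * supp L u := by
    intro j u
    rw [hδ]
    simp only
    rw [div_mul_eq_mul_div, le_div_iff₀ hρ]
    nlinarith [mul_le_mul_of_nonneg_left (hlow u) (he_nn j)]
  have hup : ∀ j u, supp (Z j) u ≤ (1 + δ j) * supp L u := by
    intro j u
    have h1 := (abs_le.1 (hdiff j u)).2
    linarith [heδ j u]
  have hdown : ∀ j u, (1 - δ j) * supp L u ≤ supp (Z j) u := by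
    intro j u
    have h1 := (abs_le.1 (hdiff j u)).1
    linarith [heδ j u]
  apply le_antisymm
  · -- upper bound for the volume
    have key : ∀ ε : ℝ, 0 < ε → ε⁻¹ * ((1 + ε) ^ (k + 1) * V L - V L) ≤
        (1 + ε * M / ρ) ^ k * I := by
      intro ε hε
      have h1 : ∀ᶠ j in atTop, (1 + ε * (1 - δ j)) ^ (k + 1) * V L ≤
          V L + (1 + ε * (2 * ∫ v, ‖T j v‖ ∂m) / ρ) ^ k * (ε * (2 * ∫ v, hPi L (T j v) ∂m)) := by
        have hev : ∀ᶠ j in atTop, δ j < 1 := hδ0.eventually_lt_const zero_lt_one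
        filter_upwards [hev] with j hj
        refine le_trans ?_ (hZu j L hLc hL ρ hρ hball ε hε)
        have hp : 0 ≤ 1 + ε * (1 - δ j) := by
          have : 0 ≤ 1 - δ j := by linarith
          positivity
        rw [← V_smul hp]
        refine V_mono (hL.add ((hZ j).smul ε)) ?_
        refine subset_of_supp (hL.smul _) (hLc.add ((hZc j).smul ε)) (hL.add ((hZ j).smul ε))
          (hLn.add (hZn j).smul_set) fun u => ?_
        rw [supp_smul hL hLn hp, supp_add hL ((hZ j).smul ε) hLn (hZn j).smul_set,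
          supp_smul (hZ j) (hZn j) hε.le]
        nlinarith [mul_le_mul_of_nonneg_left (hdown j u) hε.le]
      have l1 : Tendsto (fun j => (1 + ε * (1 - δ j)) ^ (k + 1) * V L) atTop
          (𝓝 ((1 + ε) ^ (k + 1) * V L)) := by
        have := ((((hδ0.const_sub 1).const_mul ε).const_add 1).pow (k + 1)).mul_const (V L)
        simpa using this
      have l2 : Tendsto (fun j => V L + (1 + ε * (2 * ∫ v, ‖T j v‖ ∂m) / ρ) ^ k *
          (ε * (2 * ∫ v, hPi L (T j v) ∂m))) atTop
          (𝓝 (V L + (1 + ε * M / ρ) ^ k * (ε * I))) :=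
        (((((hMj.const_mul ε).div_const ρ).const_add 1).pow k).mul (hIj.const_mul ε)).const_add _
      have h2 := le_of_tendsto_of_tendsto l1 l2 h1
      rw [inv_mul_le_iff₀ hε]
      linarith
    have l3 : Tendsto (fun ε : ℝ => (1 + ε * M / ρ) ^ k * I) (𝓝[>] 0) (𝓝 I) := by
      have hc : Continuous fun ε : ℝ => (1 + ε * M / ρ) ^ k * I := by fun_prop
      have := (hc.tendsto 0).mono_left (nhdsWithin_le_nhds (s := Ioi 0))
      simpa using this
    exact le_of_tendsto_of_tendsto (slope_pow (k := k) (V L)) l3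
      (by filter_upwards [self_mem_nhdsWithin] with ε hε using key ε hε)
  · -- lower bound for the volume
    have key : ∀ ε : ℝ, 0 < ε → I ≤ ε⁻¹ * ((1 + ε) ^ (k + 1) * V L - V L) := by
      intro ε hε
      have h1 : ∀ j, V L + ε * (2 * ∫ v, hPi L (T j v) ∂m) ≤
          (1 + ε * (1 + δ j)) ^ (k + 1) * V L := by
        intro j
        refine (hZl j L hLc hL ε hε).trans ?_
        have hp : 0 ≤ 1 + ε * (1 + δ j) := by
          have := hδnn j
          positivity
        rw [← V_smul hp]
        refine V_mono (hL.smul _) ?_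
        refine subset_of_supp (hL.add ((hZ j).smul ε)) (hLc.smul _) (hL.smul _)
          hLn.smul_set fun u => ?_
        rw [supp_smul hL hLn hp, supp_add hL ((hZ j).smul ε) hLn (hZn j).smul_set,
          supp_smul (hZ j) (hZn j) hε.le]
        nlinarith [mul_le_mul_of_nonneg_left (hup j u) hε.le]
      have l1 : Tendsto (fun j => (1 + ε * (1 + δ j)) ^ (k + 1) * V L) atTop
          (𝓝 ((1 + ε) ^ (k + 1) * V L)) := by
        have := ((((hδ0.const_add 1).const_mul ε).const_add 1).pow (k + 1)).mul_const (V L)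
        simpa using this
      have l2 : Tendsto (fun j => V L + ε * (2 * ∫ v, hPi L (T j v) ∂m)) atTop
          (𝓝 (V L + ε * I)) := (hIj.const_mul ε).const_add _
      have h2 := le_of_tendsto_of_tendsto' l2 l1 h1
      rw [← div_eq_inv_mul, le_div_iff₀ hε]
      linarith
    exact ge_of_tendsto (slope_pow (k := k) (V L))
      (by filter_upwards [self_mem_nhdsWithin] with ε hε using key ε hε)

/-- `V(Π K) = λ V(K)` whenever `Π Π K = λ K` -/
theorem Sol.vol {K P : Set (En (k + 1))} {lam : ℝ} (h : Sol K P lam) : V P = lam * V K := by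
  obtain ⟨m, hm, ⟨R, hR⟩, hg⟩ := h.zonK
  obtain ⟨m', hm', ⟨R', hR'⟩, hg'⟩ := h.zonP
  have h1 := vol_gen h.Kc h.Kk h.Ki hR hg
  have h2 := vol_gen h.Pc h.Pk h.Pi hR' hg'
  have h3 : ∫ v, hPi K v ∂m = ∫ v, ∫ u, |⟪v, u⟫| ∂m' ∂m := by
    refine integral_congr_ae (Eventually.of_forall fun v => ?_)
    simp only
    rw [← h.hP, hg']
  have h4 : ∫ v, hPi P v ∂m' = lam * ∫ v, ∫ u, |⟪v, u⟫| ∂m ∂m' := by
    rw [← integral_const_mul]
    refine integral_congr_ae (Eventually.of_forall fun v => ?_)
    simp only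
    rw [h.hQ, hg]
  have h5 : ∫ v, ∫ u, |⟪v, u⟫| ∂m' ∂m = ∫ v, ∫ u, |⟪v, u⟫| ∂m ∂m' := by
    rw [integral_integral_swap]
    · simp_rw [real_inner_comm]
    · have hb : ∀ᵐ p ∂(m.prod m'), ‖p.1‖ ≤ R ∧ ‖p.2‖ ≤ R' := by
        have a1 : ∀ᵐ p ∂(m.prod m'), ‖p.1‖ ≤ R := Measure.quasiMeasurePreserving_fst.ae hR
        have a2 : ∀ᵐ p ∂(m.prod m'), ‖p.2‖ ≤ R' := Measure.quasiMeasurePreserving_snd.ae hR'
        filter_upwards [a1, a2] with p h1 h2 using ⟨h1, h2⟩
      refine Integrable.mono' (integrable_const (|R| * |R'|))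
        (Continuous.aestronglyMeasurable (by fun_prop)) ?_
      filter_upwards [hb] with p hp
      change ‖|⟪p.1, p.2⟫|‖ ≤ _
      rw [Real.norm_eq_abs, abs_abs]
      refine (abs_real_inner_le_norm _ _).trans ?_
      gcongr
      · exact hp.1.trans (le_abs_self _)
      · exact hp.2.trans (le_abs_self _)
  rw [h3] at h1
  rw [h4] at h2
  have h6 : ((k : ℝ) + 1) * (V P - lam * V K) = 0 := by
    rw [h5] at h1
    linear_combination h2 - lam * h1
  have h7 : ((k : ℝ) + 1) ≠ 0 := by positivity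
  have h8 := (mul_eq_zero.1 h6).resolve_left h7
  linarith

end Pool.Agent.H769.Zono
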