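import Mathlib
import Pool.Agent.H769.VolId

/-! Direct sums of solutions are solutions. -/

set_option autoImplicit false
set_option linter.unusedSimpArgs false
set_option linter.unusedSectionVars false
open MeasureTheory Set Filter Topology Module
open scoped ENNReal RealInnerProductSpace Pointwise

namespace Pool.Agent.H769.Zono

open Pool.Agent.H229R2.PB3 (hPi)
open Pool.Agent.H860R2.PP (V)

variable {n k : ℕ} {ι : Type} [Fintype ι] [DecidableEq ι] {κ : ι → ℕ}

theorem zon_smul {K : Set (En n)} (hK : IsCompact K) (hn : K.Nonempty) (t : ℝ) (h : IsZon K) :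
    IsZon (t • K) := by
  have h1 := zon_image hK hn (t • ContinuousLinearMap.id ℝ (En n)) h
  exact h1

theorem Sol.dsum {C Pb : (i : ι) → Set (En (κ i + 1))} {l : ι → ℝ}
    (h : ∀ i, Sol (C i) (Pb i) (l i)) (J : Pr κ ≃L[ℝ] En (k + 1)) :
    ∃ (P : Set (En (k + 1))) (lam : ℝ), Sol (Zono.dsum J C) P lam := by
  obtain ⟨c, hc0, hc⟩ := vol_prod J
  obtain ⟨J', hJ1, hJ2⟩ := exists_dual J
  obtain ⟨c', hc0', hc'⟩ := vol_prod J'
  have hCc : ∀ i, Convex ℝ (C i) := fun i => (h i).Kc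
  have hC : ∀ i, IsCompact (C i) := fun i => (h i).Kk
  have hCi : ∀ i, (interior (C i)).Nonempty := fun i => (h i).Ki
  have hCn : ∀ i, (C i).Nonempty := fun i => (h i).Kn
  have hVC : ∀ i, 0 < V (C i) := fun i => V_pos (hC i) (hCi i)
  have hVP : ∀ i, 0 < V (Pb i) := fun i => V_pos (h i).Pk (h i).Pi
  set α : ι → ℝ := fun i => c * ∏ j ∈ Finset.univ.erase i, V (C j) with hα
  have hαp : ∀ i, 0 < α i := fun i => mul_pos hc0 (Finset.prod_pos fun j _ => hVC j)
  set P' : (i : ι) → Set (En (κ i + 1)) := fun i => α i • Pb i with hP'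
  have hPc : ∀ i, Convex ℝ (P' i) := fun i => (h i).Pc.smul _
  have hPk : ∀ i, IsCompact (P' i) := fun i => (h i).Pk.smul _
  have hPn : ∀ i, (P' i).Nonempty := fun i => (h i).Pn.smul_set
  have hPi : ∀ i, (interior (P' i)).Nonempty := fun i => by
    rw [hP', interior_smul₀ (hαp i).ne']
    exact (h i).Pi.smul_set
  have hPz : ∀ i, IsZon (P' i) := fun i => zon_smul (h i).Pk (h i).Pn _ (h i).zonP
  set Pr : ℝ := c' * ∏ j, V (P' j) with hPr
  set Cr : ℝ := c * ∏ j, V (C j) with hCr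
  have hPr0 : 0 < Pr := mul_pos hc0' (Finset.prod_pos fun j _ => V_pos (hPk j) (hPi j))
  have hCr0 : 0 < Cr := mul_pos hc0 (Finset.prod_pos fun j _ => hVC j)
  refine ⟨Zono.dsum J' P', Pr / Cr, ⟨dsum_convex J hCc, dsum_compact J hC, dsum_interior J hCi,
    dsum_convex J' hPc, dsum_compact J' hPk, dsum_interior J' hPi, ?_, ?_, div_pos hPr0 hCr0⟩⟩
  · intro u
    obtain ⟨w, rfl⟩ := J.surjective u
    rw [supp_dsum J' hPk hPn, hPi_dsum J hc hCc hC hCi fun i => (h i).zonK]
    refine Finset.sum_congr rfl fun i _ => ?_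
    rw [hJ2, hP', supp_smul (h i).Pk (h i).Pn (hαp i).le, (h i).hP]
  · intro u
    obtain ⟨w, rfl⟩ := J'.surjective u
    rw [supp_dsum J hC hCn, hPi_dsum J' hc' hPc hPk hPi hPz, Finset.mul_sum]
    refine Finset.sum_congr rfl fun i _ => ?_
    rw [hJ1]
    have e1 : Pool.Agent.H229R2.PB3.hPi (P' i) (w i) = α i ^ κ i * (l i * supp (C i) (w i)) := by
      rw [hP', hPi_set_smul (h i).Pc (h i).Pk (hαp i), (h i).hQ]
    have e2 : V (P' i) = α i ^ (κ i + 1) * (l i * V (C i)) := by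
      rw [hP', V_smul (hαp i).le, (h i).vol]
    have e3 : Pr = c' * (∏ j ∈ Finset.univ.erase i, V (P' j)) * V (P' i) := by
      rw [hPr, ← Finset.mul_prod_erase _ _ (Finset.mem_univ i)]; ring
    have e4 : Cr = α i * V (C i) := by
      rw [hCr, ← Finset.mul_prod_erase _ _ (Finset.mem_univ i), hα]; ring
    rw [e1, e3, e4, e2, pow_succ]
    have := (hαp i).ne'
    have := (hVC i).ne'
    field_simp

end Pool.Agent.H769.Zono
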