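import Mathlib
import Pool.Agent.H769.Converse

/-! Symmetric segments and symmetric planar bodies are solutions. -/

set_option autoImplicit false
set_option linter.unusedSimpArgs false
set_option linter.unusedSectionVars false
open MeasureTheory Set Filter Topology Module
open scoped ENNReal RealInnerProductSpace Pointwise

namespace Pool.Agent.H769.Zono

open Pool.Agent.H229R2.PB3 (hPi projVol)
open Pool.Agent.H860R2.PP (V)

variable {n k : ℕ}

theorem supp_smul_right {K : Set (En n)} (hK : IsCompact K) (hn : K.Nonempty) {t : ℝ}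
    (ht : 0 ≤ t) (u : En n) : supp K (t • u) = t * supp K u := by
  apply le_antisymm
  · apply supp_le hn
    intro x hx
    rw [real_inner_smul_left]
    exact mul_le_mul_of_nonneg_left (le_supp hK u hx) ht
  · obtain ⟨x, hx, h1⟩ := exists_supp hK hn u
    rw [← h1, ← real_inner_smul_left]
    exact le_supp hK _ hx

theorem supp_neg {K : Set (En n)} (hK : IsCompact K) (hn : K.Nonempty)
    (hs : ∀ x ∈ K, -x ∈ K) (u : En n) : supp K (-u) = supp K u := by
  have key : ∀ u, supp K (-u) ≤ supp K u := by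
    intro u
    apply supp_le hn
    intro x hx
    have := le_supp hK u (hs x hx)
    rwa [inner_neg_right, ← inner_neg_left] at this
  apply le_antisymm (key u)
  have := key (-u)
  rwa [neg_neg] at this

theorem supp_abs {K : Set (En n)} (hK : IsCompact K) (hn : K.Nonempty)
    (hs : ∀ x ∈ K, -x ∈ K) (t : ℝ) (u : En n) : supp K (t • u) = |t| * supp K u := by
  rcases le_total 0 t with h | h
  · rw [supp_smul_right hK hn h, abs_of_nonneg h]
  · have h1 : t • u = -((-t) • u) := by rw [neg_smul, neg_neg]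
    rw [h1, supp_neg hK hn hs, supp_smul_right hK hn (by linarith), abs_of_nonpos h]

theorem supp_ball (u : En n) : supp (Metric.closedBall (0 : En n) 1) u = ‖u‖ := by
  have hn : (Metric.closedBall (0 : En n) 1).Nonempty := ⟨0, by simp⟩
  apply le_antisymm
  · apply supp_le hn
    intro x hx
    rw [mem_closedBall_zero_iff] at hx
    calc ⟪u, x⟫ ≤ ‖u‖ * ‖x‖ := real_inner_le_norm u x
      _ ≤ ‖u‖ * 1 := by gcongr
      _ = ‖u‖ := mul_one _
  · by_cases hu : u = 0
    · rw [hu, norm_zero, supp_zero hn]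
    · have hu' : ‖u‖ ≠ 0 := norm_ne_zero_iff.2 hu
      have h1 : ‖u‖⁻¹ • u ∈ Metric.closedBall (0 : En n) 1 := by
        rw [mem_closedBall_zero_iff, norm_smul, norm_inv, norm_norm, inv_mul_cancel₀ hu']
      have h2 := le_supp (isCompact_closedBall (0 : En n) 1) u h1
      rwa [inner_smul_right, real_inner_self_eq_norm_sq, sq, ← mul_assoc, inv_mul_cancel₀ hu',
        one_mul] at h2

theorem sym_pos {K : Set (En n)} (hK : IsCompact K) (hint : (interior K).Nonempty)
    (hs : ∀ x ∈ K, -x ∈ K) {u : En n} (hu : u ≠ 0) : 0 < supp K u := by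
  obtain ⟨x, hx⟩ := hint
  obtain ⟨r, hr, hb⟩ := Metric.isOpen_iff.1 isOpen_interior x hx
  have hn : K.Nonempty := ⟨x, interior_subset hx⟩
  have hu' : 0 < ‖u‖ := norm_pos_iff.2 hu
  have h1 : x + (r / 2 * ‖u‖⁻¹) • u ∈ K := by
    apply interior_subset
    apply hb
    rw [Metric.mem_ball, dist_eq_norm, add_sub_cancel_left, norm_smul, norm_mul, norm_inv,
      norm_norm, mul_assoc, inv_mul_cancel₀ hu'.ne', mul_one, Real.norm_of_nonneg (by positivity)]
    linarith
  have h2 := le_supp hK u h1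
  have h3 := le_supp hK u (hs x (interior_subset hx))
  rw [inner_add_right, inner_smul_right, real_inner_self_eq_norm_sq] at h2
  rw [inner_neg_right] at h3
  have h4 : r / 2 * ‖u‖⁻¹ * ‖u‖ ^ 2 = r / 2 * ‖u‖ := by field_simp
  have h5 : 0 < r / 2 * ‖u‖ := by positivity
  linarith

theorem one_dim (u x : En (0 + 1)) (hu : ‖u‖ = 1) : x - ⟪u, x⟫ • u = 0 := by
  have h1 : u 0 ^ 2 = 1 := by
    have := EuclideanSpace.real_norm_sq_eq u
    rw [hu] at this
    simpa using this.symm
  ext i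
  fin_cases i
  simp only [PiLp.inner_apply, Fin.sum_univ_one, Fin.isValue, PiLp.sub_apply, PiLp.smul_apply]
  simp
  linear_combination (-x 0) * h1

theorem hPi_one {C : Set (En (0 + 1))} (hn : C.Nonempty) (u : En (0 + 1)) : hPi C u = ‖u‖ := by
  by_cases hu : u = 0
  · subst hu; simp [hPi]
  have hu' : ‖u‖ ≠ 0 := norm_ne_zero_iff.2 hu
  unfold hPi projVol
  have h1 : (fun x : En (0 + 1) => x - ⟪‖u‖⁻¹ • u, x⟫ • (‖u‖⁻¹ • u)) '' C = {0} := by
    ext z
    simp only [mem_image, mem_singleton_iff]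
    have h2 : ‖‖u‖⁻¹ • u‖ = 1 := by rw [norm_smul, norm_inv, norm_norm, inv_mul_cancel₀ hu']
    constructor
    · rintro ⟨x, _, rfl⟩; exact one_dim _ x h2
    · rintro rfl
      obtain ⟨x, hx⟩ := hn
      exact ⟨x, hx, one_dim _ x h2⟩
  rw [h1]
  simp

/-- symmetric segments are solutions -/
theorem sol_one {C : Set (En (0 + 1))} (hCc : Convex ℝ C) (hC : IsCompact C)
    (hCi : (interior C).Nonempty) (hs : ∀ x ∈ C, -x ∈ C) :
    ∃ (P : Set (En (0 + 1))) (lam : ℝ), Sol C P lam := by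
  have hn : C.Nonempty := hCi.mono interior_subset
  set e : En (0 + 1) := EuclideanSpace.single 0 1 with he
  have he0 : e ≠ 0 := by
    intro h
    have := congrArg (fun z : En (0 + 1) => z 0) h
    simp [he] at this
  have hpos := sym_pos hC hCi hs he0
  have hue : ∀ u : En (0 + 1), u = (u 0) • e := by
    intro u
    ext i
    fin_cases i
    simp [he]
  have hnorm : ∀ u : En (0 + 1), ‖u‖ = |u 0| := by
    intro u
    conv_lhs => rw [hue u]
    rw [norm_smul, Real.norm_eq_abs, he]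
    simp
  refine ⟨Metric.closedBall 0 1, (supp C e)⁻¹, ⟨hCc, hC, hCi, convex_closedBall _ _,
    isCompact_closedBall _ _, ?_, ?_, ?_, inv_pos.2 hpos⟩⟩
  · rw [interior_closedBall _ one_ne_zero]
    exact ⟨0, by simp⟩
  · intro u
    rw [supp_ball, hPi_one hn]
  · intro u
    rw [hPi_one ⟨0, by simp⟩, hnorm]
    conv_rhs => rw [hue u, supp_abs hC hn hs]
    field_simp

/-- rotation by a right angle -/
noncomputable def Rot : En (1 + 1) →L[ℝ] En (1 + 1) :=
  LinearMap.toContinuousLinearMap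
    { toFun := fun x => WithLp.toLp 2 ![-x 1, x 0]
      map_add' := fun x y => by
        ext i
        fin_cases i
        · simp; ring
        · simp
      map_smul' := fun c x => by
        ext i
        fin_cases i <;> simp }

theorem Rot_zero (x : En (1 + 1)) : Rot x 0 = -x 1 := rfl
theorem Rot_one (x : En (1 + 1)) : Rot x 1 = x 0 := rfl

theorem inner2 (x y : En (1 + 1)) : ⟪x, y⟫ = x 0 * y 0 + x 1 * y 1 := by
  simp [PiLp.inner_apply, Fin.sum_univ_two, mul_comm]

theorem Rot_inner (x y : En (1 + 1)) : ⟪Rot x, y⟫ = -⟪x, Rot y⟫ := by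
  rw [inner2, inner2, Rot_zero, Rot_one, Rot_zero, Rot_one]
  ring

theorem Rot_Rot (x : En (1 + 1)) : Rot (Rot x) = -x := by
  ext i
  fin_cases i
  · rfl
  · rfl

theorem Rot_norm (x : En (1 + 1)) : ‖Rot x‖ = ‖x‖ := by
  have h1 : ‖Rot x‖ ^ 2 = ‖x‖ ^ 2 := by
    rw [← real_inner_self_eq_norm_sq, Rot_inner, Rot_Rot, inner_neg_right, neg_neg,
      real_inner_self_eq_norm_sq]
  exact (pow_left_inj₀ (norm_nonneg _) (norm_nonneg _) two_ne_zero).1 h1

theorem Rot_adj : Rot.adjoint = -Rot := by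
  ext x : 1
  apply ext_inner_right ℝ
  intro y
  rw [ContinuousLinearMap.adjoint_inner_left]
  have := Rot_inner x y
  simp only [neg_apply, inner_neg_left]
  linarith

theorem plane (u x : En (1 + 1)) (hu : ‖u‖ = 1) : x - ⟪u, x⟫ • u = ⟪Rot u, x⟫ • Rot u := by
  have h1 : u 0 ^ 2 + u 1 ^ 2 = 1 := by
    have := EuclideanSpace.real_norm_sq_eq u
    rw [hu, Fin.sum_univ_two] at this
    linarith
  have i1 : ⟪u, x⟫ = u 0 * x 0 + u 1 * x 1 := inner2 u x
  have i2 : ⟪Rot u, x⟫ = -u 1 * x 0 + u 0 * x 1 := by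
    rw [inner2, Rot_zero, Rot_one]
  rw [i1, i2]
  ext i
  fin_cases i
  · change x 0 - (u 0 * x 0 + u 1 * x 1) * u 0 = (-u 1 * x 0 + u 0 * x 1) * (-u 1)
    linear_combination (-x 0) * h1
  · change x 1 - (u 0 * x 0 + u 1 * x 1) * u 1 = (-u 1 * x 0 + u 0 * x 1) * u 0
    linear_combination (-x 1) * h1

theorem hPi_two {C : Set (En (1 + 1))} (hCc : Convex ℝ C) (hC : IsCompact C)
    (hn : C.Nonempty) (hs : ∀ x ∈ C, -x ∈ C) (u : En (1 + 1)) :
    hPi C u = 2 * supp C (Rot u) := by
  by_cases hu : u = 0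
  · subst hu; rw [map_zero, supp_zero hn]; simp [hPi]
  have hu' : ‖u‖ ≠ 0 := norm_ne_zero_iff.2 hu
  set e : En (1 + 1) := ‖u‖⁻¹ • u with he
  have he1 : ‖e‖ = 1 := by rw [he, norm_smul, norm_inv, norm_norm, inv_mul_cancel₀ hu']
  have hRe : ‖Rot e‖ = 1 := by rw [Rot_norm, he1]
  set h := supp C (Rot e) with hh
  have h1 : (fun x : En (1 + 1) => x - ⟪e, x⟫ • e) '' C = (fun t : ℝ => t • Rot e) '' Icc (-h) h := by
    ext z
    simp only [mem_image]
    constructor
    · rintro ⟨x, hx, rfl⟩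
      refine ⟨⟪Rot e, x⟫, ⟨?_, le_supp hC _ hx⟩, (plane e x he1).symm⟩
      have := le_supp hC (Rot e) (hs x hx)
      rw [inner_neg_right] at this
      linarith
    · rintro ⟨t, ht, rfl⟩
      obtain ⟨y, hy, hy1⟩ := exists_supp hC hn (Rot e)
      have hcont : ContinuousOn (fun x : En (1 + 1) => ⟪Rot e, x⟫) C := by fun_prop
      have h2 : t ∈ (fun x : En (1 + 1) => ⟪Rot e, x⟫) '' C := by
        refine hCc.isPreconnected.image _ hcont |>.Icc_subset (a := -h) (b := h) ?_ ?_ ht
        · exact ⟨-y, hs y hy, by simp only [inner_neg_right, hy1]; rfl⟩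
        · exact ⟨y, hy, hy1⟩
      obtain ⟨x, hx, hx1⟩ := h2
      exact ⟨x, hx, by rw [plane e x he1]; simp only at hx1; rw [hx1]⟩
  have hiso : Isometry (fun t : ℝ => t • Rot e) := by
    refine Isometry.of_dist_eq fun s t => ?_
    rw [dist_eq_norm, ← sub_smul, norm_smul, hRe, mul_one, Real.dist_eq, Real.norm_eq_abs]
  have hvol : (μHE[1] : Measure ℝ) = volume := by
    have := InnerProductSpace.euclideanHausdorffMeasure_eq_volume (V := ℝ)
    rwa [finrank_self] at this
  have hh0 : 0 ≤ h := by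
    obtain ⟨y, hy, hy1⟩ := exists_supp hC hn (Rot e)
    have := le_supp hC (Rot e) (hs y hy)
    rw [inner_neg_right, hy1] at this
    linarith
  have h3 : projVol C e = 2 * h := by
    unfold projVol
    rw [h1]
    change (μHE[1] ((fun t : ℝ => t • Rot e) '' Icc (-h) h)).toReal = _
    rw [hiso.euclideanHausdorffMeasure_image, hvol, Real.volume_Icc, ENNReal.toReal_ofReal
      (by linarith)]
    ring
  have h4 : Rot u = ‖u‖ • Rot e := by
    rw [he, map_smul, smul_smul, mul_inv_cancel₀ hu', one_smul]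
  unfold hPi
  rw [← he, h3, h4, supp_smul_right hC hn (norm_nonneg _)]
  ring

/-- symmetric planar bodies are solutions -/
theorem sol_two {C : Set (En (1 + 1))} (hCc : Convex ℝ C) (hC : IsCompact C)
    (hCi : (interior C).Nonempty) (hs : ∀ x ∈ C, -x ∈ C) :
    ∃ (P : Set (En (1 + 1))) (lam : ℝ), Sol C P lam := by
  have hn : C.Nonempty := hCi.mono interior_subset
  have hsurj : Function.Surjective Rot := fun z => ⟨-Rot z, by rw [map_neg, Rot_Rot, neg_neg]⟩
  have hcomp : IsCompact (Rot '' C) := hC.image Rot.continuous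
  have hconv : Convex ℝ (Rot '' C) := hCc.linear_image Rot.toLinearMap
  have hsym : ∀ x ∈ (2 : ℝ) • (Rot '' C), -x ∈ (2 : ℝ) • (Rot '' C) := by
    rintro _ ⟨_, ⟨x, hx, rfl⟩, rfl⟩
    exact ⟨Rot (-x), ⟨-x, hs x hx, rfl⟩, by simp⟩
  have hsP : ∀ u, supp ((2 : ℝ) • (Rot '' C)) u = 2 * supp C (Rot u) := by
    intro u
    rw [supp_smul hcomp (hn.image _) zero_le_two, supp_image hC hn, Rot_adj,
      neg_apply, supp_neg hC hn hs]
  refine ⟨(2 : ℝ) • (Rot '' C), 4, ⟨hCc, hC, hCi, hconv.smul _, hcomp.smul _, ?_, ?_, ?_,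
    by norm_num⟩⟩
  · rw [interior_smul₀ two_ne_zero]
    exact ((hCi.image Rot).mono ((Rot.isOpenMap hsurj).image_interior_subset C)).smul_set
  · intro u
    rw [hsP, hPi_two hCc hC hn hs]
  · intro u
    rw [hPi_two (hconv.smul _) (hcomp.smul _) (hn.image _).smul_set hsym, hsP, Rot_Rot,
      supp_neg hC hn hs]
    ring

end Pool.Agent.H769.Zono
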