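import Mathlib
import Pool.Agent.H769.LowDim

/-! Smoothness, direct sums of subspaces. -/

set_option autoImplicit false
set_option linter.unusedSimpArgs false
set_option linter.unusedSectionVars false
open MeasureTheory Set Filter Topology Module
open scoped ENNReal RealInnerProductSpace Pointwise

namespace Pool.Agent.H769.Zono

open Pool.Agent.H229R2.PB3 (hPi projVol)
open Pool.Agent.H860R2.PP (V)

variable {n k : ℕ}

/-- a zonoid whose generating measure has full projective support is smooth -/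
theorem smooth_of_full {C : Set (En n)} (hC : IsCompact C)
    {m : Measure (En n)} [IsFiniteMeasure m] {R : ℝ} (hR : ∀ᵐ v ∂m, ‖v‖ ≤ R)
    (h : HasGen m C) (hfull : ∀ z, z ≠ 0 → z ∈ Ys m) {y : En n} (hy : y ∈ C) {u u' : En n}
    (hu : ‖u‖ = 1) (hu' : ‖u'‖ = 1) (h1 : ∀ z ∈ C, ⟪u, z⟫ ≤ ⟪u, y⟫)
    (h2 : ∀ z ∈ C, ⟪u', z⟫ ≤ ⟪u', y⟫) : u = u' := by
  by_contra hne
  have hn : C.Nonempty := ⟨y, hy⟩
  have s1 : supp C u = ⟪u, y⟫ := le_antisymm (supp_le hn h1) (le_supp hC u hy)
  have s2 : supp C u' = ⟪u', y⟫ := le_antisymm (supp_le hn h2) (le_supp hC u' hy)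
  have s3 : supp C u + supp C u' ≤ supp C (u + u') := by
    rw [s1, s2, ← inner_add_left]
    exact le_supp hC _ hy
  set g : En n → ℝ := fun v => |⟪u, v⟫| + |⟪u', v⟫| - |⟪u + u', v⟫| with hg
  have hgnn : ∀ v, 0 ≤ g v := by
    intro v
    have := abs_add_le ⟪u, v⟫ ⟪u', v⟫
    rw [hg]
    simp only
    rw [inner_add_left]
    linarith
  have hgint : Integrable g m := ((inner_int hR u).add (inner_int hR u')).sub (inner_int hR _)
  have hgz : ∫ v, g v ∂m = 0 := by
    apply le_antisymm _ (integral_nonneg hgnn)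
    have : ∫ v, g v ∂m = supp C u + supp C u' - supp C (u + u') := by
      have h12 : Integrable (fun v => |⟪u, v⟫| + |⟪u', v⟫|) m :=
        (inner_int hR u).add (inner_int hR u')
      rw [h u, h u', h (u + u'), ← integral_add (inner_int hR u) (inner_int hR u'),
        ← integral_sub h12 (inner_int hR _)]
    linarith
  have hae : ∀ᵐ v ∂m, g v = 0 := (integral_eq_zero_iff_of_nonneg hgnn hgint).1 hgz
  set v0 : En n := u - u' with hv0
  have hv00 : v0 ≠ 0 := sub_ne_zero.2 hne
  have hlt : ⟪u, u'⟫ < 1 := by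
    have h3 : ‖u - u'‖ ^ 2 = 2 - 2 * ⟪u, u'⟫ := by
      rw [norm_sub_sq_real, hu, hu']; ring
    have h4 : 0 < ‖u - u'‖ ^ 2 := by
      have := norm_pos_iff.2 hv00
      positivity
    linarith
  have hgv0 : 0 < g v0 := by
    have i1 : ⟪u, v0⟫ = 1 - ⟪u, u'⟫ := by
      rw [hv0, inner_sub_right, real_inner_self_eq_norm_sq, hu]; norm_num
    have i2 : ⟪u', v0⟫ = ⟪u, u'⟫ - 1 := by
      rw [hv0, inner_sub_right, real_inner_self_eq_norm_sq, hu', real_inner_comm]; norm_num
    rw [hg]
    simp only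
    rw [inner_add_left, i1, i2, abs_of_pos (by linarith), abs_of_neg (by linarith)]
    have : (1 - ⟪u, u'⟫ + (⟪u, u'⟫ - 1) : ℝ) = 0 := by ring
    rw [this, abs_zero]
    linarith
  have hgc : Continuous g := by rw [hg]; fun_prop
  obtain ⟨ε, hε, hball⟩ := Metric.isOpen_iff.1 (isOpen_lt continuous_const hgc) v0 hgv0
  have hpos : ∀ v ∈ cn v0 ε, g v ≠ 0 := by
    rintro v ⟨t, ht, h5⟩
    have h6 : 0 < g (t • v) := hball (by rw [Metric.mem_ball, dist_eq_norm]; exact h5)
    have h7 : g (t • v) = |t| * g v := by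
      rw [hg]
      simp only [inner_smul_right, abs_mul]
      ring
    intro h8
    rw [h7, h8, mul_zero] at h6
    exact lt_irrefl _ h6
  have h9 := (hfull v0 hv00).2 ε hε
  have h10 : m (cn v0 ε) = 0 := by
    refine measure_mono_null (fun v hv => ?_) (ae_iff.1 hae)
    exact hpos v hv
  exact absurd h10 h9.ne'

theorem image_shadow (u : En n) (hu : ‖u‖ = 1) (K : Set (En n)) :
    (Submodule.span ℝ {u})ᗮ.starProjection '' K =
      (fun x : En n => x - ⟪u, x⟫ • u) '' K := by
  refine Set.image_congr fun x _ => ?_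
  rw [Submodule.starProjection_orthogonal_val, Submodule.starProjection_unit_singleton ℝ hu]

variable {ι : Type} [Fintype ι] [DecidableEq ι] {κ : ι → ℕ}

theorem internal_of_J {m : ℕ} (J : Pr κ ≃L[ℝ] En (k + 1)) (e : Fin m ≃ ι) :
    DirectSum.IsInternal (fun i : Fin m => LinearMap.range (emb J (e i)).toLinearMap) := by
  apply DirectSum.isInternal_submodule_of_iSupIndep_of_iSup_eq_top
  · rw [iSupIndep_def]
    intro i
    rw [Submodule.disjoint_def]
    rintro x ⟨z, rfl⟩ hx
    have h1 : ∀ y ∈ ⨆ j, ⨆ (_ : j ≠ i), LinearMap.range (emb J (e j)).toLinearMap,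
        J.symm y (e i) = 0 := by
      intro y hy
      induction hy using Submodule.iSup_induction' with
      | mem j y hy =>
        induction hy using Submodule.iSup_induction' with
        | mem hj y hy =>
          obtain ⟨w, rfl⟩ := hy
          change J.symm (J (Pi.single (e j) w)) (e i) = 0
          rw [ContinuousLinearEquiv.symm_apply_apply, Pi.single_eq_of_ne]
          exact fun h => hj (e.injective h).symm
        | zero => simp
        | add y y' _ _ h h' => rw [map_add, Pi.add_apply, h, h', add_zero]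
      | zero => simp
      | add y y' _ _ h h' => rw [map_add, Pi.add_apply, h, h', add_zero]
    have h2 := h1 _ hx
    change J.symm (J (Pi.single (e i) z)) (e i) = 0 at h2
    rw [ContinuousLinearEquiv.symm_apply_apply, Pi.single_eq_same] at h2
    rw [h2, map_zero]
  · rw [eq_top_iff]
    intro x _
    obtain ⟨y, rfl⟩ := J.surjective x
    rw [J_sum, ← e.sum_comp]
    refine Submodule.sum_mem _ fun i _ => ?_
    exact Submodule.mem_iSup_of_mem i (LinearMap.mem_range_self _ _)

theorem J_of_internal (A : ∀ i, En (κ i + 1) →ₗ[ℝ] En (k + 1))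
    (hA : ∀ i, Function.Injective (A i))
    (h : DirectSum.IsInternal (fun i => LinearMap.range (A i))) :
    ∃ J : Pr κ ≃L[ℝ] En (k + 1), ∀ i w, emb J i w = A i w := by
  let E1 : Pr κ ≃ₗ[ℝ] (∀ i, LinearMap.range (A i)) :=
    LinearEquiv.piCongrRight fun i => LinearEquiv.ofInjective (A i) (hA i)
  let E2 : (∀ i, LinearMap.range (A i)) ≃ₗ[ℝ] DirectSum ι (fun i => LinearMap.range (A i)) :=
    (DirectSum.linearEquivFunOnFintype ℝ ι (fun i => LinearMap.range (A i))).symm
  let E3 : DirectSum ι (fun i => LinearMap.range (A i)) ≃ₗ[ℝ] En (k + 1) :=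
    LinearEquiv.ofBijective (DirectSum.coeLinearMap (fun i => LinearMap.range (A i))) h
  refine ⟨((E1.trans E2).trans E3).toContinuousLinearEquiv, fun i w => ?_⟩
  change E3 (E2 (E1 (Pi.single i w))) = A i w
  have h1 : E1 (Pi.single i w) = Pi.single i (LinearEquiv.ofInjective (A i) (hA i) w) := by
    ext j : 1
    by_cases hj : j = i
    · subst hj
      simp [E1]
    · simp [E1, Pi.single_eq_of_ne hj]
  rw [h1]
  have h2 : E2 (Pi.single i (LinearEquiv.ofInjective (A i) (hA i) w)) =
      DirectSum.lof ℝ ι (fun i => LinearMap.range (A i)) i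
        (LinearEquiv.ofInjective (A i) (hA i) w) :=
    DirectSum.linearEquivFunOnFintype_symm_single (R := ℝ) (ι := ι) i _
  rw [h2]
  change DirectSum.coeLinearMap (fun i => LinearMap.range (A i)) _ = _
  rw [DirectSum.coeLinearMap_lof]
  rfl

theorem dsum_eq (J : Pr κ ≃L[ℝ] En (k + 1)) (C : (i : ι) → Set (En (κ i + 1))) :
    dsum J C = ∑ i, emb J i '' C i := by
  ext x
  rw [Set.mem_fintype_sum]
  constructor
  · rintro ⟨y, hy, rfl⟩
    exact ⟨fun i => emb J i (y i), fun i => ⟨y i, hy i (mem_univ i), rfl⟩, (J_sum J y).symm⟩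
  · rintro ⟨g, hg, rfl⟩
    choose y hy hyg using hg
    refine ⟨y, fun i _ => hy i, ?_⟩
    rw [J_sum]
    exact Finset.sum_congr rfl fun i _ => hyg i

/-- zonoids are symmetric -/
theorem zon_symm {C : Set (En n)} (hCc : Convex ℝ C) (hC : IsCompact C) (hn : C.Nonempty)
    (h : IsZon C) : ∀ x ∈ C, -x ∈ C := by
  obtain ⟨m, _, _, hg⟩ := h
  intro x hx
  refine mem_of_supp hCc hC (fun u => ?_) hn
  rw [inner_neg_right, ← inner_neg_left, ← hg.symm u]
  exact le_supp hC _ hx

/-- a symmetric translate of a symmetric body is the body itself -/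
theorem translate_symm {C : Set (En n)} (hC : IsCompact C) (hn : C.Nonempty)
    (hs : ∀ x ∈ C, -x ∈ C) {y : En n} (hs' : ∀ x ∈ ({y} + C : Set (En n)), -x ∈ ({y} + C : Set (En n))) :
    y = 0 := by
  have h1 : ∀ u, ⟪u, y⟫ = 0 := by
    intro u
    have h2 := supp_neg (isCompact_singleton.add hC) ((singleton_nonempty y).add hn) hs' u
    rw [supp_add isCompact_singleton hC (singleton_nonempty y) hn, supp_singleton,
      supp_add isCompact_singleton hC (singleton_nonempty y) hn, supp_singleton,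
      supp_neg hC hn hs, inner_neg_left] at h2
    linarith
  exact ext_inner_left ℝ fun u => by rw [h1, inner_zero_right]

theorem sol_low {κ : ℕ} (hκ : κ + 1 ≤ 2) {C : Set (En (κ + 1))} (hCc : Convex ℝ C)
    (hC : IsCompact C) (hCi : (interior C).Nonempty) (hs : ∀ x ∈ C, -x ∈ C) :
    ∃ (P : Set (En (κ + 1))) (lam : ℝ), Sol C P lam := by
  match κ, hκ with
  | 0, _ => exact sol_one hCc hC hCi hs
  | 1, _ => exact sol_two hCc hC hCi hs

end Pool.Agent.H769.Zono
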