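import Pool.Agent.H867.FT.Gen11
import Pool.Agent.H397.FT867NAG
import Pool.Agent.H997.FT867LOC

/-!
# RZC: Nagata's ring, extension of Cartier maps (helper769)
-/

set_option autoImplicit false
set_option linter.unusedSectionVars false

namespace Pool.Agent.H769.FT867RZC

open Polynomial Pool.Agent.H867.FT Pool.Agent.H397.FT867NAG Pool.Agent.H997.FT867LOC

section poly

variable {R : Type} [CommRing R] {p : ℕ} [Fact p.Prime] [CharP R p]

theorem ext_cartier (hq : 1 ≤ p) {φ : R →+ R} (hφ : IsCartier p φ) (g h : R[X]) :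
    extHom hq φ (g ^ p * h) = g * extHom hq φ h := by
  induction g using Polynomial.induction_on' with
  | add g₁ g₂ h₁ h₂ => rw [add_pow_char, add_mul, map_add, h₁, h₂, add_mul]
  | monomial n r =>
    ext k
    have e1 : (monomial n r) ^ p * h = C (r ^ p) * (X ^ (p * n) * h) := by
      rw [← C_mul_X_pow_eq_monomial, mul_pow, ← C_pow, ← pow_mul, mul_comm n, mul_assoc]
    have e2 : monomial n r * extHom hq φ h = C r * (X ^ n * extHom hq φ h) := by
      rw [← C_mul_X_pow_eq_monomial, mul_assoc]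
    rw [extHom_coeff, e1, e2, coeff_C_mul, coeff_C_mul, coeff_X_pow_mul', coeff_X_pow_mul',
      hφ, extHom_coeff]
    have e3 : p * n ≤ p * k ↔ n ≤ k := Nat.mul_le_mul_left_iff (by omega)
    by_cases h1 : n ≤ k
    · rw [if_pos h1, if_pos (e3.2 h1), Nat.mul_sub]
    · rw [if_neg h1, if_neg (fun h2 => h1 (e3.1 h2)), map_zero]

/-- the Cartier map of the polynomial ring -/
noncomputable def psi0 (hq : 1 ≤ p) (φ : R →+ R) : R[X] →+ R[X] where
  toFun h := divX (extHom hq φ (X * h))
  map_zero' := by rw [mul_zero, map_zero, divX_zero]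
  map_add' f g := by rw [mul_add, map_add, divX_add]

theorem psi0_coeff (hq : 1 ≤ p) (φ : R →+ R) (h : R[X]) (k : ℕ) :
    (psi0 hq φ h).coeff k = φ ((X * h).coeff (p * (k + 1))) := by
  change (divX (extHom hq φ (X * h))).coeff k = _
  rw [coeff_divX, extHom_coeff]

theorem psi0_spec (hq : 1 ≤ p) (φ : R →+ R) (h : R[X]) :
    extHom hq φ (X * h) = psi0 hq φ h * X := by
  have h1 := divX_mul_X_add (extHom hq φ (X * h))
  have h2 : (extHom hq φ (X * h)).coeff 0 = 0 := by
    rw [extHom_coeff, mul_zero, mul_comm, coeff_mul_X_zero, map_zero]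
  rw [h2, C_0, add_zero] at h1
  exact h1.symm

theorem psi0_cartier (hq : 1 ≤ p) {φ : R →+ R} (hφ : IsCartier p φ) :
    IsCartier p (psi0 hq φ) := by
  intro f g
  have h1 := psi0_spec hq φ (f ^ p * g)
  have h2 : X * (f ^ p * g) = f ^ p * (X * g) := by ring
  rw [h2, ext_cartier hq hφ, psi0_spec, ← mul_assoc] at h1
  ext k
  have h3 := congrArg (fun P : R[X] => P.coeff (k + 1)) h1
  simp only [coeff_mul_X] at h3
  exact h3.symm

theorem psi0_mon (hp : p.Prime) (hq : 1 ≤ p) (φ : R →+ R) (r : R) (n : ℕ) (hn : n ≤ 2 * p - 2) :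
    psi0 hq φ (C r * X ^ n) = if n = p - 1 then C (φ r) else 0 := by
  have hp2 := hp.two_le
  ext k
  rw [psi0_coeff]
  have e1 : X * (C r * X ^ n) = C r * X ^ (n + 1) := by ring
  rw [e1, coeff_C_mul, coeff_X_pow]
  by_cases hk : p * (k + 1) = n + 1
  · have hk0 : k = 0 := by
      by_contra h
      have h1 : 2 ≤ k + 1 := by omega
      have h2 : p * 2 ≤ p * (k + 1) := Nat.mul_le_mul_left _ h1
      omega
    subst hk0
    have hn1 : n = p - 1 := by omega
    rw [if_pos hk, if_pos hn1, mul_one, coeff_C_zero]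
  · rw [if_neg hk, mul_zero, map_zero]
    by_cases hn1 : n = p - 1
    · rw [if_pos hn1]
      have hk0 : k ≠ 0 := by
        intro h
        subst h
        apply hk
        omega
      rw [coeff_C, if_neg hk0]
    · rw [if_neg hn1, coeff_zero]

end poly

theorem rzc : Pool.Agent.H867.FT.S_RZC := by
  intro p hp R A _ _ _ _ _ _ hP hloc φ hφ
  have hpp : p.Prime := Fact.out
  have hq : 1 ≤ p := hpp.one_le
  obtain ⟨P, hPdef⟩ : ∃ P : Ideal R[X], P = (IsLocalRing.maximalIdeal R).map
    (Polynomial.C : R →+* R[X]) := ⟨_, rfl⟩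
  subst hPdef
  have := hP
  have hl : IsLocalization (Ideal.primeCompl ((IsLocalRing.maximalIdeal R).map
    (Polynomial.C : R →+* R[X]))) A := hloc
  obtain ⟨M, hM⟩ : ∃ M : Submonoid R[X], M = Ideal.primeCompl ((IsLocalRing.maximalIdeal R).map
    (Polynomial.C : R →+* R[X])) := ⟨_, rfl⟩
  rw [← hM] at hl
  have hφ0 := psi0_cartier hq hφ
  obtain ⟨ψ, hψ⟩ : ∃ ψ : A → A, ∀ (r : R[X]) (s : M),
      ψ (IsLocalization.mk' A r s) = val A M p (psi0 hq φ) r s := by
    refine ⟨fun b => val A M p (psi0 hq φ) (IsLocalization.sec M b).1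
      (IsLocalization.sec M b).2, ?_⟩
    intro r s
    exact val_eq A hq hφ0 (IsLocalization.mk'_sec A _)
  have hadd : ∀ x y : A, ψ (x + y) = ψ x + ψ y := by
    intro x y
    obtain ⟨r, s, rfl⟩ := IsLocalization.exists_mk'_eq M x
    obtain ⟨r', s', rfl⟩ := IsLocalization.exists_mk'_eq M y
    rw [← IsLocalization.mk'_add, hψ, hψ, hψ, val_add A hq hφ0]
  refine ⟨AddMonoidHom.mk' ψ hadd, ?_, ?_⟩
  · intro x y
    obtain ⟨a, u, rfl⟩ := IsLocalization.exists_mk'_eq M x
    obtain ⟨r, s, rfl⟩ := IsLocalization.exists_mk'_eq M y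
    show ψ _ = _ * ψ _
    rw [← IsLocalization.mk'_pow, ← IsLocalization.mk'_mul, hψ, hψ, val_mul A hq hφ0]
  · intro r n hn
    show ψ (algebraMap R[X] A (C r * X ^ n)) = _
    rw [← IsLocalization.mk'_one (M := M) A (C r * X ^ n), hψ]
    unfold val
    rw [Submonoid.coe_one, one_pow, mul_one, psi0_mon hpp hq φ r n hn,
      IsLocalization.mk'_one]
    split_ifs
    · rfl
    · rw [map_zero]

end Pool.Agent.H769.FT867RZC
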